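import Pool.Agent.ETF.Stmts

/-!
# GTA: pre-tower data exist
-/

set_option autoImplicit false

namespace Pool.Agent.ETF

open Module Pool.Agent.ETT Matrix

namespace GTA_

theorem two_dvd_iff (x : ℤ_[2]) : (2 : ℤ_[2]) ∣ x ↔ PadicInt.toZMod x = 0 := by
  have h1 : x ∈ RingHom.ker (PadicInt.toZMod (p := 2)) ↔ PadicInt.toZMod x = 0 := RingHom.mem_ker
  rw [← h1, PadicInt.ker_toZMod, PadicInt.maximalIdeal_eq_span_p, Ideal.mem_span_singleton]
  norm_num

theorem zmod_ext : ∀ x y : ZMod 2, (x = 0 ↔ y = 0) → x = y := by decide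

theorem zmod_add : ∀ x y : ZMod 2, x ≠ 0 → y ≠ 0 → x + y = 0 := by decide

variable {G : Type} [Group G] (S : Sys G) (U0 : Subgroup G)

/-- The characters of `U0` with values in `F_2` and admissible kernel, extended by zero. -/
structure IsC (c : G → ZMod 2) : Prop where
  mul : ∀ u ∈ U0, ∀ v ∈ U0, c (u * v) = c u + c v
  out : ∀ u, u ∉ U0 → c u = 0
  adm : ∃ W ∈ S.adm, ∀ u, u ∈ W ↔ u ∈ U0 ∧ c u = 0

/-- The kernel of a character. -/
def kr (c : G → ZMod 2) (hc : ∀ u ∈ U0, ∀ v ∈ U0, c (u * v) = c u + c v) : Subgroup G where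
  carrier := {u | u ∈ U0 ∧ c u = 0}
  mul_mem' := by
    rintro a b ⟨ha, ha'⟩ ⟨hb, hb'⟩
    exact ⟨U0.mul_mem ha hb, by rw [hc a ha b hb, ha', hb', add_zero]⟩
  one_mem' := by
    have h := hc 1 U0.one_mem 1 U0.one_mem
    rw [mul_one] at h
    exact ⟨U0.one_mem, by simpa using h⟩
  inv_mem' := by
    rintro a ⟨ha, ha'⟩
    have h1 := hc 1 U0.one_mem 1 U0.one_mem
    rw [mul_one] at h1
    have h0 : c 1 = 0 := by simpa using h1
    have h2 := hc a ha a⁻¹ (U0.inv_mem ha)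
    rw [mul_inv_cancel, h0, ha', zero_add] at h2
    exact ⟨U0.inv_mem ha, h2.symm⟩

variable {S U0}

theorem IsC.add {c d : G → ZMod 2} (hc : IsC S U0 c) (hd : IsC S U0 d) : IsC S U0 (c + d) := by
  have hm : ∀ u ∈ U0, ∀ v ∈ U0, (c + d) (u * v) = (c + d) u + (c + d) v := by
    intro u hu v hv
    rw [Pi.add_apply, Pi.add_apply, Pi.add_apply, hc.mul u hu v hv, hd.mul u hu v hv]
    ring
  refine ⟨hm, ?_, kr U0 (c + d) hm, ?_, fun u => Iff.rfl⟩
  · intro u hu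
    rw [Pi.add_apply, hc.out u hu, hd.out u hu, add_zero]
  · obtain ⟨W, hW, hW'⟩ := hc.adm
    obtain ⟨W₁, hW₁, hW₁'⟩ := hd.adm
    refine S.up_mem _ (S.inf_mem W hW W₁ hW₁) _ ?_
    intro u hu
    obtain ⟨hu1, hu2⟩ := Subgroup.mem_inf.1 hu
    have h1 := (hW' u).1 hu1
    have h2 := (hW₁' u).1 hu2
    exact ⟨h1.1, by rw [Pi.add_apply, h1.2, h2.2, add_zero]⟩

theorem IsC.zero (hU : U0 ∈ S.adm) : IsC S U0 0 :=
  ⟨fun u _ v _ => by simp, fun u _ => rfl, U0, hU, fun u => by simp⟩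

/-- The space of characters. -/
def V (hU : U0 ∈ S.adm) : Submodule (ZMod 2) (G → ZMod 2) where
  carrier := {c | IsC S U0 c}
  add_mem' := fun ha hb => ha.add hb
  zero_mem' := IsC.zero hU
  smul_mem' := by
    intro a c hc
    have h : ∀ a : ZMod 2, a = 0 ∨ a = 1 := by decide
    rcases h a with rfl | rfl
    · rw [zero_smul]; exact IsC.zero hU
    · rw [one_smul]; exact hc

/-- Characters are determined by their kernels. -/
theorem IsC.ext {c d : G → ZMod 2} (hc : IsC S U0 c) (hd : IsC S U0 d)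
    (h : ∀ u ∈ U0, c u = 0 ↔ d u = 0) : c = d := by
  funext u
  by_cases hu : u ∈ U0
  · exact zmod_ext _ _ (h u hu)
  · rw [hc.out u hu, hd.out u hu]

/-- The kernel of a nonzero character has index two. -/
theorem IsC.rel {c : G → ZMod 2} (hc : IsC S U0 c) (h0 : c ≠ 0) {W : Subgroup G}
    (hW : ∀ u, u ∈ W ↔ u ∈ U0 ∧ c u = 0) : W.relIndex U0 = 2 := by
  obtain ⟨a, ha⟩ := Function.ne_iff.1 h0
  have ha' : c a ≠ 0 := ha
  have haU : a ∈ U0 := by
    by_contra h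
    exact ha' (hc.out a h)
  rw [Subgroup.relIndex_eq_two_iff]
  refine ⟨a, haU, fun b hb => ?_⟩
  by_cases hb0 : c b = 0
  · refine Or.inr ⟨(hW b).2 ⟨hb, hb0⟩, fun h => ?_⟩
    have h1 := ((hW _).1 h).2
    rw [hc.mul b hb a haU, hb0, zero_add] at h1
    exact ha' h1
  · refine Or.inl ⟨(hW _).2 ⟨U0.mul_mem hb haU, ?_⟩, fun h => hb0 ((hW _).1 h).2⟩
    rw [hc.mul b hb a haU]
    exact zmod_add _ _ hb0 ha'

/-- There are finitely many characters. -/
theorem finV (hU : U0 ∈ S.adm) : Finite (V hU) := by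
  have hc : ∀ c : V hU, ∃ W ∈ S.adm, ∀ u, u ∈ W ↔ u ∈ U0 ∧ c.1 u = 0 := fun c => c.2.adm
  choose W hW hW' using hc
  have hfin : ({W : Subgroup G | W ∈ S.adm ∧ W ≤ U0 ∧ W.relIndex U0 = 2} ∪ {U0}).Finite :=
    (S.fg U0 hU).union (Set.finite_singleton _)
  have hmem : ∀ c : V hU, W c ∈
      ({W : Subgroup G | W ∈ S.adm ∧ W ≤ U0 ∧ W.relIndex U0 = 2} ∪ {U0}) := by
    intro c
    by_cases h0 : c.1 = 0
    · right
      apply Subgroup.ext
      intro u
      rw [hW' c u, h0]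
      simp
    · left
      exact ⟨hW c, fun u hu => ((hW' c u).1 hu).1, c.2.rel h0 (hW' c)⟩
  have _i := hfin.to_subtype
  refine Finite.of_injective (fun c : V hU => (⟨W c, hmem c⟩ :
    ({W : Subgroup G | W ∈ S.adm ∧ W ≤ U0 ∧ W.relIndex U0 = 2} ∪ {U0} : Set (Subgroup G)))) ?_
  intro c d hcd
  have h1 : W c = W d := congrArg Subtype.val hcd
  apply Subtype.ext
  refine c.2.ext d.2 fun u hu => ?_
  constructor
  · intro h
    have h2 : u ∈ W c := (hW' c u).2 ⟨hu, h⟩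
    rw [h1] at h2
    exact ((hW' d u).1 h2).2
  · intro h
    have h2 : u ∈ W d := (hW' d u).2 ⟨hu, h⟩
    rw [← h1] at h2
    exact ((hW' c u).1 h2).2

/-- The character of a subgroup of index two. -/
theorem chr {W : Subgroup G} (hW : W ∈ S.adm) (hWU : W ≤ U0) (h2 : W.relIndex U0 = 2) :
    ∃ c, IsC S U0 c ∧ ∀ u ∈ U0, u ∈ W ↔ c u = 0 := by
  classical
  have key : ∀ u ∈ U0, (if u ∈ U0 ∧ u ∉ W then (1 : ZMod 2) else 0) = 0 ↔ u ∈ W := by
    intro u hu
    by_cases h : u ∈ W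
    · rw [if_neg (fun h' => h'.2 h)]
      exact ⟨fun _ => h, fun _ => rfl⟩
    · rw [if_pos ⟨hu, h⟩]
      exact ⟨fun h' => absurd h' one_ne_zero, fun h' => absurd h' h⟩
  refine ⟨fun u => if u ∈ U0 ∧ u ∉ W then 1 else 0, ⟨?_, ?_, W, hW, ?_⟩, ?_⟩
  · intro u hu v hv
    have h3 : (W.subgroupOf U0).index = 2 := h2
    have h4 := Subgroup.mul_mem_iff_of_index_two h3 (a := ⟨u, hu⟩) (b := ⟨v, hv⟩)
    have h5 : u * v ∈ W ↔ (u ∈ W ↔ v ∈ W) := h4
    have hone : (1 : ZMod 2) + 1 = 0 := by decide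
    have huv := U0.mul_mem hu hv
    by_cases h6 : u ∈ W <;> by_cases h7 : v ∈ W <;>
      simp [hu, hv, huv, h5, h6, h7, hone]
  · intro u hu
    exact if_neg fun h => hu h.1
  · intro u
    exact ⟨fun h => ⟨hWU h, (key u (hWU h)).2 h⟩, fun h => (key u h.1).1 h.2⟩
  · intro u hu
    exact (key u hu).symm

/-- Finite intersections of admissible subgroups. -/
theorem inf_adm (S : Sys G) {n : ℕ} (f : Fin n → Subgroup G) (hf : ∀ i, f i ∈ S.adm) :
    (Finset.univ.inf f) ∈ S.adm := by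
  apply Finset.inf_induction (p := fun W => W ∈ S.adm)
  · exact S.top_mem
  · intro a ha b hb
    exact S.inf_mem a ha b hb
  · intro i _
    exact hf i

/-- Points which are dual to a basis. -/
theorem dual {n : ℕ} (hU : U0 ∈ S.adm) (b : Basis (Fin (n + 1)) (ZMod 2) (V hU)) :
    ∃ a : Fin (n + 1) → G, (∀ i, a i ∈ U0) ∧ ∀ k i, (b k).1 (a i) = if k = i then 1 else 0 := by
  classical
  let M : Submodule (ZMod 2) (Fin (n + 1) → ZMod 2) :=
    { carrier := {w | ∃ u ∈ U0, ∀ k, w k = (b k).1 u}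
      add_mem' := by
        rintro v w ⟨u, hu, h⟩ ⟨u', hu', h'⟩
        refine ⟨u * u', U0.mul_mem hu hu', fun k => ?_⟩
        rw [Pi.add_apply, h k, h' k, (b k).2.mul u hu u' hu']
      zero_mem' := by
        refine ⟨1, U0.one_mem, fun k => ?_⟩
        have h := (b k).2.mul 1 U0.one_mem 1 U0.one_mem
        rw [mul_one] at h
        rw [Pi.zero_apply]
        have h' : (b k).1 1 = 0 := by simpa using h
        exact h'.symm
      smul_mem' := by
        rintro x w ⟨u, hu, h⟩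
        have h2 : ∀ a : ZMod 2, a = 0 ∨ a = 1 := by decide
        rcases h2 x with rfl | rfl
        · refine ⟨1, U0.one_mem, fun k => ?_⟩
          have h := (b k).2.mul 1 U0.one_mem 1 U0.one_mem
          rw [mul_one] at h
          rw [zero_smul, Pi.zero_apply]
          have h' : (b k).1 1 = 0 := by simpa using h
          exact h'.symm
        · exact ⟨u, hu, fun k => by rw [one_smul, h k]⟩ }
  have hM : M = ⊤ := by
    by_contra hne
    obtain ⟨f, hf, hfM⟩ := Submodule.exists_le_ker_of_lt_top M (lt_top_iff_ne_top.2 hne)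
    apply hf
    have h1 : ∑ k, f (Pi.single k 1) • b k = 0 := by
      apply Subtype.ext
      refine IsC.ext (S := S) (U0 := U0) (∑ k, f (Pi.single k 1) • b k).2 (IsC.zero hU) ?_
      intro u hu
      have h2 : (fun k => (b k).1 u) ∈ M := ⟨u, hu, fun k => rfl⟩
      have h3 := hfM h2
      rw [LinearMap.mem_ker] at h3
      have h4 : (fun k => (b k).1 u) = ∑ k, (b k).1 u • (Pi.single k 1 : Fin (n + 1) → ZMod 2) := by
        funext i
        rw [Finset.sum_apply]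
        simp [Pi.single_apply]
      rw [h4, map_sum] at h3
      have h5 : ((∑ k, f (Pi.single k 1) • b k : V hU) : G → ZMod 2) u = 0 := by
        rw [← h3]
        rw [Submodule.coe_sum, Finset.sum_apply]
        refine Finset.sum_congr rfl fun k _ => ?_
        rw [map_smul, smul_eq_mul, mul_comm]
        rfl
      exact ⟨fun _ => rfl, fun _ => h5⟩
    have h2 := Fintype.linearIndependent_iff.1 b.linearIndependent _ h1
    apply LinearMap.pi_ext'
    intro k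
    apply LinearMap.ext_ring
    exact h2 k
  have h : ∀ i : Fin (n + 1), ∃ u ∈ U0, ∀ k, (Pi.single i 1 : Fin (n + 1) → ZMod 2) k = (b k).1 u := by
    intro i
    have h1 : (Pi.single i 1 : Fin (n + 1) → ZMod 2) ∈ M := hM ▸ Submodule.mem_top
    exact h1
  choose a ha ha' using h
  refine ⟨a, ha, fun k i => ?_⟩
  rw [← ha' i k, Pi.single_apply]

end GTA_

open GTA_ in
theorem gta_proof : Stmt_GTA := by
  classical
  intro G _ S hcyc U0 hU hex
  have _fin := finV hU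
  have _fd : FiniteDimensional (ZMod 2) (V hU) := inferInstance
  obtain ⟨W₀, hW₀, hW₀U, hW₀2⟩ := hex
  obtain ⟨c₀, hc₀, hc₀W⟩ := chr hW₀ hW₀U hW₀2
  have hpos : 0 < finrank (ZMod 2) (V hU) := by
    have _nt : Nontrivial (V hU) := by
      refine ⟨⟨⟨c₀, hc₀⟩, 0, fun h => ?_⟩⟩
      have h1 : c₀ = 0 := congrArg Subtype.val h
      have h2 : U0 ≤ W₀ := fun u hu => (hc₀W u hu).2 (by rw [h1]; rfl)
      have h3 : W₀.relIndex U0 = 1 := Subgroup.relIndex_eq_one.2 h2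
      omega
    exact finrank_pos
  obtain ⟨n, hn⟩ : ∃ n, finrank (ZMod 2) (V hU) = n + 1 := ⟨_, (Nat.succ_pred hpos.ne').symm⟩
  let b : Basis (Fin (n + 1)) (ZMod 2) (V hU) := finBasisOfFinrankEq (ZMod 2) (V hU) hn
  obtain ⟨a, ha, hab⟩ := dual hU b
  -- the lifts
  have hlift : ∀ k, ∃ chi : G → ℤ_[2], (∀ u ∈ U0, ∀ v ∈ U0, chi (u * v) = chi u + chi v) ∧
      (∀ j : ℕ, ∃ W' ∈ S.adm, ∀ u, u ∈ W' ↔ u ∈ U0 ∧ (2 : ℤ_[2]) ^ j ∣ chi u) ∧
      ∀ u ∈ U0, PadicInt.toZMod (chi u) = (b k).1 u := by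
    intro k
    obtain ⟨W, hW, hW'⟩ := (b k).2.adm
    have hne : (b k).1 ≠ 0 := fun h => b.ne_zero k (Subtype.ext h)
    obtain ⟨chi, h1, h2, h3⟩ := S.lift U0 hU W hW (fun u hu => ((hW' u).1 hu).1)
      ((b k).2.rel hne hW')
    refine ⟨chi, ?_, ?_, ?_⟩
    · intro u hu v hv
      rw [h1 u hu v hv, hcyc]
      simp
    · intro j
      obtain ⟨W', hW1, hW2⟩ := h2 j
      refine ⟨W', hW1, fun u => ?_⟩
      rw [← SetLike.mem_coe, hW2]
      rfl
    · intro u hu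
      apply zmod_ext
      rw [← two_dvd_iff]
      have h4 : u ∈ W ↔ u ∈ U0 ∧ (2 : ℤ_[2]) ^ 1 ∣ chi u := by
        rw [← SetLike.mem_coe, h3]
        rfl
      rw [pow_one] at h4
      constructor
      · intro h5
        exact ((hW' u).1 (h4.2 ⟨hu, h5⟩)).2
      · intro h5
        exact (h4.1 ((hW' u).2 ⟨hu, h5⟩)).2
  choose chi hmul hlev hmod using hlift
  let P : Matrix (Fin (n + 1)) (Fin (n + 1)) ℤ_[2] := Matrix.of fun k i => chi k (a i)
  have hPm : P.map PadicInt.toZMod = 1 := by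
    ext k i
    rw [Matrix.map_apply, Matrix.one_apply]
    change PadicInt.toZMod (chi k (a i)) = _
    rw [hmod k (a i) (ha i), hab k i]
  have hdet : IsUnit P.det := by
    by_contra h
    have h1 : P.det ∈ IsLocalRing.maximalIdeal ℤ_[2] := (IsLocalRing.mem_maximalIdeal _).2 h
    rw [← PadicInt.ker_toZMod, RingHom.mem_ker, RingHom.map_det] at h1
    have h2 : (PadicInt.toZMod (p := 2)).mapMatrix P = 1 := hPm
    rw [h2, Matrix.det_one] at h1
    exact one_ne_zero h1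
  let x : G → Fin (n + 1) → ℤ_[2] := fun u k => chi k u
  have hPQ : P * P⁻¹ = 1 := Matrix.mul_nonsing_inv P hdet
  have hQP : P⁻¹ * P = 1 := Matrix.nonsing_inv_mul P hdet
  have hx : ∀ u, P *ᵥ (P⁻¹ *ᵥ x u) = x u := fun u => by
    rw [Matrix.mulVec_mulVec, hPQ, Matrix.one_mulVec]
  have hdvd : ∀ (M : Matrix (Fin (n + 1)) (Fin (n + 1)) ℤ_[2]) (v : Fin (n + 1) → ℤ_[2])
      (j : ℕ), (∀ i, (2 : ℤ_[2]) ^ j ∣ v i) → ∀ i, (2 : ℤ_[2]) ^ j ∣ (M *ᵥ v) i := by
    intro M v j hv i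
    change (2 : ℤ_[2]) ^ j ∣ ∑ l, M i l * v l
    exact Finset.dvd_sum fun l _ => (hv l).mul_left _
  refine ⟨⟨n, a, ha, fun u => P⁻¹ *ᵥ x u, ?_, ?_, ?_, ?_⟩⟩
  · intro u hu v hv
    rw [← Matrix.mulVec_add]
    congr 1
    funext k
    exact hmul k u hu v hv
  · intro i
    have h1 : x (a i) = P *ᵥ Pi.single i 1 := by
      rw [Matrix.mulVec_single_one]
      rfl
    change P⁻¹ *ᵥ x (a i) = _
    rw [h1, Matrix.mulVec_mulVec, hQP, Matrix.one_mulVec]
  · intro j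
    choose W' hW1 hW2 using fun k => hlev k j
    refine ⟨Finset.univ.inf W', inf_adm S W' hW1, fun u => ?_⟩
    have h1 : u ∈ Finset.univ.inf W' ↔ ∀ k, u ∈ W' k := by
      have h2 : Finset.univ.inf W' = ⨅ k, W' k := by
        rw [Finset.inf_univ_eq_iInf]
      rw [h2, Subgroup.mem_iInf]
    rw [h1]
    constructor
    · intro h
      refine ⟨((hW2 0 u).1 (h 0)).1, ?_⟩
      exact hdvd P⁻¹ (x u) j fun k => ((hW2 k u).1 (h k)).2
    · rintro ⟨hu, h⟩ k
      refine (hW2 k u).2 ⟨hu, ?_⟩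
      have h2 := hdvd P (P⁻¹ *ᵥ x u) j h k
      rw [hx u] at h2
      exact h2
  · intro W hW hWU hW2
    obtain ⟨c, hc, hcW⟩ := chr hW hWU hW2
    let w : Fin (n + 1) → ZMod 2 := fun k => b.repr ⟨c, hc⟩ k
    have hcw : ∀ u, c u = ∑ k, w k * (b k).1 u := by
      intro u
      have h1 := b.sum_repr ⟨c, hc⟩
      have h2 := congrArg (fun d : V hU => d.1 u) h1
      change ((∑ k, b.repr ⟨c, hc⟩ k • b k : V hU) : G → ZMod 2) u = c u at h2
      rw [← h2, Submodule.coe_sum, Finset.sum_apply]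
      rfl
    let e : Fin (n + 1) → ℤ_[2] := fun k => ((w k).val : ℤ_[2])
    have he : ∀ k, PadicInt.toZMod (e k) = w k := by
      intro k
      change PadicInt.toZMod (((w k).val : ℕ) : ℤ_[2]) = w k
      rw [map_natCast, ZMod.natCast_val, ZMod.cast_id', id]
    refine ⟨e ᵥ* P, fun u hu => ?_⟩
    have h1 : ∑ i, (e ᵥ* P) i * (P⁻¹ *ᵥ x u) i = ∑ k, e k * chi k u := by
      change (e ᵥ* P) ⬝ᵥ (P⁻¹ *ᵥ x u) = e ⬝ᵥ x u
      rw [← Matrix.dotProduct_mulVec, hx u]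
    change _ ↔ (2 : ℤ_[2]) ∣ ∑ i, (e ᵥ* P) i * (P⁻¹ *ᵥ x u) i
    rw [h1, two_dvd_iff, map_sum, hcW u hu, hcw u]
    have h2 : ∑ k, PadicInt.toZMod (e k * chi k u) = ∑ k, w k * (b k).1 u := by
      refine Finset.sum_congr rfl fun k _ => ?_
      rw [map_mul, he k, hmod k u hu]
    rw [h2]

end Pool.Agent.ETF
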