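import Pool.Agent.ETF.AllA
import Pool.Agent.ETF.GTA

/-!
# MP_d26ff6, squad ETF: the field theorem from the abstract part (cyclotomic character trivial)
-/

namespace Pool.Agent.ETF

/-- the statement `Stmt_IWA` of helper11's interface holds unconditionally -/
theorem iwa : Pool.Agent.ETT.Stmt_IWA := iwa_of_gta gta_proof

end Pool.Agent.ETF
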