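import Pool.Agent.ETF.Stmts

/-!
# ETF, module CGF: the dual of a coinduced module is free
-/

set_option autoImplicit false

namespace Pool.Agent.ETF

open Module Pool.Agent.ETT

theorem cgf_proof (hTWF : Stmt_TWF) (hCGM : Stmt_CGM) (hTOA : Stmt_TOA) (hREG : Stmt_REG) :
    Stmt_CGF := by
  intro G _ S T c _ hPS
  obtain ⟨hX, hT⟩ := hTOA G S T (Cg T c) (Cr T c) hPS
  obtain ⟨-, hrel, -, -⟩ := hTWF G S T
  obtain ⟨-, hcard⟩ := hCGM G S T c
  refine hREG (T.n + 1) (c * T.U0.index) (Cg T c) hX fun j => ?_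
  have hle : T.A j ≤ T.U0 := fun u hu => ((T.mem_A j u).1 hu).1
  have hidx : (T.A j).index = 2 ^ (j * (T.n + 1)) * T.U0.index := by
    rw [← Subgroup.relIndex_mul_index hle, hrel j]
  have he : Nat.card (tr (T.n + 1) (2 ^ j) (Cg T c)) = Nat.card (fix (Cr T c) (T.A j)) := by
    refine Nat.card_congr (Equiv.subtypeEquivRight fun e => ?_)
    exact (hT j e).symm
  rw [he, hcard j, hidx]
  congr 1
  ring

end Pool.Agent.ETF
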