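import Pool.Agent.ETF.Stmts

/-!
# ETF, module CGM: the coinduced module, discreteness and the number of fixed vectors
-/

set_option autoImplicit false

namespace Pool.Agent.ETF

open Module Pool.Agent.ETT

namespace CGM_

theorem finiteIndex {G : Type} [Group G] (S : Sys G) {U : Subgroup G} (hU : U ∈ S.adm) :
    U.FiniteIndex := by
  obtain ⟨N, -, hNU, -, k, hk⟩ := S.core U hU
  have hN : N.FiniteIndex := ⟨by rw [hk]; exact pow_ne_zero k two_ne_zero⟩
  exact Subgroup.finiteIndex_of_le hNU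

theorem conj {G : Type} [Group G] {S : Sys G} (T : Tow S) (j : ℕ) {u : G} (hu : u ∈ T.A j) (h : G) :
    h⁻¹ * u * h ∈ T.A j := by
  have := (T.A_nor j).conj_mem u hu h⁻¹
  rwa [inv_inv] at this

/-- a function of the cosets of `A j` -/
def F {G : Type} [Group G] {S : Sys G} (T : Tow S) (c j : ℕ) (ψ : G ⧸ T.A j → Fin c → ZMod 2) :
    fix (Cr T c) (T.A j) :=
  ⟨⟨fun g => ψ (QuotientGroup.mk g), j, fun g u hu => by
    have : (QuotientGroup.mk (g * u) : G ⧸ T.A j) = QuotientGroup.mk g := by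
      rw [QuotientGroup.eq, mul_inv_rev, mul_assoc, inv_mul_cancel, mul_one]
      exact (T.A j).inv_mem hu
    exact congrArg ψ this⟩, fun u hu => by
    apply Subtype.ext
    funext h
    rw [Cr_apply]
    show ψ (QuotientGroup.mk (u⁻¹ * h)) = ψ (QuotientGroup.mk h)
    have : (QuotientGroup.mk (u⁻¹ * h) : G ⧸ T.A j) = QuotientGroup.mk h := by
      rw [QuotientGroup.eq, mul_inv_rev, inv_inv]
      exact conj T j hu h
    rw [this]⟩

theorem F_apply {G : Type} [Group G] {S : Sys G} (T : Tow S) (c j : ℕ)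
    (ψ : G ⧸ T.A j → Fin c → ZMod 2) (g : G) : (F T c j ψ).1.1 g = ψ (QuotientGroup.mk g) := rfl

theorem F_bij {G : Type} [Group G] {S : Sys G} (T : Tow S) (c j : ℕ) :
    Function.Bijective (F T c j) := by
  constructor
  · intro ψ ψ' h
    funext q
    obtain ⟨g, rfl⟩ := QuotientGroup.mk_surjective q
    exact congrArg (fun f : fix (Cr T c) (T.A j) => f.1.1 g) h
  · intro φ
    refine ⟨fun q => φ.1.1 q.out, ?_⟩
    apply Subtype.ext
    apply Subtype.ext
    funext g
    show φ.1.1 (QuotientGroup.mk g : G ⧸ T.A j).out = φ.1.1 g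
    obtain ⟨u, hu⟩ := QuotientGroup.mk_out_eq_mul (T.A j) g
    rw [hu]
    have hv : g * (u : G) * g⁻¹ ∈ T.A j := (T.A_nor j).conj_mem u u.2 g
    have h1 := φ.2 _ ((T.A j).inv_mem hv)
    have h2 := congrArg (fun f : Cg T c => f.1 g) h1
    simp only [Cr_apply, inv_inv] at h2
    have h3 : g * (u : G) * g⁻¹ * g = g * (u : G) := by group
    rw [h3] at h2
    exact h2

end CGM_

theorem cgm_proof : Stmt_CGM := by
  intro G _ S T c
  refine ⟨fun φ => ?_, fun j => ?_⟩
  · obtain ⟨j, hj⟩ := φ.2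
    refine ⟨j, fun u hu => ?_⟩
    apply Subtype.ext
    funext h
    rw [Cr_apply]
    have e : u⁻¹ * h = h * (h⁻¹ * u⁻¹ * h) := by group
    rw [e]
    exact hj h _ (CGM_.conj T j ((T.A j).inv_mem hu) h)
  · have hfi := CGM_.finiteIndex S (T.A_adm j)
    have hfin : Finite (G ⧸ T.A j) := Subgroup.finite_quotient_of_finiteIndex
    rw [← Nat.card_congr (Equiv.ofBijective _ (CGM_.F_bij T c j)), Nat.card_fun, Nat.card_fun,
      Nat.card_zmod, Nat.card_eq_fintype_card, Fintype.card_fin, ← pow_mul]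
    rfl

end Pool.Agent.ETF
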