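import Pool.Agent.ETF.Stmts

/-!
Module CHO: the choice of `beta` and of the subgroup `U0`.
-/

set_option autoImplicit false

namespace Pool.Agent.ETF

open Module Pool.Agent.ETT

theorem cho_proof (hMON : Stmt_MON) : Stmt_CHO := by
  classical
  intro G _ S R _ _ rho hA
  let P : ℕ → Prop := fun B => ∀ U ∈ S.adm, B * U.index ≤ bb rho U
  have hP0 : P 0 := by
    intro U _
    rw [Nat.zero_mul]
    exact Nat.zero_le _
  have hPb : ∀ B, P B → B ≤ bb rho ⊤ := by
    intro B hB
    have h1 := hB ⊤ S.top_mem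
    rwa [Subgroup.index_top, mul_one] at h1
  have hPB : P (Nat.findGreatest P (bb rho ⊤)) :=
    Nat.findGreatest_spec (m := 0) (Nat.zero_le _) hP0
  have hnP : ¬ P (Nat.findGreatest P (bb rho ⊤) + 1) := by
    intro h1
    have h2 := Nat.le_findGreatest (hPb _ h1) h1
    omega
  refine ⟨Nat.findGreatest P (bb rho ⊤), hPB, ?_⟩
  generalize Nat.findGreatest P (bb rho ⊤) = B at hnP
  have h3 : ∃ U ∈ S.adm, bb rho U < (B + 1) * U.index := by
    by_contra h4
    push Not at h4
    exact hnP h4
  obtain ⟨U, hU, hlt⟩ := h3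
  obtain ⟨N, hN, hNU, hNn, k, hk⟩ := S.core U hU
  refine ⟨N, hN, hNn, ?_⟩
  have hfd : FiniteDimensional (ZMod 2) (fix rho U) := hA.fin U hU
  have hfin : Finite (fix rho U) := Module.finite_of_finite (ZMod 2)
  have h5 := (hMON G S R rho N hN U hU hNU hfin).2
  have h6 : N.relIndex U * U.index = N.index := Subgroup.relIndex_mul_index hNU
  have h7 : 0 < N.relIndex U := by
    apply Nat.pos_of_ne_zero
    intro h0
    rw [h0, zero_mul, hk] at h6
    exact absurd h6.symm (by positivity)
  calc bb rho N ≤ N.relIndex U * bb rho U := h5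
    _ < N.relIndex U * ((B + 1) * U.index) := (Nat.mul_lt_mul_left h7).2 hlt
    _ = (B + 1) * N.index := by rw [← h6]; ring

end Pool.Agent.ETF
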