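import Pool.Agent.ETF.Stmts

/-!
# ETF, module CLI: climbing from `U0` to `G` in steps of index two
-/

set_option autoImplicit false

namespace Pool.Agent.ETF

open Module Pool.Agent.ETT

namespace CLI_

theorem odd_sub_one (y : ℤ_[2]) (hy : ¬ (2 : ℤ_[2]) ∣ y) : (2 : ℤ_[2]) ∣ y - 1 := by
  obtain ⟨n, hn, hm⟩ := PadicInt.exists_mem_range y
  rw [PadicInt.maximalIdeal_eq_span_p, Ideal.mem_span_singleton] at hm
  have h2 : ((2 : ℕ) : ℤ_[2]) = 2 := by norm_num
  rw [h2] at hm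
  interval_cases n
  · exact absurd (by simpa using hm) hy
  · simpa using hm

theorem add_odd (x y : ℤ_[2]) (hx : ¬ (2 : ℤ_[2]) ∣ x) (hy : ¬ (2 : ℤ_[2]) ∣ y) :
    (2 : ℤ_[2]) ∣ x + y := by
  have h := dvd_add (odd_sub_one x hx) (odd_sub_one y hy)
  have h2 : x + y = (x - 1 + (y - 1)) + 2 * 1 := by ring
  rw [h2]
  exact dvd_add h (dvd_mul_right _ _)

variable {G : Type} [Group G] {S : Sys G}

theorem coc (hc : S.cyc = 1) {K : Subgroup G} {chi : G → ℤ_[2]} (h : IsCoc S.cyc K chi) :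
    ∀ u ∈ K, ∀ v ∈ K, chi (u * v) = chi u + chi v := by
  intro u hu v hv
  rw [h u hu v hv, hc]
  simp

theorem A_le (T : Tow S) (j : ℕ) : T.A j ≤ T.U0 := fun u hu => ((T.mem_A j u).1 hu).1

theorem big_inf (T : Tow S) {W H : Subgroup G} (hW : T.big W) (hH : T.big H) :
    T.big (W ⊓ H) := by
  obtain ⟨i, hi⟩ := hW
  obtain ⟨j, hj⟩ := hH
  exact ⟨max i j, le_inf ((T.anti (le_max_left i j)).trans hi)
    ((T.anti (le_max_right i j)).trans hj)⟩

theorem big_of_le (T : Tow S) {H : Subgroup G} (h : T.U0 ≤ H) : T.big H :=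
  ⟨0, (A_le T 0).trans h⟩

theorem big_adm (T : Tow S) {W : Subgroup G} (h : T.big W) : W ∈ S.adm := by
  obtain ⟨j, hj⟩ := h
  exact S.up_mem _ (T.A_adm j) _ hj

theorem fin_fix (hMON : Stmt_MON) (T : Tow S) {E : Type} [AddCommGroup E] [Module (ZMod 2) E]
    (rho : Representation (ZMod 2) G E) (hfin : Finite (fix rho T.U0)) {W : Subgroup G}
    (hW : T.big W) : Finite (fix rho W) := by
  have hU : T.big T.U0 := big_of_le T le_rfl
  have hb : T.big (W ⊓ T.U0) := big_inf T hW hU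
  haveI := (hMON G S E rho (W ⊓ T.U0) (big_adm T hb) T.U0 T.mem0 inf_le_right hfin).1
  have hle : fix rho W ≤ fix rho (W ⊓ T.U0) := by
    intro x hx g hg
    exact hx g hg.1
  exact Finite.of_injective _ (Submodule.inclusion_injective hle)

/-- The claim for the subgroup `H`. -/
def PP (T : Tow S) {E : Type} [AddCommGroup E] [Module (ZMod 2) E]
    (rho : Representation (ZMod 2) G E) (r : ℕ) (H : Subgroup G) : Prop :=
  ∃ r', r = r' * T.U0.relIndex H ∧
    ∀ W : Subgroup G, T.big W → W ≤ H → bb rho W = r' * W.relIndex H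

theorem step (hIXU : Stmt_IXU) (hMON : Stmt_MON) (hCLS : Stmt_CLS) (hc : S.cyc = 1)
    (T : Tow S) {E : Type} [AddCommGroup E] [Module (ZMod 2) E]
    (rho : Representation (ZMod 2) G E) (r : ℕ) (hfin : Finite (fix rho T.U0))
    (H : Subgroup G) (hH : H ∈ S.adm) (hUH : T.U0 ≤ H) (hne : H ≠ ⊤) (hP : PP T rho r H) :
    ∃ K ∈ S.adm, H ≤ K ∧ H.relIndex K = 2 ∧ PP T rho r K := by
  classical
  obtain ⟨K, hK, hHK, _, hidx⟩ := ((hIXU G S H hH ⊤ S.top_mem le_top).2 hne).1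
  refine ⟨K, hK, hHK, hidx, ?_⟩
  obtain ⟨r', hr', hbb⟩ := hP
  obtain ⟨chi, hcoc, hlev, hH1⟩ := S.lift K hK H hH hHK hidx
  have hadd := coc hc hcoc
  obtain ⟨N', hN', hNset⟩ := hlev 2
  have memH : ∀ u, u ∈ H ↔ u ∈ K ∧ (2 : ℤ_[2]) ∣ chi u := by
    intro u
    have : u ∈ (H : Set G) ↔ u ∈ lev K chi 1 := by rw [hH1]
    rw [SetLike.mem_coe] at this
    rw [this]
    show (u ∈ K ∧ (2 : ℤ_[2]) ^ 1 ∣ chi u) ↔ _
    rw [pow_one]
  have memN : ∀ u, u ∈ N' ↔ u ∈ K ∧ (4 : ℤ_[2]) ∣ chi u := by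
    intro u
    have : u ∈ (N' : Set G) ↔ u ∈ lev K chi 2 := by rw [hNset]
    rw [SetLike.mem_coe] at this
    rw [this]
    show (u ∈ K ∧ (2 : ℤ_[2]) ^ 2 ∣ chi u) ↔ _
    norm_num
  have h24 : (2 : ℤ_[2]) ∣ 4 := ⟨2, by norm_num⟩
  have hNH : N' ≤ H := by
    intro u hu
    rw [memN] at hu
    rw [memH]
    exact ⟨hu.1, h24.trans hu.2⟩
  have hUK : T.U0 ≤ K := hUH.trans hHK
  -- `N'` is big
  have hNbig : T.big N' := by
    refine ⟨2, fun u hu => ?_⟩
    rw [T.mem_A] at hu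
    rw [memN]
    refine ⟨hUK hu.1, ?_⟩
    have huniv := T.univ chi (fun a ha b hb => hadd a (hUK ha) b (hUK hb)) (fun j => by
      obtain ⟨W', hW', hWset⟩ := hlev j
      refine ⟨T.U0 ⊓ W', S.inf_mem _ T.mem0 _ hW', ?_⟩
      rw [Subgroup.coe_inf, hWset]
      ext g
      constructor
      · rintro ⟨h1, h2⟩
        exact ⟨h1, h2.2⟩
      · rintro ⟨h1, h2⟩
        exact ⟨h1, hUK h1, h2⟩) u hu.1
    rw [huniv]
    apply Finset.dvd_sum
    intro i _
    have h3 := hu.2 i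
    norm_num at h3
    exact Dvd.dvd.mul_left h3 _
  have hHbig : T.big H := big_of_le T hUH
  have hKbig : T.big K := big_of_le T hUK
  -- the main computation
  have key : ∀ W : Subgroup G, T.big W → W ≤ K → ¬ W ≤ H →
      2 * bb rho W = r' * W.relIndex K := by
    intro W hW hWK hWH
    obtain ⟨g, hgW, hgH⟩ := SetLike.not_le_iff_exists.1 hWH
    have hgK := hWK hgW
    have hodd : ¬ (2 : ℤ_[2]) ∣ chi g := fun h => hgH ((memH g).2 ⟨hgK, h⟩)
    have hW1big : T.big (W ⊓ H) := big_inf T hW hHbig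
    have hW2big : T.big (W ⊓ N') := big_inf T hW hNbig
    have hW21 : W ⊓ N' ≤ W ⊓ H := inf_le_inf_left _ hNH
    have haddW : ∀ u ∈ W, ∀ v ∈ W, chi (u * v) = chi u + chi v :=
      fun u hu v hv => hadd u (hWK hu) v (hWK hv)
    have hgg : chi (g * g) = 2 * chi g := by
      rw [haddW g hgW g hgW]
      ring
    have i21 : (W ⊓ N').relIndex (W ⊓ H) = 2 := by
      rw [Subgroup.relIndex_eq_two_iff_exists_notMem_and]
      refine ⟨g * g, Subgroup.mem_inf.2 ⟨W.mul_mem hgW hgW, ?_⟩, ?_, ?_⟩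
      · rw [memH]
        exact ⟨K.mul_mem hgK hgK, by rw [hgg]; exact dvd_mul_right _ _⟩
      · intro h
        have h4 := ((memN _).1 h.2).2
        rw [hgg] at h4
        obtain ⟨z, hz⟩ := h4
        apply hodd
        refine ⟨z, ?_⟩
        have h2ne : (2 : ℤ_[2]) ≠ 0 := two_ne_zero
        apply mul_left_cancel₀ h2ne
        rw [hz]
        ring
      · intro b hb
        have hbW : b ∈ W := hb.1
        have hbK := hWK hbW
        by_cases h4 : (4 : ℤ_[2]) ∣ chi b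
        · right
          exact ⟨hbW, (memN b).2 ⟨hbK, h4⟩⟩
        · left
          refine Subgroup.mem_inf.2 ⟨W.mul_mem hbW (W.mul_mem hgW hgW), ?_⟩
          rw [memN]
          refine ⟨K.mul_mem hbK (K.mul_mem hgK hgK), ?_⟩
          rw [haddW b hbW _ (W.mul_mem hgW hgW), hgg]
          obtain ⟨x', hx'⟩ := ((memH b).1 hb.2).2
          rw [hx'] at h4 ⊢
          have hx2 : ¬ (2 : ℤ_[2]) ∣ x' := by
            rintro ⟨z, hz⟩
            apply h4
            refine ⟨z, ?_⟩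
            rw [hz]
            ring
          obtain ⟨w, hw⟩ := add_odd x' (chi g) hx2 hodd
          refine ⟨w, ?_⟩
          rw [← mul_add, hw]
          ring
    have i1 : (W ⊓ H).relIndex W = 2 := by
      rw [Subgroup.relIndex_eq_two_iff_exists_notMem_and]
      refine ⟨g, hgW, fun h => hgH h.2, ?_⟩
      intro b hbW
      have hbK := hWK hbW
      by_cases h2 : (2 : ℤ_[2]) ∣ chi b
      · right
        exact ⟨hbW, (memH b).2 ⟨hbK, h2⟩⟩
      · left
        refine Subgroup.mem_inf.2 ⟨W.mul_mem hbW hgW, ?_⟩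
        rw [memH]
        refine ⟨K.mul_mem hbK hgK, ?_⟩
        rw [haddW b hbW g hgW]
        exact add_odd _ _ h2 hodd
    have e1 := hbb (W ⊓ H) hW1big inf_le_right
    have e2 := hbb (W ⊓ N') hW2big (inf_le_right.trans hNH)
    have e3 := Subgroup.relIndex_mul_relIndex (W ⊓ N') (W ⊓ H) H hW21 inf_le_right
    rw [i21] at e3
    have e4 : bb rho (W ⊓ N') = 2 * bb rho (W ⊓ H) := by
      rw [e2, e1, ← e3]
      ring
    have e5 : bb rho (W ⊓ H) = 2 * bb rho W := by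
      refine hCLS G E rho W (W ⊓ H) (W ⊓ N') chi g haddW ?_ ?_ hgW hodd
        (fin_fix hMON T rho hfin hW2big) e4
      · intro u
        rw [Subgroup.mem_inf, memH]
        exact ⟨fun h => ⟨h.1, h.2.2⟩, fun h => ⟨h.1, hWK h.1, h.2⟩⟩
      · intro u
        rw [Subgroup.mem_inf, memN]
        exact ⟨fun h => ⟨h.1, h.2.2⟩, fun h => ⟨h.1, hWK h.1, h.2⟩⟩
    have e6 := Subgroup.relIndex_mul_relIndex (W ⊓ H) W K inf_le_left hWK
    have e7 := Subgroup.relIndex_mul_relIndex (W ⊓ H) H K inf_le_right hHK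
    rw [i1] at e6
    rw [hidx] at e7
    have e8 : W.relIndex K = (W ⊓ H).relIndex H := by omega
    rw [← e5, e1, e8]
  have hKH : ¬ K ≤ H := by
    intro h
    have : H = K := le_antisymm hHK h
    rw [this, Subgroup.relIndex_self] at hidx
    omega
  have hK2 : r' = 2 * bb rho K := by
    have := key K hKbig le_rfl hKH
    rw [Subgroup.relIndex_self, mul_one] at this
    exact this.symm
  refine ⟨bb rho K, ?_, ?_⟩
  · rw [hr', hK2, ← Subgroup.relIndex_mul_relIndex T.U0 H K hUH hHK, hidx]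
    ring
  · intro W hW hWK
    by_cases hWH : W ≤ H
    · rw [hbb W hW hWH, hK2, ← Subgroup.relIndex_mul_relIndex W H K hWH hHK, hidx]
      ring
    · have h1 := key W hW hWK hWH
      rw [hK2, mul_assoc] at h1
      exact Nat.eq_of_mul_eq_mul_left two_pos h1

theorem index_ne (H : Subgroup G) (hH : H ∈ S.adm) : H.index ≠ 0 := by
  obtain ⟨N, _, hNH, _, k, hk⟩ := S.core H hH
  intro h0
  have := Subgroup.relIndex_mul_index hNH
  rw [h0, mul_zero, hk] at this
  exact absurd this.symm (by positivity)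

theorem climb (hIXU : Stmt_IXU) (hMON : Stmt_MON) (hCLS : Stmt_CLS) (hc : S.cyc = 1)
    (T : Tow S) {E : Type} [AddCommGroup E] [Module (ZMod 2) E]
    (rho : Representation (ZMod 2) G E) (r : ℕ) (hfin : Finite (fix rho T.U0)) :
    ∀ (n : ℕ) (H : Subgroup G), H ∈ S.adm → T.U0 ≤ H → H.index ≤ n → PP T rho r H →
      PP T rho r ⊤ := by
  intro n
  induction n with
  | zero =>
    intro H hH _ hn _
    exact absurd (Nat.le_zero.1 hn) (index_ne H hH)
  | succ n ih =>
    intro H hH hU hn hP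
    by_cases htop : H = ⊤
    · rw [← htop]
      exact hP
    · obtain ⟨K, hK, hHK, hidx, hPK⟩ := step hIXU hMON hCLS hc T rho r hfin H hH hU htop hP
      have h1 := Subgroup.relIndex_mul_index hHK
      rw [hidx] at h1
      have h2 := index_ne K hK
      exact ih K hK (hU.trans hHK) (by omega) hPK

end CLI_

open CLI_ in
theorem cli_proof (hIXU : Stmt_IXU) (hMON : Stmt_MON) (hCLS : Stmt_CLS) : Stmt_CLI := by
  intro G _ S hc T E _ _ rho r hfin hbb
  obtain ⟨r', h1, _⟩ := climb hIXU hMON hCLS hc T rho r hfin _ T.U0 T.mem0 le_rfl le_rfl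
    ⟨r, by rw [Subgroup.relIndex_self, mul_one], hbb⟩
  rw [Subgroup.relIndex_top_right] at h1
  exact ⟨r', by rw [h1, mul_comm]⟩

end Pool.Agent.ETF
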