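import Pool.Agent.ETF.Stmts

/-!
# ETF: module CLS (one climbing step for one subgroup)
-/

set_option autoImplicit false

namespace Pool.Agent.ETF

open Module Pool.Agent.ETT

namespace CLS_

lemma odd_sub {x y : ℤ_[2]} (hx : ¬ (2 : ℤ_[2]) ∣ x) (hy : ¬ (2 : ℤ_[2]) ∣ y) :
    (2 : ℤ_[2]) ∣ x - y := by
  have key : ∀ z : ℤ_[2], (2 : ℤ_[2]) ∣ z ↔ PadicInt.toZMod z = 0 := by
    intro z
    have h1 : z ∈ RingHom.ker (PadicInt.toZMod (p := 2)) ↔ z ∈ Ideal.span {(2 : ℤ_[2])} := by
      rw [PadicInt.ker_toZMod, PadicInt.maximalIdeal_eq_span_p]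
      norm_num
    rw [RingHom.mem_ker, Ideal.mem_span_singleton] at h1
    exact h1.symm
  rw [key] at hx hy ⊢
  rw [map_sub]
  revert hx hy
  generalize (PadicInt.toZMod x : ZMod 2) = a
  generalize (PadicInt.toZMod y : ZMod 2) = b
  revert a b
  decide

end CLS_

open CLS_ in
theorem cls_proof (hZ4L : Stmt_Z4L) : Stmt_CLS := by
  intro G _ E _ _ rho W W1 W2 chi g hadd hW1 hW2 hg hodd hfin hbb
  have hchi1 : chi 1 = 0 := by
    have h := hadd 1 W.one_mem 1 W.one_mem
    rw [mul_one] at h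
    linear_combination -h
  have hinv : ∀ u ∈ W, chi u⁻¹ = - chi u := by
    intro u hu
    have h := hadd u hu u⁻¹ (W.inv_mem hu)
    rw [mul_inv_cancel, hchi1] at h
    linear_combination -h
  have hX : ∀ x ∈ fix rho W2, rho g x ∈ fix rho W2 := by
    intro x hx u hu
    have hu' := (hW2 u).1 hu
    have h1 : g⁻¹ * u * g ∈ W2 := by
      rw [hW2]
      refine ⟨W.mul_mem (W.mul_mem (W.inv_mem hg) hu'.1) hg, ?_⟩
      rw [hadd _ (W.mul_mem (W.inv_mem hg) hu'.1) _ hg, hadd _ (W.inv_mem hg) _ hu'.1, hinv g hg]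
      have : -chi g + chi u + chi g = chi u := by ring
      rw [this]
      exact hu'.2
    have h2 : u * g = g * (g⁻¹ * u * g) := by group
    rw [← Module.End.mul_apply, ← map_mul, h2, map_mul, Module.End.mul_apply, hx _ h1]
  have hg4 : g ^ 4 ∈ W2 := by
    rw [hW2]
    refine ⟨W.pow_mem hg 4, ?_⟩
    have h2 : chi (g * g) = chi g + chi g := hadd g hg g hg
    have h4 : chi (g * g * (g * g)) = chi (g * g) + chi (g * g) :=
      hadd _ (W.mul_mem hg hg) _ (W.mul_mem hg hg)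
    have h5 : g ^ 4 = g * g * (g * g) := by
      rw [← pow_two, ← pow_two, ← pow_mul]
    rw [h5, h4, h2]
    exact ⟨chi g, by ring⟩
  have hWle : W2 ≤ W1 := by
    intro u hu
    rw [hW1]
    have h := (hW2 u).1 hu
    exact ⟨h.1, Dvd.dvd.trans ⟨2, by norm_num⟩ h.2⟩
  have hW1le : W1 ≤ W := fun u hu => ((hW1 u).1 hu).1
  let gX : Module.End (ZMod 2) (fix rho W2) := (rho g).restrict hX
  have hgX : ∀ x : fix rho W2, ((gX x : fix rho W2) : E) = rho g x := fun x => rfl
  have hpow : ∀ (n : ℕ) (x : fix rho W2), (((gX ^ n) x : fix rho W2) : E) = rho (g ^ n) x := by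
    intro n
    induction n with
    | zero => intro x; simp
    | succ n ih =>
      intro x
      rw [pow_succ', Module.End.mul_apply, hgX, ih, pow_succ', map_mul, Module.End.mul_apply]
  have h4 : gX ^ 4 = 1 := by
    ext x
    rw [hpow, Module.End.one_apply]
    exact x.2 _ hg4
  -- fixed vectors of `W1`
  have hfix1 : ∀ x ∈ fix rho W2, rho (g ^ 2) x = x → x ∈ fix rho W1 := by
    intro x hx hx2 u hu
    obtain ⟨huW, a, ha⟩ := (hW1 u).1 hu
    by_cases h2a : (2 : ℤ_[2]) ∣ a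
    · obtain ⟨b, rfl⟩ := h2a
      refine hx u ((hW2 u).2 ⟨huW, ⟨b, ?_⟩⟩)
      rw [ha]; ring
    · obtain ⟨b, hb⟩ := odd_sub h2a hodd
      have hg2 : g ^ 2 ∈ W := W.pow_mem hg 2
      have hchi2 : chi (g ^ 2) = 2 * chi g := by
        rw [pow_two, hadd g hg g hg]; ring
      have hv : u * (g ^ 2)⁻¹ ∈ W2 := by
        rw [hW2]
        refine ⟨W.mul_mem huW (W.inv_mem hg2), b, ?_⟩
        rw [hadd _ huW _ (W.inv_mem hg2), hinv _ hg2, hchi2, ha]
        linear_combination 2 * hb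
      have hu2 : u = u * (g ^ 2)⁻¹ * g ^ 2 := by group
      rw [hu2, map_mul, Module.End.mul_apply, hx2, hx _ hv]
  have hfix : ∀ x ∈ fix rho W1, rho g x = x → x ∈ fix rho W := by
    intro x hx hxg u hu
    by_cases h2 : (2 : ℤ_[2]) ∣ chi u
    · exact hx u ((hW1 u).2 ⟨hu, h2⟩)
    · have hv : u * g⁻¹ ∈ W1 := by
        rw [hW1]
        refine ⟨W.mul_mem hu (W.inv_mem hg), ?_⟩
        rw [hadd _ hu _ (W.inv_mem hg), hinv _ hg, ← sub_eq_add_neg]
        exact odd_sub h2 hodd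
      have hu2 : u = u * g⁻¹ * g := by group
      rw [hu2, map_mul, Module.End.mul_apply, hxg, hx _ hv]
  have hg2W1 : g ^ 2 ∈ W1 := by
    rw [hW1]
    refine ⟨W.pow_mem hg 2, chi g, ?_⟩
    rw [pow_two, hadd g hg g hg]; ring
  have hk1 : (LinearMap.ker (gX ^ 2 - 1)).map (fix rho W2).subtype = fix rho W1 := by
    ext x
    rw [Submodule.mem_map]
    constructor
    · rintro ⟨y, hy, rfl⟩
      rw [LinearMap.mem_ker, LinearMap.sub_apply, sub_eq_zero] at hy
      refine hfix1 _ y.2 ?_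
      have h := hpow 2 y
      rw [hy] at h
      exact h.symm
    · intro hx
      refine ⟨⟨x, fun u hu => hx u (hWle hu)⟩, ?_, rfl⟩
      rw [LinearMap.mem_ker, LinearMap.sub_apply, sub_eq_zero]
      ext
      rw [hpow]
      exact hx _ hg2W1
  have hk : (LinearMap.ker (gX - 1)).map (fix rho W2).subtype = fix rho W := by
    ext x
    rw [Submodule.mem_map]
    constructor
    · rintro ⟨y, hy, rfl⟩
      rw [LinearMap.mem_ker, LinearMap.sub_apply, sub_eq_zero] at hy
      have h1 : rho g (y : E) = y := by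
        rw [← hgX, hy]
        rfl
      refine hfix _ (hfix1 _ y.2 ?_) h1
      rw [pow_two, map_mul, Module.End.mul_apply]
      change rho g (rho g (y : E)) = y
      rw [h1, h1]
    · intro hx
      refine ⟨⟨x, fun u hu => hx u (hW1le (hWle hu))⟩, ?_, rfl⟩
      rw [LinearMap.mem_ker, LinearMap.sub_apply, sub_eq_zero]
      ext
      rw [hgX]
      exact hx _ hg
  have e1 : finrank (ZMod 2) (LinearMap.ker (gX ^ 2 - 1)) = bb rho W1 := by
    unfold bb
    rw [← hk1]
    exact (Submodule.finrank_map_subtype_eq _ _).symm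
  have e0 : finrank (ZMod 2) (LinearMap.ker (gX - 1)) = bb rho W := by
    unfold bb
    rw [← hk]
    exact (Submodule.finrank_map_subtype_eq _ _).symm
  have h := hZ4L (fix rho W2) gX h4 (by rw [e1]; exact hbb)
  rw [e1, e0] at h
  exact h

end Pool.Agent.ETF
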