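import Pool.Agent.ETF.Stmts

set_option autoImplicit false

namespace Pool.Agent.ETF

open Module Pool.Agent.ETT

namespace DIV_

theorem xs_succ (n k : ℕ) (hk : k < n) :
    xs n (k + 1) = xs n k ++ [(MvPowerSeries.X (⟨k, hk⟩ : Fin n) : Lam n)] := by
  unfold xs
  rw [List.take_add_one, List.map_append]
  congr 1
  rw [List.getElem?_eq_getElem (by rw [List.length_finRange]; exact hk)]
  simp

theorem xs_zero (n : ℕ) : xs n 0 = [] := by
  unfold xs
  simp

theorem card_tr (hTWF : Stmt_TWF) (hTOA : Stmt_TOA)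
    (G : Type) [Group G] (S : Sys G) (T : Tow S) (E : Type) [AddCommGroup E]
    [Module (ZMod 2) E] [Module (Lam (T.n + 1)) E] (rho : Representation (ZMod 2) G E)
    (h : PS T rho) (hf : Finite (fix rho T.U0)) :
    Nat.card (tr (T.n + 1) 1 E) = 2 ^ finrank (ZMod 2) (fix rho T.U0) := by
  obtain ⟨h0, -⟩ := hTWF G S T
  obtain ⟨-, h1⟩ := hTOA G S T E rho h
  have key : ∀ e : E, e ∈ fix rho T.U0 ↔ e ∈ tr (T.n + 1) 1 E := by
    intro e
    have := h1 0 e
    rw [h0, pow_zero] at this
    exact this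
  have e1 : (fix rho T.U0) ≃ (tr (T.n + 1) 1 E) := Equiv.subtypeEquivRight key
  rw [← Nat.card_congr e1]
  have : Module.Finite (ZMod 2) (fix rho T.U0) := Module.Finite.of_finite
  have h2 := Module.natCard_eq_pow_finrank (K := ZMod 2) (V := fix rho T.U0)
  rw [h2, Nat.card_zmod]

end DIV_

theorem div_proof (hTWF : Stmt_TWF) (hTOA : Stmt_TOA) (hFGN : Stmt_FGN) (hSTP : Stmt_STP)
    (hSYA : Stmt_SYA) (hFRW : Stmt_FRW) (hSYB : Stmt_SYB) (hRKA : Stmt_RKA)
    (hBAS : Stmt_BAS) : Stmt_DIV := by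
  intro G _ S hc T E _ _ _ rho hPS hfin
  have hdom : IsDomain (Lam (T.n + 1)) := NoZeroDivisors.to_isDomain _
  have main : ∀ d k : ℕ, k + d = T.n + 1 → ∀ (E : Type) [AddCommGroup E]
      [Module (ZMod 2) E] [Module (Lam (T.n + 1)) E] (rho : Representation (ZMod 2) G E),
      PS T rho → Finite (fix rho T.U0) →
      RingTheory.Sequence.IsWeaklyRegular (CharacterModule E) (xs (T.n + 1) k) →
      T.U0.index ∣ finrank (Lam (T.n + 1)) (CharacterModule E) := by
    intro d
    induction d with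
    | zero =>
      intro k hk E _ _ _ rho hPS hfin hreg
      obtain rfl : k = T.n + 1 := by omega
      have hcard := DIV_.card_tr hTWF hTOA G S T E rho hPS hfin
      obtain ⟨hXT, -⟩ := hTOA G S T E rho hPS
      obtain ⟨y, hy⟩ := hFGN (T.n + 1) _ E hXT hcard
      have hFin : Module.Finite (Lam (T.n + 1)) (CharacterModule E) :=
        ⟨⟨(Set.finite_range y).toFinset, by rw [Set.Finite.coe_toFinset]; exact hy⟩⟩
      have hFree := hSYB (T.n + 1) (CharacterModule E) hFin hreg
      exact hBAS G S hc T E rho hPS hFree hFin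
    | succ d ih =>
      intro k hk E _ _ _ rho hPS hfin hreg
      obtain ⟨E1, _, _, _, rho1, hPS1, hfin1, F, _, _, α, β, hFree, hFinF, hdvd, hα, hex, hβ⟩ :=
        hSTP G S T E rho hPS hfin
      have hkn : k < T.n + 1 := by omega
      have hregF := hFRW (T.n + 1) (k + 1) F (by omega) hFree
      rw [DIV_.xs_succ (T.n + 1) k hkn] at hregF
      have hreg1 := hSYA (Lam (T.n + 1)) (CharacterModule E1) F (CharacterModule E) α β
        (xs (T.n + 1) k) _ hα hex hβ hreg hregF
      rw [← DIV_.xs_succ (T.n + 1) k hkn] at hreg1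
      have h1 := ih (k + 1) (by omega) E1 rho1 hPS1 hfin1 hreg1
      have h2 := hRKA (Lam (T.n + 1)) (CharacterModule E1) F (CharacterModule E) α β hα hex hβ
        hFinF
      rw [h2] at hdvd
      exact (Nat.dvd_add_right h1).mp hdvd
  refine main (T.n + 1) 0 (by omega) E rho hPS hfin ?_
  rw [DIV_.xs_zero]
  exact RingTheory.Sequence.IsWeaklyRegular.nil _ _

end Pool.Agent.ETF
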