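import Pool.Agent.ETF.Stmts

/-!
# ETF.DUA: duality between torsion and cotorsion
-/

set_option autoImplicit false

namespace Pool.Agent.ETF

open Module Pool.Agent.ETT

namespace DUA_

/-- The element `1/2` of the circle. -/
noncomputable def hf : AddCircle (1 : ℚ) := ((1 / 2 : ℚ) : AddCircle (1 : ℚ))

theorem hf_add : hf + hf = 0 := by
  unfold hf
  rw [← AddCircle.coe_add, AddCircle.coe_eq_zero_iff]
  exact ⟨1, by norm_num⟩

theorem hf_ne : hf ≠ 0 := by
  unfold hf
  rw [Ne, AddCircle.coe_eq_zero_iff]
  rintro ⟨n, hn⟩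
  have h2 : (2 * n : ℚ) = 1 := by
    rw [zsmul_one] at hn
    rw [hn]; norm_num
  have h3 : 2 * n = 1 := by exact_mod_cast h2
  omega

theorem two_tors (y : AddCircle (1 : ℚ)) (h : y + y = 0) : y = 0 ∨ y = hf := by
  induction y using QuotientAddGroup.induction_on with
  | H x =>
    have h' : ((x + x : ℚ) : AddCircle (1 : ℚ)) = 0 := h
    rw [AddCircle.coe_eq_zero_iff] at h'
    obtain ⟨n, hn⟩ := h'
    rw [zsmul_one] at hn
    rcases Int.even_or_odd' n with ⟨k, hk | hk⟩
    · left
      show ((x : ℚ) : AddCircle (1 : ℚ)) = 0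
      rw [AddCircle.coe_eq_zero_iff]
      refine ⟨k, ?_⟩
      rw [zsmul_one]
      rw [hk] at hn
      push_cast at hn
      linarith
    · right
      show ((x : ℚ) : AddCircle (1 : ℚ)) = hf
      unfold hf
      rw [← sub_eq_zero, ← AddCircle.coe_sub, AddCircle.coe_eq_zero_iff]
      refine ⟨k, ?_⟩
      rw [zsmul_one]
      rw [hk] at hn
      push_cast at hn
      linarith

/-- The map `ZMod 2 → ℚ/ℤ`. -/
noncomputable def em : ZMod 2 →+ AddCircle (1 : ℚ) :=
  ZMod.lift 2 ⟨(zmultiplesHom (AddCircle (1 : ℚ))) hf, by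
    show ((2 : ℕ) : ℤ) • hf = 0
    rw [show (((2 : ℕ) : ℤ)) = 2 by norm_num, two_zsmul, hf_add]⟩

theorem em_one : em 1 = hf := by
  have h := ZMod.lift_coe 2 (A := AddCircle (1 : ℚ)) ⟨(zmultiplesHom (AddCircle (1 : ℚ))) hf, by
    show ((2 : ℕ) : ℤ) • hf = 0
    rw [show (((2 : ℕ) : ℤ)) = 2 by norm_num, two_zsmul, hf_add]⟩ 1
  rw [Int.cast_one] at h
  rw [em, h]
  simp

theorem em_inj : Function.Injective em := by
  rw [injective_iff_map_eq_zero]
  intro a ha
  fin_cases a
  · rfl
  · exact absurd (by rw [← em_one]; exact ha) hf_ne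

theorem em_surj (y : AddCircle (1 : ℚ)) (h : y + y = 0) : ∃ a, em a = y := by
  rcases two_tors y h with rfl | rfl
  · exact ⟨0, map_zero _⟩
  · exact ⟨1, em_one⟩

/-- Characters of a group of exponent two. -/
theorem bij (A : Type) [AddCommGroup A] [Module (ZMod 2) A] :
    Function.Bijective (fun f : Module.Dual (ZMod 2) A =>
      (em.comp f.toAddMonoidHom : CharacterModule A)) := by
  have hA : ∀ x : A, x + x = 0 := fun x => by
    rw [← two_smul (ZMod 2) x, show (2 : ZMod 2) = 0 from rfl, zero_smul]
  constructor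
  · intro f g hfg
    ext x
    have := congrArg (fun c : CharacterModule A => c x) hfg
    exact em_inj this
  · intro c
    have h : ∀ x : A, ∃ a, em a = c x := fun x => em_surj _ (by
      have h1 : c (x + x) = c x + c x := map_add c x x
      rw [← h1, hA, map_zero])
    choose g hg using h
    refine ⟨(AddMonoidHom.mk' g ?_).toZModLinearMap 2, ?_⟩
    · intro x y
      apply em_inj
      rw [map_add, hg, hg, hg]
      exact map_add c x y
    · ext x
      exact hg x

theorem card_char (A : Type) [AddCommGroup A] (hA : ∀ x : A, x + x = 0) :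
    (Finite A ↔ Finite (CharacterModule A)) ∧ Nat.card A = Nat.card (CharacterModule A) := by
  let _ : Module (ZMod 2) A := AddCommGroup.zmodModule (n := 2) (fun x => by
    rw [two_nsmul]; exact hA x)
  have e := Equiv.ofBijective _ (bij A)
  have h1 : Finite (CharacterModule A) ↔ Finite (Module.Dual (ZMod 2) A) :=
    ⟨fun h => @Finite.of_equiv _ _ h e.symm, fun h => @Finite.of_equiv _ _ h e⟩
  have h2 : Nat.card (CharacterModule A) = Nat.card (Module.Dual (ZMod 2) A) :=
    (Nat.card_congr e).symm
  have h3 : ∀ (B : Type) [AddCommGroup B] [Module (ZMod 2) B],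
      Finite B ↔ Module.Finite (ZMod 2) B := fun B _ _ =>
    ⟨fun _ => inferInstance, fun _ => Module.finite_of_finite (ZMod 2)⟩
  have h4 : Finite A ↔ Finite (Module.Dual (ZMod 2) A) := by
    rw [h3, h3]
    constructor
    · intro _
      infer_instance
    · intro h
      exact Module.finite_dual_iff (ZMod 2) |>.1 h
  refine ⟨h4.trans h1.symm, ?_⟩
  rw [h2]
  by_cases hfin : Finite A
  · haveI := hfin
    haveI : Finite (Module.Dual (ZMod 2) A) := h4.1 hfin
    rw [Module.natCard_eq_pow_finrank (K := ZMod 2) (V := A),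
      Module.natCard_eq_pow_finrank (K := ZMod 2) (V := Module.Dual (ZMod 2) A),
      Subspace.dual_finrank_eq]
  · have h5 : ¬ Finite (Module.Dual (ZMod 2) A) := fun h => hfin (h4.2 h)
    rw [not_finite_iff_infinite] at hfin h5
    rw [Nat.card_eq_zero_of_infinite, Nat.card_eq_zero_of_infinite]

/-- The kernel of the restriction to the torsion. -/
theorem ker_res (R E : Type) [CommRing R] [AddCommGroup E] [Module R E] (s : Set R)
    (hs : s.Finite) :
    LinearMap.ker (CharacterModule.dual (Submodule.torsionBySet R E s).subtype) =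
      Ideal.span s • (⊤ : Submodule R (CharacterModule E)) := by
  apply le_antisymm
  · intro y hy
    have : Fintype s := hs.fintype
    classical
    let L : E →ₗ[R] (s → E) := LinearMap.pi fun r => LinearMap.lsmul R E r.1
    have hL : ∀ x (r : s), L x r = r.1 • x := fun x r => rfl
    have hker : LinearMap.ker L ≤ Submodule.torsionBySet R E s := by
      intro x hx
      rw [Submodule.mem_torsionBySet_iff]
      intro a
      rw [← hL, LinearMap.mem_ker.1 hx]
      rfl
    have hy0 : ∀ x, L x = 0 → y x = 0 := by
      intro x hx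
      have h1 := congrArg (fun c => c ⟨x, hker (LinearMap.mem_ker.2 hx)⟩) (LinearMap.mem_ker.1 hy)
      exact h1
    -- factor through the range
    let L' : E →+ L.range := L.rangeRestrict.toAddMonoidHom
    have hL' : Function.Surjective L' := L.surjective_rangeRestrict
    have hk : L'.ker ≤ (y : E →+ AddCircle (1 : ℚ)).ker := by
      intro x hx
      rw [AddMonoidHom.mem_ker] at hx ⊢
      apply hy0
      have := congrArg Subtype.val hx
      exact this
    let y' : CharacterModule L.range :=
      (AddMonoidHom.liftOfSurjective L' hL' ⟨(y : E →+ AddCircle (1 : ℚ)), hk⟩ :)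
    have hy' : ∀ x, y' (L' x) = y x := by
      intro x
      exact AddMonoidHom.liftOfRightInverse_comp_apply _ _ _ ⟨_, hk⟩ x
    obtain ⟨z, hz⟩ := CharacterModule.dual_surjective_of_injective L.range.subtype
      (Submodule.injective_subtype _) y'
    have hz' : ∀ x, z (L x) = y x := by
      intro x
      rw [← hy' x, ← hz]
      rfl
    have hsum : y = ∑ r : s, r.1 • (CharacterModule.dual (LinearMap.single R (fun _ : s => E) r) z) := by
      ext x
      have hx : z (L x) = ∑ r : s, z (Pi.single r (L x r)) := by
        conv_lhs => rw [← Finset.univ_sum_single (L x)]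
        exact map_sum z _ _
      rw [← hz' x, hx]
      have : ∀ (t : Finset s) (c : s → CharacterModule E), (∑ r ∈ t, c r) x = ∑ r ∈ t, (c r) x := by
        intro t c
        exact map_sum (⟨⟨fun c : CharacterModule E => c x, rfl⟩, fun _ _ => rfl⟩ :
          CharacterModule E →+ AddCircle (1 : ℚ)) c t
      rw [this]
      rfl
    rw [hsum]
    exact Submodule.sum_mem _ fun r _ =>
      Submodule.smul_mem_smul (Ideal.subset_span r.2) Submodule.mem_top
  · rw [Submodule.smul_le]
    intro r hr y _
    rw [LinearMap.mem_ker]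
    ext ⟨x, hx⟩
    show y (r • x) = 0
    have : r • x = 0 := by
      rw [Submodule.torsionBySet_eq_torsionBySet_span] at hx
      exact (Submodule.mem_torsionBySet_iff _ _).1 hx ⟨r, hr⟩
    rw [this]
    exact map_zero y

end DUA_

theorem dua_proof : Stmt_DUA := by
  intro R E _ _ _ s hs hE
  have hsurj := CharacterModule.dual_surjective_of_injective
    (Submodule.torsionBySet R E s).subtype (Submodule.injective_subtype _)
  have e1 : (CharacterModule E ⧸ (Ideal.span s • (⊤ : Submodule R (CharacterModule E)))) ≃
      CharacterModule (Submodule.torsionBySet R E s) := by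
    rw [← DUA_.ker_res R E s hs]
    exact (LinearMap.quotKerEquivOfSurjective _ hsurj).toEquiv
  have h := DUA_.card_char (Submodule.torsionBySet R E s) (fun x => by
    apply Subtype.ext
    exact hE x.1)
  have h1 : Finite (CharacterModule E ⧸ (Ideal.span s • (⊤ : Submodule R (CharacterModule E)))) ↔
      Finite (CharacterModule (Submodule.torsionBySet R E s)) :=
    ⟨fun _ => Finite.of_equiv _ e1, fun _ => Finite.of_equiv _ e1.symm⟩
  exact ⟨h.1.trans h1.symm, h.2.trans (Nat.card_congr e1).symm⟩

end Pool.Agent.ETF
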