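import Pool.Agent.ETF.Stmts

/-!
Module EMB: equivariant embedding of a discrete representation with finitely many invariants in a
coinduced module.
-/

set_option autoImplicit false

namespace Pool.Agent.ETF

open Module Pool.Agent.ETT

namespace EMB_

variable {G : Type} [Group G] {S : Sys G} (T : Tow S) {E : Type} [AddCommGroup E]
  [Module (ZMod 2) E] (rho : Representation (ZMod 2) G E)

theorem fix_conj (j : ℕ) (e : E) (he : e ∈ fix rho (T.A j)) (h : G) (v : G)
    (hv : v ∈ T.A j) : rho v (rho h⁻¹ e) = rho h⁻¹ e := by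
  have h1 : h * v * h⁻¹ ∈ T.A j := (T.A_nor j).conj_mem v hv h
  have h2 : rho (h * v * h⁻¹) e = e := he _ h1
  calc rho v (rho h⁻¹ e) = rho (v * h⁻¹) e := by rw [map_mul]; rfl
    _ = rho (h⁻¹ * (h * v * h⁻¹)) e := by congr 2; group
    _ = rho h⁻¹ (rho (h * v * h⁻¹) e) := by rw [map_mul]; rfl
    _ = rho h⁻¹ e := by rw [h2]

/-- the embedding attached to a linear map -/
def io (hD : Dis T rho) (c : ℕ) (L : E →ₗ[ZMod 2] (Fin c → ZMod 2)) :
    E →ₗ[ZMod 2] Cg T c where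
  toFun e := ⟨fun h => L (rho h⁻¹ e), by
    obtain ⟨j, hj⟩ := hD e
    refine ⟨j, fun h u hu => ?_⟩
    have h1 : rho (h * u)⁻¹ e = rho h⁻¹ e := by
      calc rho (h * u)⁻¹ e = rho (u⁻¹ * h⁻¹) e := by rw [mul_inv_rev]
        _ = rho u⁻¹ (rho h⁻¹ e) := by rw [map_mul]; rfl
        _ = rho h⁻¹ e := fix_conj T rho j e hj h _ ((T.A j).inv_mem hu)
    show L (rho (h * u)⁻¹ e) = L (rho h⁻¹ e)
    rw [h1]⟩
  map_add' x y := by
    apply Subtype.ext
    funext h
    show L (rho h⁻¹ (x + y)) = L (rho h⁻¹ x) + L (rho h⁻¹ y)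
    rw [map_add, map_add]
  map_smul' a x := by
    apply Subtype.ext
    funext h
    show L (rho h⁻¹ (a • x)) = a • L (rho h⁻¹ x)
    rw [map_smul, map_smul]

theorem io_apply (hD : Dis T rho) (c : ℕ) (L : E →ₗ[ZMod 2] (Fin c → ZMod 2)) (e : E)
    (h : G) : (io T rho hD c L e).1 h = L (rho h⁻¹ e) := rfl

theorem io_equiv (hD : Dis T rho) (c : ℕ) (L : E →ₗ[ZMod 2] (Fin c → ZMod 2)) (g : G)
    (e : E) : io T rho hD c L (rho g e) = Cr T c g (io T rho hD c L e) := by
  apply Subtype.ext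
  funext h
  rw [Cr_apply, io_apply, io_apply]
  congr 1
  calc rho h⁻¹ (rho g e) = rho (h⁻¹ * g) e := by rw [map_mul]; rfl
    _ = rho (g⁻¹ * h)⁻¹ e := by rw [mul_inv_rev, inv_inv]

end EMB_

open EMB_

theorem emb_proof (hFXP : Stmt_FXP) : Stmt_EMB := by
  intro G _ S T E _ _ rho hD hfin
  have hF : Module.Finite (ZMod 2) (fix rho (⊤ : Subgroup G)) := inferInstance
  let b := Module.finBasis (ZMod 2) (fix rho (⊤ : Subgroup G))
  obtain ⟨L, hL⟩ := LinearMap.exists_extend b.equivFun.toLinearMap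
  refine ⟨_, io T rho hD _ L, ?_, io_equiv T rho hD _ L⟩
  rw [← LinearMap.ker_eq_bot, Submodule.eq_bot_iff]
  intro e he
  by_contra hne
  obtain ⟨j, hj⟩ := hD e
  obtain ⟨x, hx, hx0, hxf⟩ := hFXP G S E rho (LinearMap.ker (io T rho hD _ L)) (by
    intro g y hy
    rw [LinearMap.mem_ker] at hy ⊢
    rw [io_equiv, hy, map_zero]) (T.A j) (T.A_adm j) e he hne hj
  apply hx0
  have h1 : L x = 0 := by
    rw [LinearMap.mem_ker] at hx
    have h2 := congrArg (fun φ : Cg T _ => φ.1 1) hx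
    simp only [io_apply, inv_one, map_one] at h2
    exact h2
  have h3 : b.equivFun ⟨x, hxf⟩ = L x := by
    have := congrArg (fun φ => φ ⟨x, hxf⟩) hL
    exact this.symm
  rw [h1] at h3
  have h4 := (LinearEquiv.map_eq_zero_iff b.equivFun).1 h3
  exact congrArg Subtype.val h4

end Pool.Agent.ETF
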