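import Pool.Agent.ETF.Cg

/-!
# ETF: the statements of the modules of the integrality theorem (`Stmt_DIV`)

Abbreviations: `S.cyc = 1` is the untwisted case, `T : Tow S` the tower data of the normal
admissible subgroup `T.U0`, `Dis T rho` says that every vector is fixed by some `T.A j`,
`PS T rho` in addition that `X_i` acts as `rho (a_i) - 1`.
-/

set_option autoImplicit false

namespace Pool.Agent.ETF

open Module Pool.Agent.ETT

/-! ## Groups -/

/-- Between admissible subgroups `W < U` there is a step of index two just above `W` and one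
just below `U`; relative indices are powers of two. -/
def Stmt_IXU : Prop :=
  ∀ (G : Type) [Group G] (S : Sys G), ∀ W ∈ S.adm, ∀ U ∈ S.adm, W ≤ U →
    (∃ k : ℕ, W.relIndex U = 2 ^ k) ∧
    (W ≠ U → (∃ K ∈ S.adm, W ≤ K ∧ K ≤ U ∧ W.relIndex K = 2) ∧
      (∃ K ∈ S.adm, W ≤ K ∧ K ≤ U ∧ K.relIndex U = 2))

/-- Every admissible subgroup has an admissible subgroup of index two. -/
def Stmt_NEE : Prop :=
  ∀ (G : Type) [Group G] (S : Sys G), S.cyc = 1 → (∃ W ∈ S.adm, W ≠ ⊤) →
    ∀ U ∈ S.adm, ∃ W ∈ S.adm, W ≤ U ∧ W.relIndex U = 2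

/-- Pre-tower data exist. -/
def Stmt_GTA : Prop :=
  ∀ (G : Type) [Group G] (S : Sys G), S.cyc = 1 → ∀ U0 ∈ S.adm,
    (∃ W ∈ S.adm, W ≤ U0 ∧ W.relIndex U0 = 2) → Nonempty (Pre S U0)

/-- Pre-tower data of a normal subgroup give tower data. -/
def Stmt_GTB : Prop :=
  ∀ (G : Type) [Group G] (S : Sys G) (U0 : Subgroup G), U0 ∈ S.adm → U0.Normal →
    Pre S U0 → ∃ T : Tow S, T.U0 = U0

/-- Elementary facts on tower data. -/
def Stmt_TWF : Prop :=
  ∀ (G : Type) [Group G] (S : Sys G) (T : Tow S),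
    T.A 0 = T.U0 ∧
    (∀ j, (T.A j).relIndex T.U0 = 2 ^ (j * (T.n + 1))) ∧
    (∀ j, ∀ u ∈ T.U0, ∀ v ∈ T.U0, u * v * u⁻¹ * v⁻¹ ∈ T.A j) ∧
    (∀ (H : Subgroup G) (j m : ℕ), T.A m ≤ H → (∀ i, T.a i ^ (2 ^ j) ∈ H) → T.A j ≤ H)

/-! ## Representations over `F_2` -/

/-- A nonzero stable subspace with a smooth vector contains a nonzero fixed vector. -/
def Stmt_FXP : Prop :=
  ∀ (G : Type) [Group G] (S : Sys G) (E : Type) [AddCommGroup E] [Module (ZMod 2) E]
    (rho : Representation (ZMod 2) G E) (K : Submodule (ZMod 2) E),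
    (∀ g : G, ∀ e ∈ K, rho g e ∈ K) → ∀ N ∈ S.adm, ∀ e ∈ K, e ≠ 0 → e ∈ fix rho N →
      ∃ x ∈ K, x ≠ 0 ∧ x ∈ fix rho ⊤

/-- `b_W ≤ [U : W] b_U`. -/
def Stmt_MON : Prop :=
  ∀ (G : Type) [Group G] (S : Sys G) (E : Type) [AddCommGroup E] [Module (ZMod 2) E]
    (rho : Representation (ZMod 2) G E), ∀ W ∈ S.adm, ∀ U ∈ S.adm, W ≤ U →
      Finite (fix rho U) → Finite (fix rho W) ∧ bb rho W ≤ W.relIndex U * bb rho U

/-- The choice of `beta` and of the subgroup `U0`. -/
def Stmt_CHO : Prop :=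
  ∀ (G : Type) [Group G] (S : Sys G) (R : Type) [AddCommGroup R] [Module (ZMod 2) R]
    (rho : Representation (ZMod 2) G R), IsAdmMod S rho →
    ∃ B : ℕ, (∀ U ∈ S.adm, B * U.index ≤ bb rho U) ∧
      ∃ U0 ∈ S.adm, U0.Normal ∧ bb rho U0 < (B + 1) * U0.index

/-- The linear algebra of `Z/4`. -/
def Stmt_Z4L : Prop :=
  ∀ (X : Type) [AddCommGroup X] [Module (ZMod 2) X] [Finite X] (g : Module.End (ZMod 2) X),
    g ^ 4 = 1 → finrank (ZMod 2) X = 2 * finrank (ZMod 2) (LinearMap.ker (g ^ 2 - 1)) →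
    finrank (ZMod 2) (LinearMap.ker (g ^ 2 - 1)) =
      2 * finrank (ZMod 2) (LinearMap.ker (g - 1))

/-- One climbing step for one subgroup: `W` has the subgroups `W1` of index two and `W2` of
index four with cyclic quotient. -/
def Stmt_CLS : Prop :=
  ∀ (G : Type) [Group G] (E : Type) [AddCommGroup E] [Module (ZMod 2) E]
    (rho : Representation (ZMod 2) G E) (W W1 W2 : Subgroup G) (chi : G → ℤ_[2]) (g : G),
    (∀ u ∈ W, ∀ v ∈ W, chi (u * v) = chi u + chi v) →
    (∀ u, u ∈ W1 ↔ u ∈ W ∧ (2 : ℤ_[2]) ∣ chi u) →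
    (∀ u, u ∈ W2 ↔ u ∈ W ∧ (4 : ℤ_[2]) ∣ chi u) →
    g ∈ W → ¬ (2 : ℤ_[2]) ∣ chi g → Finite (fix rho W2) →
    bb rho W2 = 2 * bb rho W1 → bb rho W1 = 2 * bb rho W

/-- Climbing from `U0` to `G`. -/
def Stmt_CLI : Prop :=
  ∀ (G : Type) [Group G] (S : Sys G), S.cyc = 1 → ∀ (T : Tow S) (E : Type) [AddCommGroup E]
    [Module (ZMod 2) E] (rho : Representation (ZMod 2) G E) (r : ℕ), Finite (fix rho T.U0) →
    (∀ W : Subgroup G, T.big W → W ≤ T.U0 → bb rho W = r * W.relIndex T.U0) →
    T.U0.index ∣ r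

/-- Replacement of a representation by the union of the fixed spaces of the `A j`. -/
def Stmt_SUP : Prop :=
  ∀ (G : Type) [Group G] (S : Sys G) (T : Tow S) (R : Type) [AddCommGroup R]
    [Module (ZMod 2) R] (rho : Representation (ZMod 2) G R),
    ∃ (E : Type) (_ : AddCommGroup E) (_ : Module (ZMod 2) E)
      (sig : Representation (ZMod 2) G E), Dis T sig ∧
      ∀ W : Subgroup G, T.big W → Nonempty (fix rho W ≃ₗ[ZMod 2] fix sig W)

/-- Quotient representations. -/
def Stmt_QUO : Prop :=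
  ∀ (G : Type) [Group G] (S : Sys G) (T : Tow S) (C : Type) [AddCommGroup C]
    [Module (ZMod 2) C] (sig : Representation (ZMod 2) G C) (K : Submodule (ZMod 2) C),
    Dis T sig → (∀ g : G, ∀ c ∈ K, sig g c ∈ K) →
    ∃ tau : Representation (ZMod 2) G (C ⧸ K),
      Dis T tau ∧ ∀ (g : G) (c : C), tau g (K.mkQ c) = K.mkQ (sig g c)

/-- The coinduced module: discreteness and the number of fixed vectors. -/
def Stmt_CGM : Prop :=
  ∀ (G : Type) [Group G] (S : Sys G) (T : Tow S) (c : ℕ),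
    Dis T (Cr T c) ∧
      ∀ j, Nat.card (fix (Cr T c) (T.A j)) = 2 ^ (c * (T.A j).index)

/-- Equivariant embedding in a coinduced module. -/
def Stmt_EMB : Prop :=
  ∀ (G : Type) [Group G] (S : Sys G) (T : Tow S) (E : Type) [AddCommGroup E]
    [Module (ZMod 2) E] (rho : Representation (ZMod 2) G E), Dis T rho →
    Finite (fix rho (⊤ : Subgroup G)) →
    ∃ (c : ℕ) (ι : E →ₗ[ZMod 2] Cg T c), Function.Injective ι ∧
      ∀ (g : G) (e : E), ι (rho g e) = Cr T c g (ι e)

/-! ## Modules over the power series ring -/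

/-- Commuting locally nilpotent endomorphisms give a module over the power series ring. -/
def Stmt_PSA : Prop :=
  ∀ (n : ℕ) (E : Type) [AddCommGroup E] [Module (ZMod 2) E]
    (t : Fin n → Module.End (ZMod 2) E), (∀ i j, t i * t j = t j * t i) →
    (∀ e : E, ∃ m : ℕ, ∀ i, (t i ^ m) e = 0) →
    ∃ _ : Module (Lam n) E, ∀ (i : Fin n) (e : E), (MvPowerSeries.X i : Lam n) • e = t i e

/-- A smooth module is a module over the power series ring. -/
def Stmt_PSX : Prop :=
  ∀ (G : Type) [Group G] (S : Sys G) (T : Tow S) (E : Type) [AddCommGroup E]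
    [Module (ZMod 2) E] (rho : Representation (ZMod 2) G E), Dis T rho →
    ∃ _ : Module (Lam (T.n + 1)) E, PS T rho

/-- Fixed vectors and torsion. -/
def Stmt_TOA : Prop :=
  ∀ (G : Type) [Group G] (S : Sys G) (T : Tow S) (E : Type) [AddCommGroup E]
    [Module (ZMod 2) E] [Module (Lam (T.n + 1)) E] (rho : Representation (ZMod 2) G E),
    PS T rho → XT (T.n + 1) E ∧
      ∀ (j : ℕ) (e : E), e ∈ fix rho (T.A j) ↔ e ∈ tr (T.n + 1) (2 ^ j) E

/-- Additive maps which commute with the variables are linear. -/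
def Stmt_LIN : Prop :=
  ∀ (n : ℕ) (E E' : Type) [AddCommGroup E] [AddCommGroup E'] [Module (Lam n) E]
    [Module (Lam n) E'], XT n E → ∀ φ : E →+ E',
    (∀ (i : Fin n) (e : E),
      φ ((MvPowerSeries.X i : Lam n) • e) = (MvPowerSeries.X i : Lam n) • φ e) →
    ∀ (f : Lam n) (e : E), φ (f • e) = f • φ e

/-- The ideal `(X_i ^ q)`. -/
def Stmt_LCA : Prop :=
  ∀ n q : ℕ, 0 < q →
    (∀ f : Lam n, f ∈ pw n q ↔
      ∀ m : Fin n →₀ ℕ, (∀ i, m i < q) → MvPowerSeries.coeff m f = 0) ∧
    Nat.card (Lam n ⧸ pw n q) = 2 ^ (q ^ n)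

/-- Duality between torsion and cotorsion. -/
def Stmt_DUA : Prop :=
  ∀ (R E : Type) [CommRing R] [AddCommGroup E] [Module R E] (s : Set R), s.Finite →
    (∀ x : E, x + x = 0) →
    (Finite (Submodule.torsionBySet R E s) ↔
      Finite (CharacterModule E ⧸ (Ideal.span s • (⊤ : Submodule R (CharacterModule E))))) ∧
    Nat.card (Submodule.torsionBySet R E s) =
      Nat.card (CharacterModule E ⧸ (Ideal.span s • (⊤ : Submodule R (CharacterModule E))))

/-- The dual is generated by `dim E[X]` elements. -/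
def Stmt_FGN : Prop :=
  ∀ (n b : ℕ) (E : Type) [AddCommGroup E] [Module (Lam n) E], XT n E →
    Nat.card (tr n 1 E) = 2 ^ b →
    ∃ y : Fin b → CharacterModule E, Submodule.span (Lam n) (Set.range y) = ⊤

/-- Large torsion: the dual is free. -/
def Stmt_REG : Prop :=
  ∀ (n r : ℕ) (E : Type) [AddCommGroup E] [Module (Lam n) E], XT n E →
    (∀ j : ℕ, Nat.card (tr n (2 ^ j) E) = 2 ^ (r * 2 ^ (j * n))) →
    Module.Free (Lam n) (CharacterModule E) ∧ Module.Finite (Lam n) (CharacterModule E) ∧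
      finrank (Lam n) (CharacterModule E) = r

/-- The torsion if the dual is free. -/
def Stmt_RGC : Prop :=
  ∀ (n : ℕ) (E : Type) [AddCommGroup E] [Module (Lam n) E],
    Module.Free (Lam n) (CharacterModule E) → Module.Finite (Lam n) (CharacterModule E) →
    ∀ q : ℕ, 0 < q →
      Nat.card (tr n q E) = 2 ^ (finrank (Lam n) (CharacterModule E) * q ^ n)

/-- Fixed vectors of all subgroups between `A j` and `U0` if the dual is free. -/
def Stmt_RGW : Prop :=
  ∀ (G : Type) [Group G] (S : Sys G) (T : Tow S) (E : Type) [AddCommGroup E]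
    [Module (ZMod 2) E] [Module (Lam (T.n + 1)) E] (rho : Representation (ZMod 2) G E),
    PS T rho → Module.Free (Lam (T.n + 1)) (CharacterModule E) →
    Module.Finite (Lam (T.n + 1)) (CharacterModule E) →
    ∀ W : Subgroup G, T.big W → W ≤ T.U0 → Finite (fix rho W) ∧
      bb rho W = finrank (Lam (T.n + 1)) (CharacterModule E) * W.relIndex T.U0

/-- Divisibility if the dual is free. -/
def Stmt_BAS : Prop :=
  ∀ (G : Type) [Group G] (S : Sys G), S.cyc = 1 → ∀ (T : Tow S) (E : Type) [AddCommGroup E]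
    [Module (ZMod 2) E] [Module (Lam (T.n + 1)) E] (rho : Representation (ZMod 2) G E),
    PS T rho → Module.Free (Lam (T.n + 1)) (CharacterModule E) →
    Module.Finite (Lam (T.n + 1)) (CharacterModule E) →
    T.U0.index ∣ finrank (Lam (T.n + 1)) (CharacterModule E)

/-- The dual of a coinduced module is free. -/
def Stmt_CGF : Prop :=
  ∀ (G : Type) [Group G] (S : Sys G) (T : Tow S) (c : ℕ)
    [Module (Lam (T.n + 1)) (Cg T c)], PS T (Cr T c) →
    Module.Free (Lam (T.n + 1)) (CharacterModule (Cg T c)) ∧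
    Module.Finite (Lam (T.n + 1)) (CharacterModule (Cg T c)) ∧
    finrank (Lam (T.n + 1)) (CharacterModule (Cg T c)) = c * T.U0.index

/-- Syzygies gain one regular element. -/
def Stmt_SYA : Prop :=
  ∀ (R M1 F M : Type) [CommRing R] [AddCommGroup M1] [AddCommGroup F] [AddCommGroup M]
    [Module R M1] [Module R F] [Module R M] (α : M1 →ₗ[R] F) (β : F →ₗ[R] M) (rs : List R)
    (y : R), Function.Injective α → Function.Exact α β → Function.Surjective β →
    RingTheory.Sequence.IsWeaklyRegular M rs →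
    RingTheory.Sequence.IsWeaklyRegular F (rs ++ [y]) →
    RingTheory.Sequence.IsWeaklyRegular M1 (rs ++ [y])

/-- The variables form a regular sequence. -/
def Stmt_FRW : Prop :=
  ∀ (n k : ℕ) (F : Type) [AddCommGroup F] [Module (Lam n) F], k ≤ n →
    Module.Free (Lam n) F → RingTheory.Sequence.IsWeaklyRegular F (xs n k)

/-- If all the variables form a regular sequence on `M`, then `M` is free. -/
def Stmt_SYB : Prop :=
  ∀ (n : ℕ) (M : Type) [AddCommGroup M] [Module (Lam n) M], Module.Finite (Lam n) M →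
    RingTheory.Sequence.IsWeaklyRegular M (xs n n) → Module.Free (Lam n) M

/-- Additivity of the rank. -/
def Stmt_RKA : Prop :=
  ∀ (R M1 F M : Type) [CommRing R] [IsDomain R] [IsNoetherianRing R] [AddCommGroup M1]
    [AddCommGroup F] [AddCommGroup M] [Module R M1] [Module R F] [Module R M]
    (α : M1 →ₗ[R] F) (β : F →ₗ[R] M), Function.Injective α → Function.Exact α β →
    Function.Surjective β → Module.Finite R F →
    finrank R F = finrank R M1 + finrank R M

/-- The syzygy step. -/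
def Stmt_STP : Prop :=
  ∀ (G : Type) [Group G] (S : Sys G) (T : Tow S) (E : Type) [AddCommGroup E]
    [Module (ZMod 2) E] [Module (Lam (T.n + 1)) E] (rho : Representation (ZMod 2) G E),
    PS T rho → Finite (fix rho T.U0) →
    ∃ (E1 : Type) (_ : AddCommGroup E1) (_ : Module (ZMod 2) E1)
      (_ : Module (Lam (T.n + 1)) E1) (rho1 : Representation (ZMod 2) G E1),
      PS T rho1 ∧ Finite (fix rho1 T.U0) ∧
      ∃ (F : Type) (_ : AddCommGroup F) (_ : Module (Lam (T.n + 1)) F)
        (α : CharacterModule E1 →ₗ[Lam (T.n + 1)] F)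
        (β : F →ₗ[Lam (T.n + 1)] CharacterModule E),
        Module.Free (Lam (T.n + 1)) F ∧ Module.Finite (Lam (T.n + 1)) F ∧
        T.U0.index ∣ finrank (Lam (T.n + 1)) F ∧
        Function.Injective α ∧ Function.Exact α β ∧ Function.Surjective β

/-- **Integrality**: the rank of the dual is divisible by `[G : U0]`. -/
def Stmt_DIV : Prop :=
  ∀ (G : Type) [Group G] (S : Sys G), S.cyc = 1 → ∀ (T : Tow S) (E : Type) [AddCommGroup E]
    [Module (ZMod 2) E] [Module (Lam (T.n + 1)) E] (rho : Representation (ZMod 2) G E),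
    PS T rho → Finite (fix rho T.U0) →
    T.U0.index ∣ finrank (Lam (T.n + 1)) (CharacterModule E)

end Pool.Agent.ETF
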