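import Pool.Agent.ETF.Gup
import Pool.Agent.ETF.Stmts

set_option autoImplicit false

namespace Pool.Agent.ETF

open Module Pool.Agent.ETT

theorem END_finrank_le {R M : Type} [CommRing R] [IsDomain R] [AddCommGroup M] [Module R M]
    {b : ℕ} (y : Fin b → M) (hy : Submodule.span R (Set.range y) = ⊤) : finrank R M ≤ b := by
  have hs : Function.Surjective (Fintype.linearCombination R y) := by
    rw [← LinearMap.range_eq_top, Fintype.range_linearCombination, hy]
  have h1 := LinearMap.rank_le_of_surjective _ hs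
  rw [rank_fin_fun] at h1
  exact finrank_le_of_rank_le h1

theorem END_two_not_dvd_one : ¬ (2 : ℤ_[2]) ∣ 1 := by
  intro h
  have h1 := isUnit_of_dvd_one h
  have h2 := PadicInt.p_nonunit (p := 2)
  exact h2 (by exact_mod_cast h1)

theorem END_index {G : Type} [Group G] {S : Sys G} (T : Tow S) (e : Fin (T.n + 1) → ℕ)
    (he : e 0 = 0) (j : ℕ) (W : Subgroup G) (hW : (W : Set G) = lev T.U0 (gch T e) j)
    (hf : W.index ≠ 0) : T.U0.index * 2 ^ j ≤ W.index := by
  have hWm : ∀ g, g ∈ W ↔ g ∈ T.U0 ∧ (2 : ℤ_[2]) ^ j ∣ gch T e g := by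
    intro g
    rw [← SetLike.mem_coe, hW]
    exact Iff.rfl
  have hle : W ≤ T.U0 := fun g hg => ((hWm g).1 hg).1
  have h1 := Subgroup.relIndex_mul_index hle
  have h2 : W.relIndex T.U0 ≠ 0 := fun h => by
    rw [h, zero_mul] at h1
    exact hf h1.symm
  have hfi : (W.subgroupOf T.U0).FiniteIndex := ⟨h2⟩
  have hQ : Finite (T.U0 ⧸ W.subgroupOf T.U0) := inferInstance
  let F : Fin (2 ^ j) → T.U0 ⧸ W.subgroupOf T.U0 := fun k =>
    QuotientGroup.mk ⟨T.a 0 ^ (k : ℕ), T.U0.pow_mem (T.a_mem 0) _⟩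
  have key : ∀ k l : ℕ, k ≤ l → l < 2 ^ j → (2 : ℤ_[2]) ^ j ∣ (l : ℤ_[2]) - k → k = l := by
    intro k l hkl hl hd
    have h3 : ((2 : ℕ) : ℤ_[2]) ^ j ∣ (((l : ℤ) - (k : ℤ) : ℤ) : ℤ_[2]) := by
      push_cast
      exact hd
    rw [PadicInt.pow_p_dvd_int_iff] at h3
    have h4 : (2 ^ j : ℕ) ∣ l - k := by
      have h5 : ((2 ^ j : ℕ) : ℤ) ∣ ((l - k : ℕ) : ℤ) := by
        rw [Nat.cast_sub hkl]
        exact_mod_cast h3
      exact Int.natCast_dvd_natCast.1 h5
    have h5 := Nat.eq_zero_of_dvd_of_lt h4 (by omega)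
    omega
  have hch : ∀ k l : ℕ, gch T e ((T.a 0 ^ k)⁻¹ * T.a 0 ^ l) = (l : ℤ_[2]) - k := by
    intro k l
    have hk := T.U0.pow_mem (T.a_mem 0) k
    have hl := T.U0.pow_mem (T.a_mem 0) l
    rw [gch_mul T e _ _ (T.U0.inv_mem hk) hl, gch_inv T e _ hk, gch_pow T e _ (T.a_mem 0),
      gch_pow T e _ (T.a_mem 0), gch_a, he]
    ring
  have hF : Function.Injective F := by
    intro k l hkl
    have h3 := QuotientGroup.eq.1 hkl
    rw [Subgroup.mem_subgroupOf] at h3
    have h4 : (T.a 0 ^ (k : ℕ))⁻¹ * T.a 0 ^ (l : ℕ) ∈ W := h3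
    rw [hWm, hch] at h4
    apply Fin.ext
    rcases Nat.le_total (k : ℕ) l with h | h
    · exact key _ _ h l.2 h4.2
    · have h5 : (2 : ℤ_[2]) ^ j ∣ ((k : ℕ) : ℤ_[2]) - ((l : ℕ) : ℤ_[2]) := by
        have := (dvd_neg).2 h4.2
        rwa [neg_sub] at this
      exact (key _ _ h k.2 h5).symm
  have h3 := Nat.card_le_card_of_injective F hF
  rw [Nat.card_fin] at h3
  have h4 : 2 ^ j ≤ W.relIndex T.U0 := h3
  rw [← h1, mul_comm]
  exact Nat.mul_le_mul_right _ h4

theorem iwa_proof (hNEE : Stmt_NEE) (hGTA : Stmt_GTA) (hGTB : Stmt_GTB) (hTWF : Stmt_TWF)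
    (hCHO : Stmt_CHO) (hSUP : Stmt_SUP) (hPSX : Stmt_PSX) (hTOA : Stmt_TOA) (hDUA : Stmt_DUA)
    (hFGN : Stmt_FGN) (hDIV : Stmt_DIV) : Stmt_IWA := by
  intro G R _ _ _ S rho hcyc hadm hne
  obtain ⟨B, hB, U0, hU0, hn0, hlt⟩ := hCHO G S R rho hadm
  obtain ⟨P⟩ := hGTA G S hcyc U0 hU0 (hNEE G S hcyc hne U0 hU0)
  obtain ⟨T, hT⟩ := hGTB G S U0 hU0 hn0 P
  subst hT
  obtain ⟨E, _, _, sig, hdis, hfix⟩ := hSUP G S T R rho
  obtain ⟨_, hPS⟩ := hPSX G S T E sig hdis
  have hA0 : T.A 0 = T.U0 := (hTWF G S T).1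
  have hbig0 : T.big T.U0 := ⟨0, hA0.le⟩
  have hfinW : ∀ W ∈ S.adm, T.big W → Finite (fix sig W) ∧ bb rho W = bb sig W := by
    intro W hW hb
    obtain ⟨φ⟩ := hfix W hb
    have h1 := hadm.fin W hW
    have h2 : Finite (fix rho W) := Module.finite_of_finite (ZMod 2)
    exact ⟨Finite.of_equiv _ φ.toEquiv, φ.finrank_eq⟩
  have hcardW : ∀ W ∈ S.adm, T.big W → Nat.card (fix sig W) = 2 ^ bb rho W := by
    intro W hW hb
    obtain ⟨h1, h2⟩ := hfinW W hW hb
    have h3 : Module.Finite (ZMod 2) (fix sig W) := Module.Finite.of_finite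
    have h4 := Module.natCard_eq_pow_finrank (K := ZMod 2) (V := fix sig W)
    rw [Nat.card_zmod] at h4
    rw [h2]
    exact h4
  have hfin0 := (hfinW T.U0 hU0 hbig0).1
  have hdiv := hDIV G S hcyc T E sig hPS hfin0
  set s := finrank (Lam (T.n + 1)) (CharacterModule E) with hs
  have htoa := hTOA G S T E sig hPS
  have hb0 : Nat.card (tr (T.n + 1) 1 E) = 2 ^ bb rho T.U0 := by
    rw [← hcardW T.U0 hU0 hbig0]
    apply Nat.card_congr
    apply Equiv.subtypeEquivRight
    intro x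
    have := htoa.2 0 x
    rw [hA0, pow_zero] at this
    exact this.symm
  obtain ⟨y, hy⟩ := hFGN (T.n + 1) _ E htoa.1 hb0
  have hsb : s ≤ bb rho T.U0 := END_finrank_le y hy
  have hMfin : Module.Finite (Lam (T.n + 1)) (CharacterModule E) :=
    ⟨by rw [← hy]; exact Submodule.fg_span (Set.finite_range y)⟩
  have hsB : s ≤ B * T.U0.index := by
    obtain ⟨s', hs'⟩ := hdiv
    have h1 : T.U0.index * s' < (B + 1) * T.U0.index := by
      rw [← hs']
      exact lt_of_le_of_lt hsb hlt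
    have h2 : s' < B + 1 := by
      by_contra h
      push Not at h
      have := Nat.mul_le_mul_left T.U0.index h
      rw [mul_comm T.U0.index (B + 1)] at this
      omega
    rw [hs', mul_comm]
    exact Nat.mul_le_mul_right _ (by omega)
  obtain ⟨e, c, he0, hgam⟩ := gam T.n (M := CharacterModule E)
  refine ⟨B, hB, T.U0, hU0, gch T e, ?_, ⟨T.a 0, T.a_mem 0, ?_⟩, c, ?_⟩
  · intro g hg h hh
    rw [gch_mul T e g h hg hh, hcyc]
    simp
  · rw [gch_a, he0, pow_zero]
    exact END_two_not_dvd_one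
  · intro j
    let W : Subgroup G :=
      { carrier := lev T.U0 (gch T e) j
        one_mem' := ⟨T.U0.one_mem, by
          have h1 := gch_mul T e 1 1 T.U0.one_mem T.U0.one_mem
          rw [one_mul] at h1
          have h2 : gch T e 1 = 0 := by simpa using h1
          rw [h2]
          exact dvd_zero _⟩
        mul_mem' := by
          rintro a b ⟨ha, ha'⟩ ⟨hb, hb'⟩
          exact ⟨T.U0.mul_mem ha hb, by rw [gch_mul T e a b ha hb]; exact dvd_add ha' hb'⟩
        inv_mem' := by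
          rintro a ⟨ha, ha'⟩
          exact ⟨T.U0.inv_mem ha, by rw [gch_inv T e a ha]; exact (dvd_neg).2 ha'⟩ }
    have hWc : (W : Set G) = lev T.U0 (gch T e) j := rfl
    have hAW : T.A j ≤ W := by
      intro u hu
      rw [T.mem_A] at hu
      refine ⟨hu.1, ?_⟩
      unfold gch
      apply Finset.dvd_sum
      intro i _
      exact Dvd.dvd.mul_left (hu.2 i) _
    have hWadm : W ∈ S.adm := S.up_mem _ (T.A_adm j) W hAW
    have hbig : T.big W := ⟨j, hAW⟩
    refine ⟨W, hWadm, hWc, ?_⟩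
    have h1 := hcardW W hWadm hbig
    have h2 : Nat.card (fix sig W) =
        Nat.card (Submodule.torsionBySet (Lam (T.n + 1)) E (kG T.n e (2 ^ j))) := by
      apply Nat.card_congr
      apply Equiv.subtypeEquivRight
      intro x
      exact gup T hPS e he0 j W hWc x
    have h3 := (hDUA (Lam (T.n + 1)) E (kG T.n e (2 ^ j)) (kG_finite _ _ _)
      (fun x => zmod2_add_self x)).2
    have h4 := (hgam (2 ^ j)).2
    have h5 : 2 ^ bb rho W ≤ 2 ^ (s * 2 ^ j + c) := by
      rw [← h1, h2, h3]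
      exact h4
    have h6 : bb rho W ≤ s * 2 ^ j + c := (Nat.pow_le_pow_iff_right (by norm_num)).1 h5
    have hidx : W.index ≠ 0 := by
      obtain ⟨N, hN, hNW, hNn, k, hk⟩ := S.core W hWadm
      intro h0
      have h7 := Subgroup.index_dvd_of_le hNW
      rw [h0, hk] at h7
      have h8 := Nat.eq_zero_of_zero_dvd h7
      exact absurd h8 (by positivity)
    have h7 := END_index T e he0 j W hWc hidx
    calc bb rho W ≤ s * 2 ^ j + c := h6
      _ ≤ B * T.U0.index * 2 ^ j + c :=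
        Nat.add_le_add_right (Nat.mul_le_mul_right _ hsB) _
      _ = B * (T.U0.index * 2 ^ j) + c := by rw [mul_assoc]
      _ ≤ B * W.index + c := Nat.add_le_add_right (Nat.mul_le_mul_left _ h7) _

end Pool.Agent.ETF
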