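import Pool.Agent.ETF.Stmts

set_option autoImplicit false

namespace Pool.Agent.ETF

open Module Pool.Agent.ETT

namespace FGN_

/-- the point of order two of the circle -/
def hf : AddCircle (1 : ℚ) := ((1 / 2 : ℚ) : AddCircle (1 : ℚ))

theorem hf_two : hf + hf = 0 := by
  unfold hf
  rw [← AddCircle.coe_add]
  norm_num

theorem hf_ne : hf ≠ 0 := by
  unfold hf
  intro h
  rw [AddCircle.coe_eq_zero_iff] at h
  obtain ⟨n, hn⟩ := h
  have h2 : (n : ℚ) = 1 / 2 := by
    rw [← hn]
    simp
  have h3 : ((2 * n : ℤ) : ℚ) = ((1 : ℤ) : ℚ) := by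
    push_cast
    rw [h2]
    norm_num
  have h4 : (2 * n : ℤ) = 1 := by exact_mod_cast h3
  omega

theorem two_tors (t : AddCircle (1 : ℚ)) (ht : t + t = 0) : t = 0 ∨ t = hf := by
  induction t using QuotientAddGroup.induction_on with
  | H q =>
    change ((q : ℚ) : AddCircle (1 : ℚ)) + ((q : ℚ) : AddCircle (1 : ℚ)) = 0 at ht
    rw [← AddCircle.coe_add, AddCircle.coe_eq_zero_iff] at ht
    obtain ⟨n, hn⟩ := ht
    have h1 : q = (n : ℚ) / 2 := by
      have : (n : ℚ) = q + q := by
        rw [← hn]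
        simp
      rw [this]
      ring
    rcases Int.even_or_odd n with ⟨k, hk⟩ | ⟨k, hk⟩
    · left
      change ((q : ℚ) : AddCircle (1 : ℚ)) = 0
      rw [AddCircle.coe_eq_zero_iff]
      refine ⟨k, ?_⟩
      rw [h1, hk]
      push_cast
      simp
    · right
      change ((q : ℚ) : AddCircle (1 : ℚ)) = ((1 / 2 : ℚ) : AddCircle (1 : ℚ))
      have h2 : q - 1 / 2 = (k : ℚ) := by
        rw [h1, hk]
        push_cast
        ring
      have h3 : ((q - 1 / 2 : ℚ) : AddCircle (1 : ℚ)) = 0 := by
        rw [AddCircle.coe_eq_zero_iff]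
        exact ⟨k, by rw [h2]; simp⟩
      rw [AddCircle.coe_sub, sub_eq_zero] at h3
      exact h3

/-- The embedding of `Z/2` in the circle. -/
noncomputable def hz (x : ZMod 2) : AddCircle (1 : ℚ) := if x = 0 then 0 else hf

theorem hz_add (x y : ZMod 2) : hz (x + y) = hz x + hz y := by
  have h01 : ∀ z : ZMod 2, z = 0 ∨ z = 1 := by decide
  have h1 : (1 : ZMod 2) ≠ 0 := by decide
  have h2 : (1 : ZMod 2) + 1 = 0 := by decide
  rcases h01 x with rfl | rfl <;> rcases h01 y with rfl | rfl <;> simp [hz, h2, hf_two]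

theorem hz_inj (x y : ZMod 2) (h : hz x = hz y) : x = y := by
  have h01 : ∀ z : ZMod 2, z = 0 ∨ z = 1 := by decide
  have h1 : (1 : ZMod 2) ≠ 0 := by decide
  have hne := hf_ne
  rcases h01 x with rfl | rfl <;> rcases h01 y with rfl | rfl
  · rfl
  · simp [hz] at h
    exact absurd h.symm hne
  · simp [hz] at h
    exact absurd h hne
  · rfl

noncomputable def hzh : ZMod 2 →+ AddCircle (1 : ℚ) where
  toFun := hz
  map_zero' := by simp [hz]
  map_add' := hz_add

theorem exists_lift {E : Type} [AddCommGroup E] [Module (ZMod 2) E] (c : CharacterModule E) :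
    ∃ c' : E →ₗ[ZMod 2] ZMod 2, ∀ e, c e = hz (c' e) := by
  have hE : ∀ e : E, e + e = 0 := by
    intro e
    rw [← two_smul (ZMod 2) e]
    have : (2 : ZMod 2) = 0 := by decide
    rw [this, zero_smul]
  have hc : ∀ e : E, c e = 0 ∨ c e = hf := by
    intro e
    apply two_tors
    rw [← map_add, hE, map_zero]
  classical
  let g : E → ZMod 2 := fun e => if c e = 0 then 0 else 1
  have hg : ∀ e, c e = hz (g e) := by
    intro e
    rcases hc e with h | h
    · simp [g, h, hz]
    · have := hf_ne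
      simp [g, h, hz, this]
  let g' : E →+ ZMod 2 := AddMonoidHom.mk' g (by
    intro a b
    apply hz_inj
    rw [← hg, hz_add, ← hg, ← hg, map_add])
  exact ⟨g'.toZModLinearMap 2, hg⟩

/-- the constant exponent -/
noncomputable def cst (n N : ℕ) : Fin n →₀ ℕ := Finsupp.equivFunOnFinite.symm fun _ => N

theorem le_cst {n N : ℕ} (m : Fin n →₀ ℕ) : m ≤ cst n N ↔ ∀ i, m i ≤ N := by
  rw [Finsupp.le_def]
  rfl

noncomputable abbrev mo {n : ℕ} (m : Fin n →₀ ℕ) : Lam n := MvPowerSeries.monomial m (1 : ZMod 2)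

theorem mo_kill {n N : ℕ} {E : Type} [AddCommGroup E] [Module (Lam n) E] (e : E)
    (he : ∀ i : Fin n, ((MvPowerSeries.X i : Lam n) ^ N) • e = 0) (m : Fin n →₀ ℕ)
    (hm : ¬ m ≤ cst n N) : mo m • e = 0 := by
  rw [le_cst] at hm
  push Not at hm
  obtain ⟨i, hi⟩ := hm
  have h1 : mo m = mo (m - Finsupp.single i N) * (MvPowerSeries.X i : Lam n) ^ N := by
    rw [MvPowerSeries.X_pow_eq]
    unfold mo
    rw [MvPowerSeries.monomial_mul_monomial, one_mul]
    congr 2
    ext j
    rw [Finsupp.add_apply, Finsupp.tsub_apply]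
    by_cases hij : i = j
    · subst hij
      rw [Finsupp.single_eq_same]
      omega
    · rw [Finsupp.single_eq_of_ne (Ne.symm hij)]
      simp
  rw [h1, mul_smul, he i, smul_zero]

theorem pw_kill {n N : ℕ} {E : Type} [AddCommGroup E] [Module (Lam n) E] (e : E)
    (he : ∀ i : Fin n, ((MvPowerSeries.X i : Lam n) ^ N) • e = 0) (f : Lam n)
    (hf : f ∈ pw n (N + 1)) : f • e = 0 := by
  unfold pw at hf
  induction hf using Submodule.span_induction with
  | mem x hx =>
    obtain ⟨i, rfl⟩ := hx
    simp only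
    rw [pow_succ', mul_smul, he i, smul_zero]
  | zero => rw [zero_smul]
  | add x y _ _ hx hy => rw [add_smul, hx, hy, add_zero]
  | smul a x _ hx => rw [smul_eq_mul, mul_smul, hx, smul_zero]

theorem smul_eq_sum (hLCA : Stmt_LCA) {n N : ℕ} {E : Type} [AddCommGroup E] [Module (Lam n) E]
    (e : E) (he : ∀ i : Fin n, ((MvPowerSeries.X i : Lam n) ^ N) • e = 0) (f : Lam n) :
    f • e = ∑ m ∈ Finset.Iic (cst n N),
      (MvPowerSeries.monomial m (MvPowerSeries.coeff m f) : Lam n) • e := by
  rw [← Finset.sum_smul, ← sub_eq_zero, ← sub_smul]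
  apply pw_kill e he
  rw [(hLCA n (N + 1) (Nat.succ_pos N)).1]
  intro m hm
  have hm' : m ∈ Finset.Iic (cst n N) := by
    rw [Finset.mem_Iic, le_cst]
    intro i
    have := hm i
    omega
  rw [map_sub, map_sum, Finset.sum_eq_single m]
  · rw [MvPowerSeries.coeff_monomial_same, sub_self]
  · intro b _ hb
    rw [MvPowerSeries.coeff_monomial_ne (Ne.symm hb)]
  · intro h
    exact absurd hm' h

/-- delta functions -/
def dl {n b : ℕ} (i : Fin b) (m : Fin n →₀ ℕ) : Fin b → (Fin n →₀ ℕ) → ZMod 2 :=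
  fun i' m' => if i' = i ∧ m' = m then 1 else 0

theorem sum_dl {n b : ℕ} (s : Finset (Fin n →₀ ℕ)) (a : Fin b → (Fin n →₀ ℕ) → ZMod 2)
    (i : Fin b) (m : Fin n →₀ ℕ) :
    (∑ i', ∑ m' ∈ s, a i' m' • dl i' m') i m = if m ∈ s then a i m else 0 := by
  rw [Finset.sum_apply, Finset.sum_apply, Finset.sum_eq_single i]
  · rw [Finset.sum_apply, Finset.sum_apply]
    split_ifs with hm
    · rw [Finset.sum_eq_single m]
      · rw [Pi.smul_apply, Pi.smul_apply]
        unfold dl
        rw [if_pos ⟨rfl, rfl⟩, smul_eq_mul, mul_one]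
      · intro m' _ hm'
        rw [Pi.smul_apply, Pi.smul_apply]
        unfold dl
        rw [if_neg (fun h => hm' h.2.symm), smul_zero]
      · intro h
        exact absurd hm h
    · apply Finset.sum_eq_zero
      intro m' hm'
      rw [Pi.smul_apply, Pi.smul_apply]
      unfold dl
      rw [if_neg (fun h => hm (by rw [h.2]; exact hm')), smul_zero]
  · intro i' _ hi'
    rw [Finset.sum_apply, Finset.sum_apply]
    apply Finset.sum_eq_zero
    intro m' _
    rw [Pi.smul_apply, Pi.smul_apply]
    unfold dl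
    rw [if_neg (fun h => hi' h.1.symm), smul_zero]
  · intro h
    exact absurd (Finset.mem_univ i) h

end FGN_

open FGN_

theorem fgn_proof (hLCA : Stmt_LCA) : Stmt_FGN := by
  intro n b E _ _ hXT hcard
  letI : Module (ZMod 2) E := Module.compHom E (algebraMap (ZMod 2) (Lam n))
  haveI : IsScalarTower (ZMod 2) (Lam n) E := IsScalarTower.of_algebraMap_smul (fun _ _ => rfl)
  haveI : SMulCommClass (ZMod 2) (Lam n) E := ⟨fun r f e => by
    rw [← algebraMap_smul (Lam n) r (f • e), ← algebraMap_smul (Lam n) r e, smul_smul,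
      smul_smul, mul_comm]⟩
  let K : Submodule (ZMod 2) E := (tr n 1 E).restrictScalars (ZMod 2)
  have hK : Nat.card K = 2 ^ b := hcard
  haveI : Finite K := Nat.finite_of_card_ne_zero (by rw [hK]; positivity)
  haveI : Module.Finite (ZMod 2) K := Module.Finite.of_finite
  have hrank : finrank (ZMod 2) K = b := by
    have h2 := Module.natCard_eq_pow_finrank (K := ZMod 2) (V := K)
    rw [hK, Nat.card_zmod] at h2
    exact (Nat.pow_right_injective (le_refl 2) h2).symm
  let eqv : K ≃ₗ[ZMod 2] (Fin b → ZMod 2) :=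
    LinearEquiv.ofFinrankEq K (Fin b → ZMod 2) (by rw [hrank, Module.finrank_fin_fun])
  obtain ⟨y, hy⟩ := LinearMap.exists_extend (eqv : K →ₗ[ZMod 2] (Fin b → ZMod 2))
  have hyK : ∀ x : E, x ∈ tr n 1 E → y x = 0 → x = 0 := by
    intro x hx h0
    have h1 : y x = eqv ⟨x, hx⟩ := by
      have := LinearMap.congr_fun hy ⟨x, hx⟩
      exact this
    rw [h0] at h1
    have h2 : (⟨x, hx⟩ : K) = 0 := (LinearEquiv.map_eq_zero_iff eqv).mp h1.symm
    exact congrArg Subtype.val h2
  let F : E →ₗ[ZMod 2] (Fin b → (Fin n →₀ ℕ) → ZMod 2) :=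
    { toFun := fun e i m => y (mo m • e) i
      map_add' := by
        intro e e'
        funext i m
        show y (mo m • (e + e')) i = y (mo m • e) i + y (mo m • e') i
        rw [smul_add, map_add, Pi.add_apply]
      map_smul' := by
        intro r e
        funext i m
        show y (mo m • (r • e)) i = r • y (mo m • e) i
        rw [← smul_comm, map_smul, Pi.smul_apply] }
  have hFinj : Function.Injective F := by
    rw [← LinearMap.ker_eq_bot, LinearMap.ker_eq_bot']
    intro e he
    by_contra hne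
    obtain ⟨N, hN⟩ := hXT e
    have hfinS : ({m : Fin n →₀ ℕ | mo m • e ≠ 0}).Finite := by
      refine (Finset.finite_toSet (Finset.Iic (cst n N))).subset ?_
      intro m hm
      by_contra h
      apply hm
      apply mo_kill e hN m
      intro h'
      exact h (by rw [Finset.mem_coe, Finset.mem_Iic]; exact h')
    have hneS : ({m : Fin n →₀ ℕ | mo m • e ≠ 0}).Nonempty := by
      refine ⟨0, ?_⟩
      show mo (0 : Fin n →₀ ℕ) • e ≠ 0
      have : mo (0 : Fin n →₀ ℕ) = (1 : Lam n) := rfl
      rw [this, one_smul]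
      exact hne
    obtain ⟨m, hm⟩ := hfinS.exists_maximal hneS
    have hsoc : mo m • e ∈ tr n 1 E := by
      unfold tr
      rw [Submodule.mem_torsionBySet_iff]
      rintro ⟨_, i, rfl⟩
      show ((MvPowerSeries.X i : Lam n) ^ 1) • (mo m • e) = 0
      rw [pow_one, smul_smul]
      by_contra h
      have h1 : (MvPowerSeries.X i : Lam n) * mo m = mo (m + Finsupp.single i 1) := by
        rw [MvPowerSeries.X, MvPowerSeries.monomial_mul_monomial, one_mul, add_comm]
      rw [h1] at h
      have h2 := hm.2 h le_self_add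
      have h3 := Finsupp.le_def.mp h2 i
      rw [Finsupp.add_apply, Finsupp.single_eq_same] at h3
      omega
    have h0 : y (mo m • e) = 0 := by
      funext i
      exact congrFun (congrFun he i) m
    exact hm.1 (hyK _ hsoc h0)
  obtain ⟨Fi, hFi⟩ := F.exists_leftInverse_of_injective (LinearMap.ker_eq_bot.mpr hFinj)
  let yc : Fin b → CharacterModule E := fun i =>
    (hzh.comp ((LinearMap.proj i ∘ₗ y).toAddMonoidHom : E →+ ZMod 2) : E →+ AddCircle (1 : ℚ))
  refine ⟨yc, ?_⟩
  rw [eq_top_iff]
  intro c _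
  obtain ⟨c', hc'⟩ := exists_lift c
  let z : (Fin b → (Fin n →₀ ℕ) → ZMod 2) →ₗ[ZMod 2] ZMod 2 := c' ∘ₗ Fi
  have hz' : ∀ e, c' e = z (F e) := by
    intro e
    have := LinearMap.congr_fun hFi e
    simp only [LinearMap.comp_apply, LinearMap.id_apply] at this
    show c' e = c' (Fi (F e))
    rw [this]
  let f : Fin b → Lam n := fun i m => z (dl i m)
  have hfc : ∀ i m, MvPowerSeries.coeff m (f i) = z (dl i m) := fun i m => rfl
  have key : ∀ e, c' e = ∑ i, y (f i • e) i := by
    intro e
    obtain ⟨N, hN⟩ := hXT e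
    have h1 : F e = ∑ i, ∑ m ∈ Finset.Iic (cst n N), (y (mo m • e) i) • dl i m := by
      funext i m
      rw [sum_dl (Finset.Iic (cst n N)) (fun i m => y (mo m • e) i) i m]
      split_ifs with hm
      · rfl
      · show y (mo m • e) i = 0
        rw [mo_kill e hN m (by rw [Finset.mem_Iic] at hm; exact hm), map_zero]
        rfl
    rw [hz', h1, map_sum]
    refine Finset.sum_congr rfl fun i _ => ?_
    rw [map_sum, smul_eq_sum hLCA e hN (f i), map_sum, Finset.sum_apply]
    refine Finset.sum_congr rfl fun m _ => ?_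
    rw [LinearMap.map_smul z, smul_eq_mul, hfc]
    have h2 : (MvPowerSeries.monomial m (z (dl i m)) : Lam n) • e =
        (z (dl i m)) • (mo m • e) := by
      rw [← smul_assoc]
      congr 1
      rw [← map_smul, smul_eq_mul, mul_one]
    rw [h2, LinearMap.map_smul y, Pi.smul_apply, smul_eq_mul, mul_comm]
  have hcsum : c = ∑ i, f i • yc i := by
    apply CharacterModule.ext
    intro e
    have h1 : (∑ i, f i • yc i) e = ∑ i, (f i • yc i) e := by
      have : ∀ s : Finset (Fin b), (∑ i ∈ s, f i • yc i) e = ∑ i ∈ s, (f i • yc i) e := by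
        intro s
        induction s using Finset.induction_on with
        | empty => rfl
        | insert a s ha ih =>
          rw [Finset.sum_insert ha, Finset.sum_insert ha, ← ih]
          rfl
      exact this _
    rw [h1, hc', key]
    have h2 : hz (∑ i, y (f i • e) i) = ∑ i, hz (y (f i • e) i) := map_sum hzh _ _
    rw [h2]
    rfl
  rw [hcsum]
  exact Submodule.sum_mem _ fun i _ =>
    Submodule.smul_mem _ _ (Submodule.subset_span ⟨i, rfl⟩)

end Pool.Agent.ETF
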