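import Pool.Agent.ETF.Stmts

set_option autoImplicit false

namespace Pool.Agent.ETF

namespace FRW_

open MvPowerSeries

theorem mem_ofList {n : ℕ} (l : List (Fin n)) (g : Lam n) :
    g ∈ Ideal.ofList (l.map fun i => (MvPowerSeries.X i : Lam n)) ↔
      ∀ m : Fin n →₀ ℕ, (∀ i ∈ l, m i = 0) → coeff m g = 0 := by
  induction l generalizing g with
  | nil =>
    rw [List.map_nil, Ideal.ofList_nil, Ideal.mem_bot]
    constructor
    · rintro rfl m _
      rw [map_zero]
    · intro h
      ext m
      rw [h m (by simp), map_zero]
  | cons a l ih =>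
    rw [List.map_cons, Ideal.ofList_cons, Submodule.mem_sup]
    constructor
    · rintro ⟨y, hy, z, hz, rfl⟩ m hm
      rw [Ideal.mem_span_singleton, MvPowerSeries.X_dvd_iff] at hy
      rw [map_add, hy m (hm a List.mem_cons_self),
        (ih z).1 hz m (fun i hi => hm i (List.mem_cons_of_mem _ hi)), add_zero]
    · intro h
      let g2 : Lam n := fun m => if m a = 0 then coeff m g else 0
      have hg2 : ∀ m, coeff m g2 = if m a = 0 then coeff m g else 0 := fun m => rfl
      refine ⟨g - g2, ?_, g2, ?_, sub_add_cancel _ _⟩
      · rw [Ideal.mem_span_singleton, MvPowerSeries.X_dvd_iff]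
        intro m hm
        rw [map_sub, hg2, if_pos hm, sub_self]
      · rw [ih]
        intro m hm
        rw [hg2]
        split_ifs with h1
        · apply h
          intro i hi
          rcases List.mem_cons.1 hi with rfl | hi
          · exact h1
          · exact hm i hi
        · rfl

theorem mem_of_X_mul_mem {n : ℕ} (l : List (Fin n)) (i : Fin n) (hi : i ∉ l) (g : Lam n)
    (h : (MvPowerSeries.X i : Lam n) * g ∈ Ideal.ofList (l.map fun i => (MvPowerSeries.X i : Lam n))) :
    g ∈ Ideal.ofList (l.map fun i => (MvPowerSeries.X i : Lam n)) := by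
  rw [mem_ofList] at h ⊢
  intro m hm
  have h1 := h (Finsupp.single i 1 + m) (by
    intro j hj
    have hne : i ≠ j := fun h => hi (h ▸ hj)
    rw [Finsupp.add_apply, hm j hj, Finsupp.single_eq_of_ne (Ne.symm hne)])
  rw [MvPowerSeries.X, MvPowerSeries.coeff_add_monomial_mul, one_mul] at h1
  exact h1

theorem mem_smul_top {R F ι : Type} [CommRing R] [AddCommGroup F] [Module R F]
    (b : Module.Basis ι R F) (J : Ideal R) (x : F) :
    x ∈ (J • ⊤ : Submodule R F) ↔ ∀ j, b.repr x j ∈ J := by
  constructor
  · intro hx j
    refine Submodule.smul_induction_on hx ?_ ?_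
    · intro r hr y _
      rw [map_smul, Finsupp.smul_apply, smul_eq_mul]
      exact J.mul_mem_right _ hr
    · intro y z hy hz
      rw [map_add, Finsupp.add_apply]
      exact J.add_mem hy hz
  · intro h
    rw [← b.linearCombination_repr x, Finsupp.linearCombination_apply]
    exact Submodule.sum_mem _ fun j _ => Submodule.smul_mem_smul (h j) trivial

end FRW_

open FRW_ in
theorem frw_proof : Stmt_FRW := by
  intro n k F _ _ hk hF
  refine ⟨fun i hi => ?_⟩
  rw [isSMulRegular_quotient_iff_mem_of_smul_mem]
  intro x hx
  have hlen : i < ((List.finRange n).take k).length := by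
    have : (xs n k).length = ((List.finRange n).take k).length := by
      unfold xs; rw [List.length_map]
    rwa [← this]
  have e1 : (xs n k).take i =
      (((List.finRange n).take k).take i).map fun i => (MvPowerSeries.X i : Lam n) := by
    unfold xs; rw [List.map_take, List.map_take, List.map_take]
  have e2 : (xs n k)[i] = (MvPowerSeries.X (((List.finRange n).take k)[i]'hlen) : Lam n) := by
    unfold xs; rw [List.getElem_map]
  have hnot : ((List.finRange n).take k)[i]'hlen ∉ (((List.finRange n).take k).take i) := by
    intro h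
    rw [List.mem_take_iff_getElem] at h
    obtain ⟨j, hj, hj'⟩ := h
    have hnd : ((List.finRange n).take k).Nodup := (List.nodup_finRange n).sublist (List.take_sublist _ _)
    have := (List.Nodup.getElem_inj_iff hnd).1 hj'
    omega
  rw [e1] at hx ⊢
  rw [e2] at hx
  have b := Module.Free.chooseBasis (Lam n) F
  rw [mem_smul_top b] at hx ⊢
  intro j
  have h := hx j
  rw [map_smul, Finsupp.smul_apply, smul_eq_mul] at h
  exact mem_of_X_mul_mem _ _ hnot _ h

end Pool.Agent.ETF
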