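import Pool.Agent.ETF.Stmts

/-!
# ETF, module FXP: fixed points of 2-groups over `F_2`
-/

set_option autoImplicit false

namespace Pool.Agent.ETF

open Module Pool.Agent.ETT

theorem fxp_proof : Stmt_FXP := by
  intro G _ S E _ _ rho K hK N hN e heK he0 heN
  obtain ⟨N', hN', hle, hnorm, k, hk⟩ := S.core N hN
  have he' : ∀ n ∈ N', rho n e = e := fun n hn => heN n (hle hn)
  -- the orbit
  let O : Set E := Set.range fun g : G => rho g e
  have hfin : O.Finite := by
    have hidx : N'.index ≠ 0 := by rw [hk]; positivity
    have hfi : N'.FiniteIndex := ⟨hidx⟩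
    have : Finite (G ⧸ N') := Subgroup.finite_quotient_of_finiteIndex
    have hsub : O ⊆ Set.range (fun q : G ⧸ N' => rho q.out e) := by
      rintro _ ⟨g, rfl⟩
      refine ⟨(g : G ⧸ N'), ?_⟩
      obtain ⟨n, hn⟩ := QuotientGroup.mk_out_eq_mul N' g
      simp only
      rw [hn, map_mul, Module.End.mul_apply, he' n n.2]
    exact (Set.finite_range _).subset hsub
  let X : Submodule (ZMod 2) E := Submodule.span (ZMod 2) O
  have hXK : X ≤ K := by
    refine Submodule.span_le.2 ?_
    rintro _ ⟨g, rfl⟩
    exact hK g e heK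
  have heX : e ∈ X := Submodule.subset_span ⟨1, by simp⟩
  have hst : ∀ g : G, ∀ x ∈ X, rho g x ∈ X := by
    intro g x hx
    induction hx using Submodule.span_induction with
    | mem x hx =>
      obtain ⟨h, rfl⟩ := hx
      refine Submodule.subset_span ⟨g * h, ?_⟩
      simp [map_mul]
    | zero => simp
    | add x y _ _ hx hy => rw [map_add]; exact X.add_mem hx hy
    | smul a x _ hx => rw [map_smul]; exact X.smul_mem a hx
  have htriv : ∀ n ∈ N', ∀ x ∈ X, rho n x = x := by
    intro n hn x hx
    induction hx using Submodule.span_induction with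
    | mem x hx =>
      obtain ⟨h, rfl⟩ := hx
      have h1 : n * h = h * (h⁻¹ * n * h) := by group
      have h2 : h⁻¹ * n * h ∈ N' := by
        have := hnorm.conj_mem n hn h⁻¹
        simpa using this
      calc rho n (rho h e) = rho (n * h) e := by rw [map_mul, Module.End.mul_apply]
        _ = rho h (rho (h⁻¹ * n * h) e) := by rw [h1, map_mul, Module.End.mul_apply]
        _ = rho h e := by rw [he' _ h2]
    | zero => simp
    | add x y _ _ hx hy => rw [map_add, hx, hy]
    | smul a x _ hx => rw [map_smul, hx]
  have hXfd : FiniteDimensional (ZMod 2) X := FiniteDimensional.span_of_finite (ZMod 2) hfin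
  have hXfin : Finite X := Module.finite_of_finite (ZMod 2)
  -- the action
  let act : MulAction G X :=
    { smul := fun g x => ⟨rho g x, hst g x x.2⟩
      one_smul := fun x => Subtype.ext (by change rho 1 (x : E) = x; simp)
      mul_smul := fun g h x => Subtype.ext (by
        change rho (g * h) (x : E) = rho g (rho h x)
        rw [map_mul, Module.End.mul_apply]) }
  let phi : G →* Equiv.Perm X := MulAction.toPermHom G X
  have hphi : ∀ (g : G) (x : X), ((phi g x : X) : E) = rho g x := fun g x => rfl
  have hP : IsPGroup 2 phi.range := by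
    rintro ⟨_, g, rfl⟩
    refine ⟨k, ?_⟩
    have h1 : g ^ (2 ^ k) ∈ N' := by
      rw [← hk]
      exact Subgroup.pow_index_mem N' g
    apply Subtype.ext
    change (phi g) ^ (2 ^ k) = 1
    rw [← map_pow]
    ext x
    rw [hphi, Equiv.Perm.one_apply]
    exact htriv _ h1 x x.2
  have hcard : 2 ∣ Nat.card X := by
    have : Fintype X := Fintype.ofFinite X
    rw [Nat.card_eq_fintype_card, Module.card_eq_pow_finrank (K := ZMod 2) (V := X), ZMod.card]
    have hpos : 0 < finrank (ZMod 2) X := by
      have : Nontrivial X := ⟨⟨⟨e, heX⟩, 0, fun h => he0 (by simpa using congrArg Subtype.val h)⟩⟩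
      exact Module.finrank_pos
    exact dvd_pow_self 2 hpos.ne'
  have h0 : (0 : X) ∈ MulAction.fixedPoints phi.range X := by
    rintro ⟨_, g, rfl⟩
    apply Subtype.ext
    change rho g ((0 : X) : E) = _
    simp
  obtain ⟨b, hb, hb0⟩ := hP.exists_fixed_point_of_prime_dvd_card_of_fixed_point X hcard h0
  refine ⟨b, hXK b.2, fun h => hb0 (Subtype.ext h.symm), fun g _ => ?_⟩
  have := hb ⟨phi g, g, rfl⟩
  have h2 := congrArg Subtype.val this
  exact h2

end Pool.Agent.ETF
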