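import Pool.Agent.ETF.Stmts

/-!
# ETF, module GTB: tower data from pre-tower data (MP_d26ff6_al)
-/

set_option autoImplicit false

namespace Pool.Agent.ETF

open Module Pool.Agent.ETT

namespace GTB_

theorem two_dvd_iff (x : ℤ_[2]) : (2 : ℤ_[2]) ∣ x ↔ PadicInt.toZMod x = 0 := by
  have h1 : x ∈ RingHom.ker (PadicInt.toZMod (p := 2)) ↔ PadicInt.toZMod x = 0 := RingHom.mem_ker
  rw [← h1, PadicInt.ker_toZMod, PadicInt.maximalIdeal_eq_span_p, Ideal.mem_span_singleton]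
  norm_num

theorem zmod_ne (a : ZMod 2) (h : a ≠ 0) : a = 1 := by
  revert a
  decide

theorem odd_add_odd {x y : ℤ_[2]} (hx : ¬ (2 : ℤ_[2]) ∣ x) (hy : ¬ (2 : ℤ_[2]) ∣ y) :
    (2 : ℤ_[2]) ∣ x + y := by
  rw [two_dvd_iff] at hx hy ⊢
  rw [map_add, zmod_ne _ hx, zmod_ne _ hy]
  decide

theorem eq_zero_of_dvd (x : ℤ_[2]) (h : ∀ j : ℕ, (2 : ℤ_[2]) ^ j ∣ x) : x = 0 := by
  by_contra hx
  have h1 := (PadicInt.mem_span_pow_iff_le_valuation (p := 2) x hx (x.valuation + 1)).mp (by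
    rw [Ideal.mem_span_singleton]
    have := h (x.valuation + 1)
    norm_num
    exact this)
  omega

variable {G : Type} [Group G]

theorem map_one_eq {A : Type} [AddCommGroup A] {U : Subgroup G} {c : G → A}
    (hc : ∀ u ∈ U, ∀ v ∈ U, c (u * v) = c u + c v) : c 1 = 0 := by
  have h := hc 1 U.one_mem 1 U.one_mem
  rw [mul_one] at h
  exact left_eq_add.mp h

theorem map_inv_eq {A : Type} [AddCommGroup A] {U : Subgroup G} {c : G → A}
    (hc : ∀ u ∈ U, ∀ v ∈ U, c (u * v) = c u + c v) (u : G) (hu : u ∈ U) : c u⁻¹ = - c u := by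
  have h := hc u hu u⁻¹ (U.inv_mem hu)
  rw [mul_inv_cancel, map_one_eq hc] at h
  exact (neg_eq_of_add_eq_zero_right h.symm).symm

/-- the level subgroup of an additive map -/
def levS (U : Subgroup G) (c : G → ℤ_[2]) (hc : ∀ u ∈ U, ∀ v ∈ U, c (u * v) = c u + c v) (j : ℕ) :
    Subgroup G where
  carrier := lev U c j
  mul_mem' := by
    rintro a b ⟨ha, ha'⟩ ⟨hb, hb'⟩
    refine ⟨U.mul_mem ha hb, ?_⟩
    rw [hc a ha b hb]
    exact dvd_add ha' hb'
  one_mem' := ⟨U.one_mem, by rw [map_one_eq hc]; exact dvd_zero _⟩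
  inv_mem' := by
    rintro a ⟨ha, ha'⟩
    refine ⟨U.inv_mem ha, ?_⟩
    rw [map_inv_eq hc a ha]
    exact (dvd_neg).mpr ha'

theorem mem_levS (U : Subgroup G) (c : G → ℤ_[2])
    (hc : ∀ u ∈ U, ∀ v ∈ U, c (u * v) = c u + c v) (j : ℕ) (u : G) :
    u ∈ levS U c hc j ↔ u ∈ U ∧ (2 : ℤ_[2]) ^ j ∣ c u := Iff.rfl

/-- additive maps which vanish at the `a i` are divisible by all powers of two -/
theorem div_all {S : Sys G} {U0 : Subgroup G} (P : Pre S U0) (j : ℕ) :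
    ∀ d : G → ℤ_[2], (∀ u ∈ U0, ∀ v ∈ U0, d (u * v) = d u + d v) → (∀ i, d (P.a i) = 0) →
      (∀ j : ℕ, ∃ W ∈ S.adm, (W : Set G) = lev U0 d j) → ∀ u ∈ U0, (2 : ℤ_[2]) ^ j ∣ d u := by
  induction j with
  | zero =>
    intro d _ _ _ u _
    rw [pow_zero]
    exact one_dvd _
  | succ j ih =>
    intro d hd hda hlev
    -- all values are even
    have h2 : ∀ u ∈ U0, (2 : ℤ_[2]) ∣ d u := by
      obtain ⟨W, hW, hWl⟩ := hlev 1
      have hWm : ∀ u, u ∈ W ↔ u ∈ U0 ∧ (2 : ℤ_[2]) ∣ d u := by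
        intro u
        have h := Set.ext_iff.mp hWl u
        simp only [SetLike.mem_coe, lev, Set.mem_setOf_eq, pow_one] at h
        exact h
      by_contra hcon
      push Not at hcon
      obtain ⟨s, hs, hs2⟩ := hcon
      have hrel : W.relIndex U0 = 2 := by
        rw [Subgroup.relIndex_eq_two_iff]
        refine ⟨s, hs, fun b hb => ?_⟩
        by_cases hb2 : (2 : ℤ_[2]) ∣ d b
        · right
          refine ⟨(hWm b).mpr ⟨hb, hb2⟩, fun h => ?_⟩
          have h3 := ((hWm _).mp h).2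
          rw [hd b hb s hs] at h3
          exact hs2 ((dvd_add_right hb2).mp h3)
        · left
          refine ⟨(hWm _).mpr ⟨U0.mul_mem hb hs, ?_⟩, fun h => hb2 ((hWm b).mp h).2⟩
          rw [hd b hb s hs]
          exact odd_add_odd hb2 hs2
      obtain ⟨e, he⟩ := P.two W hW (fun u hu => ((hWm u).mp hu).1) hrel
      have he2 : ∀ k, (2 : ℤ_[2]) ∣ e k := by
        intro k
        have h3 := (he (P.a k) (P.a_mem k)).mp ((hWm _).mpr ⟨P.a_mem k, by rw [hda]; exact dvd_zero _⟩)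
        rw [P.p_a] at h3
        simpa [Pi.single_apply] using h3
      apply hs2
      have h4 : s ∈ W := (he s hs).mpr (Finset.dvd_sum fun i _ => (he2 i).mul_right _)
      exact ((hWm s).mp h4).2
    -- divide by two
    choose f hf using h2
    classical
    set d' : G → ℤ_[2] := fun u => if h : u ∈ U0 then f u h else 0 with hd'
    have hdd : ∀ u ∈ U0, d u = 2 * d' u := by
      intro u hu
      rw [hf u hu, hd']
      simp [hu]
    have h20 : (2 : ℤ_[2]) ≠ 0 := by norm_num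
    have hadd : ∀ u ∈ U0, ∀ v ∈ U0, d' (u * v) = d' u + d' v := by
      intro u hu v hv
      apply mul_left_cancel₀ h20
      rw [← hdd _ (U0.mul_mem hu hv), hd u hu v hv, hdd u hu, hdd v hv, mul_add]
    have ha0 : ∀ i, d' (P.a i) = 0 := by
      intro i
      apply mul_left_cancel₀ h20
      rw [← hdd _ (P.a_mem i), hda, mul_zero]
    have hl : ∀ k : ℕ, ∃ W ∈ S.adm, (W : Set G) = lev U0 d' k := by
      intro k
      obtain ⟨W, hW, hWl⟩ := hlev (k + 1)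
      refine ⟨W, hW, ?_⟩
      rw [hWl]
      ext u
      simp only [lev, Set.mem_setOf_eq]
      refine and_congr_right fun hu => ?_
      rw [hdd u hu, pow_succ', mul_dvd_mul_iff_left h20]
    intro u hu
    rw [hdd u hu, pow_succ']
    exact mul_dvd_mul_left 2 (ih d' hadd ha0 hl u hu)

theorem univ' {S : Sys G} {U0 : Subgroup G} (P : Pre S U0)
    (c : G → ℤ_[2]) (hc : ∀ u ∈ U0, ∀ v ∈ U0, c (u * v) = c u + c v)
    (hlev : ∀ j : ℕ, ∃ W ∈ S.adm, (W : Set G) = lev U0 c j) :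
    ∀ u ∈ U0, c u = ∑ i, c (P.a i) * P.p u i := by
  set d : G → ℤ_[2] := fun u => c u - ∑ i, c (P.a i) * P.p u i with hd
  have hadd : ∀ u ∈ U0, ∀ v ∈ U0, d (u * v) = d u + d v := by
    intro u hu v hv
    simp only [hd]
    rw [hc u hu v hv, P.p_mul u hu v hv]
    simp only [Pi.add_apply, mul_add, Finset.sum_add_distrib]
    ring
  have ha0 : ∀ i, d (P.a i) = 0 := by
    intro i
    simp only [hd]
    rw [P.p_a]
    simp [Pi.single_apply]
  have hl : ∀ k : ℕ, ∃ W ∈ S.adm, (W : Set G) = lev U0 d k := by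
    intro k
    obtain ⟨W₁, hW₁, h1⟩ := hlev k
    obtain ⟨W₂, hW₂, h2⟩ := P.lev_adm k
    refine ⟨levS U0 d hadd k, S.up_mem (W₁ ⊓ W₂) (S.inf_mem _ hW₁ _ hW₂) _ ?_, rfl⟩
    intro u hu
    have hu1 : u ∈ W₁ := (Subgroup.mem_inf.mp hu).1
    have hu2 : u ∈ W₂ := (Subgroup.mem_inf.mp hu).2
    have h3 : u ∈ U0 ∧ (2 : ℤ_[2]) ^ k ∣ c u := by
      have h := (Set.ext_iff.mp h1 u).mp hu1
      exact h
    have h4 := (h2 u).mp hu2
    rw [mem_levS]
    refine ⟨h3.1, ?_⟩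
    exact dvd_sub h3.2 (Finset.dvd_sum fun i _ => (h4.2 i).mul_left _)
  intro u hu
  have h0 : d u = 0 := eq_zero_of_dvd _ fun j => div_all P j d hadd ha0 hl u hu
  exact sub_eq_zero.mp h0

end GTB_

open GTB_ in
theorem gtb_proof : Stmt_GTB := by
  intro G _ S U0 hU0 hnor P
  have hA : ∀ j : ℕ, ∃ W ∈ S.adm, ∀ u, u ∈ W ↔ u ∈ U0 ∧ ∀ i, (2 : ℤ_[2]) ^ j ∣ P.p u i := P.lev_adm
  choose A hAadm hAmem using hA
  refine ⟨{ U0 := U0, mem0 := hU0, nor0 := hnor, n := P.n, a := P.a, a_mem := P.a_mem, p := P.p,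
            p_mul := P.p_mul, p_a := P.p_a, A := A, mem_A := hAmem, A_adm := hAadm,
            A_nor := ?_, univ := fun c hc hlev => univ' P c hc hlev }, rfl⟩
  intro j
  refine ⟨fun n hn g => ?_⟩
  have hn' := (hAmem j n).mp hn
  refine (hAmem j _).mpr ⟨hnor.conj_mem n hn'.1 g, fun i => ?_⟩
  set c : G → ℤ_[2] := fun u => P.p (g * u * g⁻¹) i with hc
  have hadd : ∀ u ∈ U0, ∀ v ∈ U0, c (u * v) = c u + c v := by
    intro u hu v hv
    simp only [hc]
    have e : g * (u * v) * g⁻¹ = (g * u * g⁻¹) * (g * v * g⁻¹) := by group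
    rw [e, P.p_mul _ (hnor.conj_mem u hu g) _ (hnor.conj_mem v hv g)]
    rfl
  have hl : ∀ k : ℕ, ∃ W ∈ S.adm, (W : Set G) = lev U0 c k := by
    intro k
    refine ⟨levS U0 c hadd k, S.up_mem ((A k).map (MulAut.conj g⁻¹).toMonoidHom)
      (S.conj_mem _ (hAadm k) g⁻¹) _ ?_, rfl⟩
    rintro u ⟨v, hv, rfl⟩
    have hv' := (hAmem k v).mp hv
    have e : (MulAut.conj g⁻¹).toMonoidHom v = g⁻¹ * v * g⁻¹⁻¹ := rfl
    rw [e, mem_levS]
    refine ⟨hnor.conj_mem v hv'.1 g⁻¹, ?_⟩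
    show (2 : ℤ_[2]) ^ k ∣ P.p (g * (g⁻¹ * v * g⁻¹⁻¹) * g⁻¹) i
    have e2 : g * (g⁻¹ * v * g⁻¹⁻¹) * g⁻¹ = v := by group
    rw [e2]
    exact hv'.2 i
  have h := univ' P c hadd hl n hn'.1
  show (2 : ℤ_[2]) ^ j ∣ c n
  rw [h]
  exact Finset.dvd_sum fun k _ => (hn'.2 k).mul_left _

end Pool.Agent.ETF
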