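import Pool.Agent.ETF.Stmts

set_option autoImplicit false

namespace Pool.Agent.ETF

open Pool.Agent.ETT

namespace IXU_

variable {G : Type} [Group G]

/-- all intermediate indices occur -/
theorem mid {N W U : Subgroup G} (hN : N.Normal) (hNW : N ≤ W) (hWU : W ≤ U) {a : ℕ}
    (ha : N.index = 2 ^ a) : ∃ k : ℕ, W.relIndex U = 2 ^ k ∧
      ∀ j ≤ k, ∃ K : Subgroup G, W ≤ K ∧ K ≤ U ∧ W.relIndex K = 2 ^ j := by
  have hNU : N ≤ U := hNW.trans hWU
  have h1 : N.relIndex U ∣ 2 ^ a := ha ▸ Subgroup.relIndex_dvd_index_of_le hNU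
  obtain ⟨m, -, hm⟩ := (Nat.dvd_prime_pow Nat.prime_two).1 h1
  have h2 := Subgroup.relIndex_mul_relIndex N W U hNW hWU
  have h3 : W.relIndex U ∣ 2 ^ m := ⟨N.relIndex W, by rw [← hm, ← h2, mul_comm]⟩
  obtain ⟨k, hkm, hk⟩ := (Nat.dvd_prime_pow Nat.prime_two).1 h3
  refine ⟨k, hk, fun j hj => ?_⟩
  set M : Subgroup U := N.subgroupOf U with hM
  have hMn : M.Normal := hN.subgroupOf U
  have hMi : M.index = 2 ^ m := hm
  have hcQ : Nat.card (U ⧸ M) = 2 ^ m := hMi
  have hfin : Finite (U ⧸ M) := Nat.finite_of_card_ne_zero (by rw [hcQ]; positivity)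
  set π : U →* U ⧸ M := QuotientGroup.mk' M with hπ
  have hsurj : Function.Surjective π := QuotientGroup.mk'_surjective M
  set W' : Subgroup U := W.subgroupOf U with hW'
  have hMW : M ≤ W' := fun x hx => by
    rw [hW', Subgroup.mem_subgroupOf]
    rw [hM, Subgroup.mem_subgroupOf] at hx
    exact hNW hx
  set H : Subgroup (U ⧸ M) := W'.map π with hH
  have hcm : H.comap π = W' := by
    rw [hH, Subgroup.comap_map_eq, hπ, QuotientGroup.ker_mk']
    exact sup_eq_left.2 hMW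
  have hHi : H.index = 2 ^ k := by
    rw [← Subgroup.index_comap_of_surjective H hsurj, hcm]
    exact hk
  have hHc : Nat.card H = 2 ^ (m - k) := by
    have h4 := Subgroup.card_mul_index H
    rw [hHi, hcQ] at h4
    have h5 : (2 : ℕ) ^ m = 2 ^ (m - k) * 2 ^ k := by
      rw [← pow_add, Nat.sub_add_cancel hkm]
    rw [h5] at h4
    exact Nat.eq_of_mul_eq_mul_right (by positivity) h4
  obtain ⟨K', hK'c, hHK'⟩ := Sylow.exists_subgroup_card_pow_prime_le 2 (n := m - k)
    (m := m - k + j) (G := U ⧸ M) (by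
      rw [hcQ]
      exact pow_dvd_pow 2 (by omega)) H hHc (by omega)
  have hK'i : K'.index = 2 ^ (k - j) := by
    have h4 := Subgroup.card_mul_index K'
    rw [hK'c, hcQ] at h4
    have h5 : (2 : ℕ) ^ m = 2 ^ (m - k + j) * 2 ^ (k - j) := by
      rw [← pow_add]
      congr 1
      omega
    rw [h5] at h4
    exact Nat.eq_of_mul_eq_mul_left (by positivity) h4
  set K : Subgroup G := (K'.comap π).map U.subtype with hK
  have hKs : K.subgroupOf U = K'.comap π := by
    rw [Subgroup.subgroupOf, hK]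
    exact Subgroup.comap_map_eq_self_of_injective U.subtype_injective _
  have hKU : K.relIndex U = 2 ^ (k - j) := by
    rw [Subgroup.relIndex, hKs, Subgroup.index_comap_of_surjective K' hsurj, hK'i]
  have hWK : W ≤ K := fun w hw => by
    have hw' : (⟨w, hWU hw⟩ : U) ∈ W' := by
      rw [hW', Subgroup.mem_subgroupOf]
      exact hw
    refine ⟨⟨w, hWU hw⟩, ?_, rfl⟩
    exact hHK' (Subgroup.mem_map_of_mem π hw')
  have hKleU : K ≤ U := Subgroup.map_subtype_le _
  refine ⟨K, hWK, hKleU, ?_⟩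
  have h6 := Subgroup.relIndex_mul_relIndex W K U hWK hKleU
  rw [hKU, hk] at h6
  have h7 : (2 : ℕ) ^ k = 2 ^ j * 2 ^ (k - j) := by
    rw [← pow_add]
    congr 1
    omega
  rw [h7] at h6
  exact Nat.eq_of_mul_eq_mul_right (by positivity) h6

end IXU_

theorem ixu_proof : Stmt_IXU := by
  intro G _ S W hW U hU hWU
  obtain ⟨N, hN, hNW, hNn, a, ha⟩ := S.core W hW
  obtain ⟨k, hk, hmid⟩ := IXU_.mid hNn hNW hWU ha
  refine ⟨⟨k, hk⟩, fun hne => ?_⟩
  have hk1 : 1 ≤ k := by
    rcases Nat.eq_zero_or_pos k with h | h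
    · exfalso
      rw [h, pow_zero, Subgroup.relIndex_eq_one] at hk
      exact hne (le_antisymm hWU hk)
    · exact h
  constructor
  · obtain ⟨K, h1, h2, h3⟩ := hmid 1 hk1
    exact ⟨K, S.up_mem W hW K h1, h1, h2, by rw [h3, pow_one]⟩
  · obtain ⟨K, h1, h2, h3⟩ := hmid (k - 1) (by omega)
    refine ⟨K, S.up_mem W hW K h1, h1, h2, ?_⟩
    have h4 := Subgroup.relIndex_mul_relIndex W K U h1 h2
    rw [h3, hk] at h4
    have h5 : (2 : ℕ) ^ k = 2 ^ (k - 1) * 2 := by
      rw [← pow_succ]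
      congr 1
      omega
    rw [h5] at h4
    exact Nat.eq_of_mul_eq_mul_left (by positivity) h4

end Pool.Agent.ETF
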