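import Pool.Agent.ETF.Stmts

/-!
# ETF, module LCA: the ideal generated by the `q`-th powers of the variables
-/

set_option autoImplicit false

namespace Pool.Agent.ETF

open Module Pool.Agent.ETT

namespace LCA_

theorem coeff_of_mem (n q : ℕ) (f : Lam n) (hf : f ∈ pw n q) :
    ∀ m : Fin n →₀ ℕ, (∀ i, m i < q) → MvPowerSeries.coeff m f = 0 := by
  classical
  unfold pw at hf
  refine Submodule.span_induction ?_ ?_ ?_ ?_ hf
  · rintro x ⟨i, rfl⟩ m hm
    exact (MvPowerSeries.X_pow_dvd_iff).1 (dvd_refl _) m (hm i)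
  · intro m _
    exact map_zero _
  · intro x y _ _ hx hy m hm
    rw [map_add, hx m hm, hy m hm, add_zero]
  · intro a x _ hx m hm
    rw [smul_eq_mul, MvPowerSeries.coeff_mul]
    apply Finset.sum_eq_zero
    rintro ⟨u, v⟩ huv
    rw [Finset.HasAntidiagonal.mem_antidiagonal] at huv
    have h0 : MvPowerSeries.coeff v x = 0 := by
      apply hx v
      intro i
      have h1 : u i + v i = m i := by rw [← huv]; rfl
      have h2 := hm i
      omega
    show MvPowerSeries.coeff u a * MvPowerSeries.coeff v x = 0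
    rw [h0, mul_zero]

theorem mem_of_coeff (n q : ℕ) (f : Lam n)
    (h : ∀ m : Fin n →₀ ℕ, (∀ i, m i < q) → MvPowerSeries.coeff m f = 0) : f ∈ pw n q := by
  classical
  let part : Fin n → Lam n := fun i => fun m =>
    if (q ≤ m i ∧ ∀ k < i, m k < q) then MvPowerSeries.coeff m f else 0
  have hpart : ∀ i, part i ∈ pw n q := by
    intro i
    have hd : (MvPowerSeries.X i : Lam n) ^ q ∣ part i := by
      rw [MvPowerSeries.X_pow_dvd_iff]
      intro m hm
      show (if (q ≤ m i ∧ ∀ k < i, m k < q) then MvPowerSeries.coeff m f else 0) = 0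
      rw [if_neg]
      intro hh
      exact absurd hh.1 (not_le.2 hm)
    exact Ideal.mem_of_dvd _ hd (Ideal.subset_span ⟨i, rfl⟩)
  have hsum : f = ∑ i, part i := by
    ext m
    rw [map_sum]
    show MvPowerSeries.coeff m f
      = ∑ i, (if (q ≤ m i ∧ ∀ k < i, m k < q) then MvPowerSeries.coeff m f else 0)
    by_cases hm : ∀ i, m i < q
    · rw [h m hm]
      simp
    · push Not at hm
      obtain ⟨i0, h1, h2⟩ : ∃ i, q ≤ m i ∧ ∀ k < i, m k < q := by
        obtain ⟨a, ha, hb⟩ := WellFounded.has_min (wellFounded_lt (α := Fin n))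
          {i | q ≤ m i} hm
        exact ⟨a, ha, fun k hk => by
          by_contra hc
          exact hb k (not_lt.1 hc) hk⟩
      rw [Finset.sum_eq_single i0, if_pos ⟨h1, h2⟩]
      · intro b _ hb
        rw [if_neg]
        rintro ⟨h3, h4⟩
        rcases lt_trichotomy b i0 with hlt | heq | hgt
        · exact absurd (h2 b hlt) (not_lt.2 h3)
        · exact hb heq
        · exact absurd (h4 i0 hgt) (not_lt.2 h1)
      · intro hn
        exact absurd (Finset.mem_univ _) hn
  rw [hsum]
  exact Ideal.sum_mem _ fun i _ => hpart i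

/-- The monomial with the given small exponents. -/
noncomputable def mon {n q : ℕ} (a : Fin n → Fin q) : Fin n →₀ ℕ :=
  Finsupp.equivFunOnFinite.symm fun i => (a i : ℕ)

theorem mon_apply {n q : ℕ} (a : Fin n → Fin q) (i : Fin n) : mon a i = (a i : ℕ) := rfl

theorem mon_inj {n q : ℕ} {a b : Fin n → Fin q} (h : mon a = mon b) : a = b := by
  funext i
  apply Fin.ext
  rw [← mon_apply a i, ← mon_apply b i, h]

theorem mem_iff_mon (n q : ℕ) (f : Lam n) :
    f ∈ pw n q ↔ ∀ a : Fin n → Fin q, MvPowerSeries.coeff (mon a) f = 0 := by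
  constructor
  · intro h a
    exact coeff_of_mem n q f h (mon a) fun i => (a i).2
  · intro h
    apply mem_of_coeff
    intro m hm
    have := h fun i => ⟨m i, hm i⟩
    have he : mon (fun i => (⟨m i, hm i⟩ : Fin q)) = m := by
      ext i
      rfl
    rwa [he] at this

/-- The residue class as a table of coefficients. -/
noncomputable def psi (n q : ℕ) (x : Lam n ⧸ pw n q) : (Fin n → Fin q) → ZMod 2 :=
  fun a => MvPowerSeries.coeff (mon a) (Quotient.out x)

theorem psi_mk (n q : ℕ) (f : Lam n) (a : Fin n → Fin q) :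
    psi n q (Ideal.Quotient.mk _ f) a = MvPowerSeries.coeff (mon a) f := by
  have h : (Quotient.out (Ideal.Quotient.mk (pw n q) f)) - f ∈ pw n q := by
    rw [← Ideal.Quotient.eq]
    exact Quotient.out_eq _
  have h2 := (mem_iff_mon n q _).1 h a
  rw [map_sub, sub_eq_zero] at h2
  exact h2

theorem psi_bij (n q : ℕ) : Function.Bijective (psi n q) := by
  classical
  constructor
  · intro x y hxy
    obtain ⟨f, rfl⟩ := Ideal.Quotient.mk_surjective x
    obtain ⟨g, rfl⟩ := Ideal.Quotient.mk_surjective y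
    rw [Ideal.Quotient.eq, mem_iff_mon]
    intro a
    have := congrFun hxy a
    rw [psi_mk, psi_mk] at this
    rw [map_sub, this, sub_self]
  · intro c
    let f : Lam n := fun m => if h : ∀ i, m i < q then c (fun i => ⟨m i, h i⟩) else 0
    refine ⟨Ideal.Quotient.mk _ f, ?_⟩
    funext a
    rw [psi_mk]
    show (if h : ∀ i, mon a i < q then c (fun i => ⟨mon a i, h i⟩) else 0) = c a
    have hlt : ∀ i, mon a i < q := fun i => (a i).2
    rw [dif_pos hlt]
    rfl

end LCA_

open LCA_ in
theorem lca_proof : Stmt_LCA := by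
  intro n q _
  refine ⟨fun f => ⟨coeff_of_mem n q f, mem_of_coeff n q f⟩, ?_⟩
  rw [Nat.card_congr (Equiv.ofBijective _ (psi_bij n q))]
  simp [Nat.card_eq_fintype_card, ZMod.card]

end Pool.Agent.ETF
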