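import Pool.Agent.ETF.Stmts

/-!
Squad ETF, module LIN: additive maps which commute with the variables are linear.
-/

set_option autoImplicit false

namespace Pool.Agent.ETF

open Module Pool.Agent.ETT

namespace LIN_

lemma poly {n : ℕ} {E E' : Type} [AddCommGroup E] [AddCommGroup E'] [Module (Lam n) E]
    [Module (Lam n) E'] (φ : E →+ E')
    (h : ∀ (i : Fin n) (e : E),
      φ ((MvPowerSeries.X i : Lam n) • e) = (MvPowerSeries.X i : Lam n) • φ e)
    (P : MvPolynomial (Fin n) (ZMod 2)) :
    ∀ e : E, φ ((P : Lam n) • e) = (P : Lam n) • φ e := by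
  induction P using MvPolynomial.induction_on with
  | C a =>
    intro e
    rw [MvPolynomial.coe_C]
    have ha : a = 0 ∨ a = 1 := by
      revert a
      decide
    rcases ha with rfl | rfl
    · rw [map_zero, zero_smul, zero_smul, map_zero]
    · rw [map_one, one_smul, one_smul]
  | add p q hp hq =>
    intro e
    rw [MvPolynomial.coe_add, add_smul, add_smul, map_add, hp, hq]
  | mul_X p i hp =>
    intro e
    rw [MvPolynomial.coe_mul, MvPolynomial.coe_X, mul_smul, mul_smul, hp, h]

lemma kill {n q : ℕ} {E : Type} [AddCommGroup E] [Module (Lam n) E] (e : E)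
    (h : ∀ i : Fin n, ((MvPowerSeries.X i : Lam n) ^ q) • e = 0) (x : Lam n) (hx : x ∈ pw n q) :
    x • e = 0 := by
  have hle : pw n q ≤ LinearMap.ker (LinearMap.toSpanSingleton (Lam n) E e) := by
    unfold pw
    rw [Ideal.span, Submodule.span_le]
    rintro _ ⟨i, rfl⟩
    exact h i
  exact hle hx

end LIN_

open LIN_

theorem lin_proof (hLCA : Stmt_LCA) : Stmt_LIN := by
  intro n E E' _ _ _ _ hX φ hφ f e
  obtain ⟨m, hm⟩ := hX e
  have hm' : ∀ i : Fin n, ((MvPowerSeries.X i : Lam n) ^ (m + 1)) • e = 0 := by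
    intro i
    rw [pow_succ', mul_smul, hm i, smul_zero]
  obtain ⟨hpw, -⟩ := hLCA n (m + 1) (Nat.succ_pos m)
  set c : Fin n →₀ ℕ := Finsupp.equivFunOnFinite.symm (fun _ => m) with hc
  set P : MvPolynomial (Fin n) (ZMod 2) := MvPowerSeries.trunc' (ZMod 2) c f with hP
  have hmem : f - (P : Lam n) ∈ pw n (m + 1) := by
    rw [hpw]
    intro a ha
    have hac : a ≤ c := by
      intro i
      rw [hc]
      simp only [Finsupp.equivFunOnFinite_symm_apply_apply]
      exact Nat.lt_succ_iff.1 (ha i)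
    rw [map_sub, MvPolynomial.coeff_coe, hP, MvPowerSeries.coeff_trunc', if_pos hac, sub_self]
  have h1 : (f - (P : Lam n)) • e = 0 := kill e hm' _ hmem
  have h2 : ∀ i : Fin n, ((MvPowerSeries.X i : Lam n) ^ (m + 1)) • φ e = 0 := by
    intro i
    have h3 := poly φ hφ ((MvPolynomial.X i) ^ (m + 1)) e
    rw [MvPolynomial.coe_pow, MvPolynomial.coe_X, hm' i, map_zero] at h3
    exact h3.symm
  have h4 : (f - (P : Lam n)) • φ e = 0 := kill (φ e) h2 _ hmem
  rw [sub_smul, sub_eq_zero] at h1 h4
  rw [h1, h4]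
  exact poly φ hφ P e

end Pool.Agent.ETF
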