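import Pool.Agent.ETF.Stmts

/-!
# ETF, module MON: `b_W ≤ [U : W] b_U`
-/

set_option autoImplicit false

namespace Pool.Agent.ETF

open Module Pool.Agent.ETT

namespace MON_

lemma step {G : Type} [Group G] {E : Type} [AddCommGroup E] [Module (ZMod 2) E]
    (rho : Representation (ZMod 2) G E) (W K : Subgroup G) (hle : W ≤ K)
    (hi : W.relIndex K = 2) (hf : Finite (fix rho K)) :
    Finite (fix rho W) ∧ bb rho W ≤ 2 * bb rho K := by
  have hidx : (W.subgroupOf K).index = 2 := hi
  have hne : ∃ s ∈ K, s ∉ W := by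
    by_contra hcon
    push Not at hcon
    have h1 : W.relIndex K = 1 := Subgroup.relIndex_eq_one.mpr hcon
    omega
  obtain ⟨s, hsK, hsW⟩ := hne
  have hmul : ∀ a b : G, a ∈ K → b ∈ K → (a * b ∈ W ↔ (a ∈ W ↔ b ∈ W)) := by
    intro a b ha hb
    have h := Subgroup.mul_mem_iff_of_index_two hidx (a := ⟨a, ha⟩) (b := ⟨b, hb⟩)
    simpa [Subgroup.mem_subgroupOf] using h
  have hsi : s⁻¹ ∉ W := fun h => hsW (by simpa using W.inv_mem h)
  have hss : s * s ∈ W := (hmul s s hsK hsK).mpr Iff.rfl
  have hconj : ∀ w ∈ W, s⁻¹ * w * s ∈ W := by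
    intro w hw
    have h1 : s⁻¹ * w ∉ W := by
      intro hc
      have := (hmul s⁻¹ w (K.inv_mem hsK) (hle hw)).mp hc
      exact hsi (this.mpr hw)
    exact (hmul (s⁻¹ * w) s (K.mul_mem (K.inv_mem hsK) (hle hw)) hsK).mpr
      ⟨fun h => absurd h h1, fun h => absurd h hsW⟩
  have hchar : ∀ x : E, x + x = 0 := by
    intro x
    have : (2 : ZMod 2) • x = 0 := by
      have h2 : (2 : ZMod 2) = 0 := rfl
      rw [h2, zero_smul]
    rwa [two_smul] at this
  have hfixs : ∀ e : E, e ∈ fix rho W → rho s e = e → e ∈ fix rho K := by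
    intro e he hse k hk
    by_cases hkW : k ∈ W
    · exact he k hkW
    · have h1 : s⁻¹ * k ∈ W := (hmul s⁻¹ k (K.inv_mem hsK) hk).mpr
        ⟨fun h => absurd h hsi, fun h => absurd h hkW⟩
      have h2 : k = s * (s⁻¹ * k) := by group
      rw [h2, map_mul, Module.End.mul_apply, he _ h1, hse]
  have hmaps : ∀ e ∈ fix rho W, (rho s + 1) e ∈ fix rho K := by
    intro e he
    have h1 : (rho s + 1) e = rho s e + e := rfl
    rw [h1]
    apply hfixs
    · intro w hw
      have h2 : rho w (rho s e) = rho s e := by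
        have h3 : w * s = s * (s⁻¹ * w * s) := by group
        rw [← Module.End.mul_apply, ← map_mul, h3, map_mul, Module.End.mul_apply,
          he _ (hconj w hw)]
      rw [map_add, h2, he w hw]
    · have h2 : rho s (rho s e) = e := by
        rw [← Module.End.mul_apply, ← map_mul]
        exact he _ hss
      rw [map_add, h2, add_comm]
  let φ : fix rho W →ₗ[ZMod 2] fix rho K := (rho s + 1).restrict hmaps
  have hker : (LinearMap.ker φ).map (fix rho W).subtype ≤ fix rho K := by
    rintro _ ⟨x, hx, rfl⟩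
    apply hfixs _ x.2
    have h1 : φ x = 0 := hx
    have h2 : rho s (x : E) + (x : E) = 0 := congrArg Subtype.val h1
    have h3 := hchar (x : E)
    exact add_right_cancel (h2.trans h3.symm)
  haveI : Module.Finite (ZMod 2) (fix rho K) := Module.Finite.of_finite
  haveI hkf : Module.Finite (ZMod 2) ((LinearMap.ker φ).map (fix rho W).subtype) :=
    Submodule.finiteDimensional_of_le hker
  have hkf2 : (LinearMap.ker φ).FG := by
    have h1 : ((LinearMap.ker φ).map (fix rho W).subtype).FG :=
      (Submodule.fg_iff_finiteDimensional _).mpr hkf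
    exact Submodule.fg_of_fg_map_injective _ (Submodule.subtype_injective _) h1
  have hfg : (⊤ : Submodule (ZMod 2) (fix rho W)).FG := by
    apply Submodule.fg_of_fg_map_of_fg_inf_ker φ
    · exact (Submodule.fg_iff_finiteDimensional _).mpr inferInstance
    · rwa [top_inf_eq]
  haveI hWf : Module.Finite (ZMod 2) (fix rho W) := ⟨hfg⟩
  refine ⟨Module.finite_of_finite (ZMod 2), ?_⟩
  have h1 := LinearMap.finrank_range_add_finrank_ker φ
  have h2 : finrank (ZMod 2) (LinearMap.range φ) ≤ bb rho K := Submodule.finrank_le _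
  have h3 : finrank (ZMod 2) (LinearMap.ker φ) ≤ bb rho K := by
    rw [← Submodule.finrank_map_subtype_eq]
    exact Submodule.finrank_mono hker
  have h4 : bb rho W = finrank (ZMod 2) (fix rho W) := rfl
  omega

end MON_

theorem mon_proof (hIXU : Stmt_IXU) : Stmt_MON := by
  intro G _ S E _ _ rho W hW U hU hle hf
  have key : ∀ n : ℕ, ∀ W ∈ S.adm, W ≤ U → W.relIndex U = n →
      Finite (fix rho W) ∧ bb rho W ≤ W.relIndex U * bb rho U := by
    intro n
    induction n using Nat.strong_induction_on with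
    | _ n ih =>
      intro W hW hle hn
      by_cases hWU : W = U
      · subst hWU
        refine ⟨hf, ?_⟩
        rw [Subgroup.relIndex_self, one_mul]
      · obtain ⟨⟨k, hk⟩, h2⟩ := hIXU G S W hW U hU hle
        obtain ⟨⟨K, hK, hWK, hKU, hi⟩, -⟩ := h2 hWU
        have hm := Subgroup.relIndex_mul_relIndex W K U hWK hKU
        have hpos : 0 < W.relIndex U := by
          rw [hk]
          positivity
        rw [hi] at hm
        obtain ⟨hKf, hKb⟩ := ih (K.relIndex U) (by omega) K hK hKU rfl
        obtain ⟨h3, h4⟩ := MON_.step rho W K hWK hi hKf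
        refine ⟨h3, h4.trans ?_⟩
        calc 2 * bb rho K ≤ 2 * (K.relIndex U * bb rho U) := Nat.mul_le_mul_left 2 hKb
          _ = W.relIndex U * bb rho U := by rw [← hm, mul_assoc]
  exact key _ W hW hle rfl

end Pool.Agent.ETF
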