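import Pool.Agent.ETF.Stmts

/-!
# ETF, module PSA: commuting locally nilpotent endomorphisms give a module over the
power series ring
-/

set_option autoImplicit false

namespace Pool.Agent.ETF

open Module Pool.Agent.ETT

namespace PSA_

variable {n : ℕ} {E : Type} [AddCommGroup E] [Module (ZMod 2) E]

lemma exists_psi (t : Fin n → Module.End (ZMod 2) E) (hc : ∀ i j, t i * t j = t j * t i) :
    ∃ ψ : MvPolynomial (Fin n) (ZMod 2) →+* Module.End (ZMod 2) E,
      ∀ i, ψ (MvPolynomial.X i) = t i := by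
  letI := Algebra.adjoinCommRingOfComm (ZMod 2) (s := Set.range t) (by
    rintro a ⟨i, rfl⟩ b ⟨j, rfl⟩
    exact hc i j)
  let φ : MvPolynomial (Fin n) (ZMod 2) →ₐ[ZMod 2] Algebra.adjoin (ZMod 2) (Set.range t) :=
    MvPolynomial.aeval (fun i => (⟨t i, Algebra.subset_adjoin ⟨i, rfl⟩⟩ :
      Algebra.adjoin (ZMod 2) (Set.range t)))
  refine ⟨(Algebra.adjoin (ZMod 2) (Set.range t)).val.toRingHom.comp φ.toRingHom, ?_⟩
  intro i
  have h : φ (MvPolynomial.X i) = ⟨t i, Algebra.subset_adjoin ⟨i, rfl⟩⟩ :=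
    MvPolynomial.aeval_X _ i
  exact congrArg Subtype.val h

/-- `e` is killed by all the powers `X i ^ (m i + 1)`. -/
def good (ψ : MvPolynomial (Fin n) (ZMod 2) →+* Module.End (ZMod 2) E) (m : Fin n →₀ ℕ)
    (e : E) : Prop :=
  ∀ i, ψ (MvPolynomial.X i ^ (m i + 1)) e = 0

variable (ψ : MvPolynomial (Fin n) (ZMod 2) →+* Module.End (ZMod 2) E)

lemma kill {m : Fin n →₀ ℕ} {e : E} (h : good ψ m e) (m' : Fin n →₀ ℕ) (hm : ¬ m' ≤ m)
    (c : ZMod 2) : ψ (MvPolynomial.monomial m' c) e = 0 := by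
  classical
  have : ∃ i, m i < m' i := by
    by_contra hcon
    push Not at hcon
    exact hm hcon
  obtain ⟨i, hi⟩ := this
  have e1 : (MvPolynomial.monomial m' c : MvPolynomial (Fin n) (ZMod 2)) =
      MvPolynomial.monomial (m' - Finsupp.single i (m i + 1)) c * MvPolynomial.X i ^ (m i + 1) := by
    have hle : Finsupp.single i (m i + 1) ≤ m' := Finsupp.single_le_iff.mpr hi
    rw [MvPolynomial.X_pow_eq_monomial, MvPolynomial.monomial_mul, mul_one,
      tsub_add_cancel_of_le hle]
  rw [e1, map_mul, Module.End.mul_apply, h i, map_zero]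

lemma vanish {m : Fin n →₀ ℕ} {e : E} (h : good ψ m e) (q : MvPolynomial (Fin n) (ZMod 2))
    (hq : ∀ m' ≤ m, MvPolynomial.coeff m' q = 0) : ψ q e = 0 := by
  classical
  rw [MvPolynomial.as_sum q, map_sum, LinearMap.sum_apply]
  apply Finset.sum_eq_zero
  intro m' hm'
  apply kill ψ h
  intro hle
  exact (MvPolynomial.mem_support_iff.mp hm') (hq m' hle)

lemma trunc_eq {m : Fin n →₀ ℕ} {e : E} (h : good ψ m e) (p : MvPolynomial (Fin n) (ZMod 2)) :
    ψ (MvPowerSeries.trunc' (ZMod 2) m (p : MvPowerSeries (Fin n) (ZMod 2))) e = ψ p e := by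
  classical
  have h1 := vanish ψ h
    (MvPowerSeries.trunc' (ZMod 2) m (p : MvPowerSeries (Fin n) (ZMod 2)) - p) (by
      intro m' hm'
      rw [MvPolynomial.coeff_sub, MvPowerSeries.coeff_trunc', if_pos hm',
        MvPolynomial.coeff_coe, sub_self])
  rw [map_sub, LinearMap.sub_apply, sub_eq_zero] at h1
  exact h1

lemma good_mono {m m' : Fin n →₀ ℕ} {e : E} (h : good ψ m e) (hm : m ≤ m') : good ψ m' e := by
  intro i
  have hle : m i + 1 ≤ m' i + 1 := Nat.succ_le_succ (hm i)
  obtain ⟨k, hk⟩ := Nat.exists_eq_add_of_le hle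
  rw [hk, add_comm, pow_add, map_mul, Module.End.mul_apply, h i, map_zero]

lemma good_add {m : Fin n →₀ ℕ} {e e' : E} (h : good ψ m e) (h' : good ψ m e') :
    good ψ m (e + e') := by
  intro i
  rw [map_add, h i, h' i, add_zero]

lemma good_psi {m : Fin n →₀ ℕ} {e : E} (h : good ψ m e) (p : MvPolynomial (Fin n) (ZMod 2)) :
    good ψ m (ψ p e) := by
  intro i
  rw [← Module.End.mul_apply, ← map_mul, mul_comm, map_mul, Module.End.mul_apply, h i, map_zero]

lemma indep {m m' : Fin n →₀ ℕ} {e : E} (h : good ψ m e) (h' : good ψ m' e) (f : Lam n) :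
    ψ (MvPowerSeries.trunc' (ZMod 2) m f) e = ψ (MvPowerSeries.trunc' (ZMod 2) m' f) e := by
  have key : ∀ m₁ m₂ : Fin n →₀ ℕ, m₁ ≤ m₂ → good ψ m₁ e →
      ψ (MvPowerSeries.trunc' (ZMod 2) m₁ f) e = ψ (MvPowerSeries.trunc' (ZMod 2) m₂ f) e := by
    intro m₁ m₂ hle hg
    rw [← trunc_eq ψ hg (MvPowerSeries.trunc' (ZMod 2) m₂ f), MvPowerSeries.trunc'_trunc' hle]
  rw [key m (m ⊔ m') le_sup_left h, key m' (m ⊔ m') le_sup_right h']

/-- The module structure. -/
noncomputable def modl (hg : ∀ e : E, ∃ m, good ψ m e) : Module (Lam n) E where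
  smul f e := ψ (MvPowerSeries.trunc' (ZMod 2) (Classical.choose (hg e)) f) e
  one_smul := by
    intro e
    change ψ (MvPowerSeries.trunc' (ZMod 2) _ 1) e = e
    rw [MvPowerSeries.trunc'_one, map_one]
    rfl
  mul_smul := by
    intro f g e
    change ψ (MvPowerSeries.trunc' (ZMod 2) (Classical.choose (hg e)) (f * g)) e =
      ψ (MvPowerSeries.trunc' (ZMod 2) _ f)
        (ψ (MvPowerSeries.trunc' (ZMod 2) (Classical.choose (hg e)) g) e)
    have h := Classical.choose_spec (hg e)
    rw [indep ψ (Classical.choose_spec (hg _)) (good_psi ψ h _) f, ← Module.End.mul_apply,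
      ← map_mul]
    rw [← sub_eq_zero, ← LinearMap.sub_apply, ← map_sub]
    apply vanish ψ h
    intro m' hm'
    rw [MvPolynomial.coeff_sub, MvPowerSeries.coeff_trunc', if_pos hm',
      MvPowerSeries.coeff_trunc'_mul_trunc'_eq_coeff_mul _ _ _ hm', sub_self]
  smul_zero := by
    intro f
    exact map_zero _
  smul_add := by
    intro f e e'
    change ψ (MvPowerSeries.trunc' (ZMod 2) (Classical.choose (hg (e + e'))) f) (e + e') =
      ψ (MvPowerSeries.trunc' (ZMod 2) (Classical.choose (hg e)) f) e +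
      ψ (MvPowerSeries.trunc' (ZMod 2) (Classical.choose (hg e')) f) e'
    have h := good_mono ψ (Classical.choose_spec (hg e))
      (le_sup_left (b := Classical.choose (hg e')))
    have h' := good_mono ψ (Classical.choose_spec (hg e'))
      (le_sup_right (a := Classical.choose (hg e)))
    rw [indep ψ (Classical.choose_spec (hg (e + e'))) (good_add ψ h h') f, map_add,
      indep ψ (Classical.choose_spec (hg e)) h f, indep ψ (Classical.choose_spec (hg e')) h' f]
  add_smul := by
    intro f g e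
    change ψ (MvPowerSeries.trunc' (ZMod 2) (Classical.choose (hg e)) (f + g)) e =
      ψ (MvPowerSeries.trunc' (ZMod 2) (Classical.choose (hg e)) f) e +
      ψ (MvPowerSeries.trunc' (ZMod 2) (Classical.choose (hg e)) g) e
    rw [map_add, map_add, LinearMap.add_apply]
  zero_smul := by
    intro e
    change ψ (MvPowerSeries.trunc' (ZMod 2) (Classical.choose (hg e)) 0) e = 0
    rw [map_zero, map_zero, LinearMap.zero_apply]

end PSA_

theorem psa_proof : Stmt_PSA := by
  intro n E _ _ t hc hn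
  obtain ⟨ψ, hψ⟩ := PSA_.exists_psi t hc
  have hg : ∀ e : E, ∃ m, PSA_.good ψ m e := by
    intro e
    obtain ⟨m, hm⟩ := hn e
    refine ⟨Finsupp.equivFunOnFinite.symm (fun _ => m), ?_⟩
    intro i
    have h1 : (Finsupp.equivFunOnFinite.symm (fun _ : Fin n => m)) i = m := rfl
    rw [h1, map_pow, hψ, pow_succ', Module.End.mul_apply, hm i, map_zero]
  refine ⟨PSA_.modl ψ hg, ?_⟩
  intro i e
  change ψ (MvPowerSeries.trunc' (ZMod 2) (Classical.choose (hg e)) (MvPowerSeries.X i)) e = t i e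
  rw [← MvPolynomial.coe_X, PSA_.trunc_eq ψ (Classical.choose_spec (hg e)), hψ]

end Pool.Agent.ETF
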