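import Pool.Agent.ETF.Stmts

/-!
# PSX: a smooth module is a module over the power series ring
-/

set_option autoImplicit false

namespace Pool.Agent.ETF

open Module Pool.Agent.ETT

namespace PSX_

section

variable {E : Type} [AddCommGroup E] [Module (ZMod 2) E]

theorem add_self_zero (x : E) : x + x = 0 := by
  have h := two_smul (ZMod 2) x
  rw [← h, show (2 : ZMod 2) = 0 from rfl, zero_smul]

variable {G : Type} [Group G] (rho : Representation (ZMod 2) G E)

theorem pow_two_pow (a : G) (j : ℕ) (e : E) :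
    ((rho a - 1 : Module.End (ZMod 2) E) ^ (2 ^ j)) e = rho (a ^ (2 ^ j)) e - e := by
  induction j generalizing e with
  | zero =>
    rw [pow_zero, pow_one, pow_one]
    rfl
  | succ j ih =>
    have h1 : ((rho a - 1 : Module.End (ZMod 2) E) ^ (2 ^ (j + 1))) e =
        ((rho a - 1 : Module.End (ZMod 2) E) ^ (2 ^ j))
          (((rho a - 1 : Module.End (ZMod 2) E) ^ (2 ^ j)) e) := by
      rw [← Module.End.mul_apply, ← pow_add, pow_succ, mul_two]
    have h2 : rho (a ^ (2 ^ (j + 1))) e = rho (a ^ (2 ^ j)) (rho (a ^ (2 ^ j)) e) := by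
      rw [← Module.End.mul_apply, ← map_mul, ← pow_add, pow_succ, mul_two]
    rw [h1, ih, ih, map_sub, h2]
    have h3 := add_self_zero (rho (a ^ (2 ^ j)) e)
    have h4 := add_self_zero e
    have h5 : rho (a ^ (2 ^ j)) (rho (a ^ (2 ^ j)) e) - rho (a ^ (2 ^ j)) e -
        (rho (a ^ (2 ^ j)) e - e) = rho (a ^ (2 ^ j)) (rho (a ^ (2 ^ j)) e) - e -
        (rho (a ^ (2 ^ j)) e + rho (a ^ (2 ^ j)) e) + (e + e) := by abel
    rw [h5, h3, h4, sub_zero, add_zero]

end

theorem p_pow {G : Type} [Group G] {S : Sys G} (T : Tow S) {u : G} (hu : u ∈ T.U0) (k : ℕ) :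
    T.p (u ^ k) = (k : Fin (T.n + 1) → ℤ_[2]) * T.p u := by
  induction k with
  | zero =>
    have h := T.p_mul 1 (one_mem _) 1 (one_mem _)
    rw [mul_one] at h
    rw [pow_zero, Nat.cast_zero, zero_mul]
    exact (left_eq_add.1 h)
  | succ k ih =>
    rw [pow_succ, T.p_mul _ (pow_mem hu k) _ hu, ih, Nat.cast_succ, add_mul, one_mul]

theorem a_pow_mem {G : Type} [Group G] {S : Sys G} (T : Tow S) (i : Fin (T.n + 1)) (j : ℕ) :
    T.a i ^ (2 ^ j) ∈ T.A j := by
  rw [T.mem_A]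
  refine ⟨pow_mem (T.a_mem i) _, fun k => ?_⟩
  rw [p_pow T (T.a_mem i), Pi.mul_apply, Pi.natCast_apply, Nat.cast_pow, Nat.cast_ofNat]
  exact dvd_mul_right _ _

end PSX_

open PSX_

theorem psx_proof (hTWF : Stmt_TWF) (hPSA : Stmt_PSA) : Stmt_PSX := by
  intro G _ S T E _ _ rho hdis
  obtain ⟨_, _, hcom, _⟩ := hTWF G S T
  obtain ⟨M, hM⟩ := hPSA (T.n + 1) E (fun i => rho (T.a i) - 1) (by
    intro i k
    refine LinearMap.ext fun e => ?_
    obtain ⟨j, hj⟩ := hdis e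
    have h1 : rho (T.a i) (rho (T.a k) e) = rho (T.a k) (rho (T.a i) e) := by
      have h2 : (T.a i)⁻¹ * (T.a k)⁻¹ * ((T.a i)⁻¹)⁻¹ * ((T.a k)⁻¹)⁻¹ ∈ T.A j :=
        hcom j _ (inv_mem (T.a_mem i)) _ (inv_mem (T.a_mem k))
      have h3 := hj _ h2
      have h4 : T.a i * T.a k = (T.a k * T.a i) *
          ((T.a i)⁻¹ * (T.a k)⁻¹ * ((T.a i)⁻¹)⁻¹ * ((T.a k)⁻¹)⁻¹) := by group
      rw [← Module.End.mul_apply, ← Module.End.mul_apply, ← map_mul, ← map_mul, h4, map_mul,
        Module.End.mul_apply, h3]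
    show rho (T.a i) (rho (T.a k) e - e) - (rho (T.a k) e - e) =
      rho (T.a k) (rho (T.a i) e - e) - (rho (T.a i) e - e)
    rw [map_sub, map_sub, h1]
    abel) (by
    intro e
    obtain ⟨j, hj⟩ := hdis e
    refine ⟨2 ^ j, fun i => ?_⟩
    rw [pow_two_pow, hj _ (a_pow_mem T i j), sub_self])
  exact ⟨M, hdis, fun i e => hM i e⟩

end Pool.Agent.ETF
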