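import Pool.Agent.ETF.Stmts

/-! Quotient representations. -/

set_option autoImplicit false

namespace Pool.Agent.ETF

open Module Pool.Agent.ETT

theorem quo_proof : Stmt_QUO := by
  intro G _ S T C _ _ sig K hD hK
  have hle : ∀ g : G, K ≤ K.comap (sig g) := fun g c hc => hK g c hc
  let tau : Representation (ZMod 2) G (C ⧸ K) :=
    { toFun := fun g => K.mapQ K (sig g) (hle g)
      map_one' := by
        refine LinearMap.ext fun x => ?_
        obtain ⟨c, rfl⟩ := K.mkQ_surjective x
        rw [Submodule.mkQ_apply, Submodule.mapQ_apply, map_one, Module.End.one_apply,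
          Module.End.one_apply]
      map_mul' := by
        intro g h
        refine LinearMap.ext fun x => ?_
        obtain ⟨c, rfl⟩ := K.mkQ_surjective x
        rw [Submodule.mkQ_apply, Submodule.mapQ_apply, map_mul, Module.End.mul_apply,
          Module.End.mul_apply, Submodule.mapQ_apply, Submodule.mapQ_apply] }
  have htau : ∀ (g : G) (c : C), tau g (K.mkQ c) = K.mkQ (sig g c) := fun g c => rfl
  refine ⟨tau, ?_, htau⟩
  intro x
  obtain ⟨c, rfl⟩ := K.mkQ_surjective x
  obtain ⟨j, hj⟩ := hD c
  refine ⟨j, fun g hg => ?_⟩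
  rw [htau, hj g hg]

end Pool.Agent.ETF
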