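import Pool.Agent.ETF.Stmts

set_option autoImplicit false

namespace Pool.Agent.ETF

open Module Pool.Agent.ETT

namespace REG_

theorem add_self (n : ℕ) (E : Type) [AddCommGroup E] [Module (Lam n) E] (x : E) : x + x = 0 := by
  have h2 : (1 : Lam n) + 1 = 0 := by
    ext m
    rw [map_add, map_zero]
    exact CharTwo.add_self_eq_zero _
  calc x + x = ((1 : Lam n) + 1) • x := by rw [add_smul, one_smul]
    _ = 0 := by rw [h2, zero_smul]

theorem key {A M : Type} [CommRing A] [AddCommGroup M] [Module A M] (I : Ideal A) (r : ℕ)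
    (y : Fin r → M) (hy : Submodule.span A (Set.range y) = ⊤) [Finite (A ⧸ I)]
    (hc : Nat.card (A ⧸ I) ^ r ≤ Nat.card (M ⧸ (I • (⊤ : Submodule A M))))
    (f : Fin r → A) (hf : ∑ i, f i • y i = 0) : ∀ i, f i ∈ I := by
  classical
  set phi : (Fin r → A) →ₗ[A] M := Fintype.linearCombination A y with hphi
  have hsurj : Function.Surjective phi := by
    rw [← LinearMap.range_eq_top, hphi, Fintype.range_linearCombination, hy]
  set P : Submodule A (Fin r → A) := Submodule.pi Set.univ (fun _ => I) with hP
  set g : (Fin r → A) →ₗ[A] M ⧸ (I • (⊤ : Submodule A M)) := (Submodule.mkQ _).comp phi with hg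
  have hle : P ≤ LinearMap.ker g := by
    intro f hf
    rw [LinearMap.mem_ker, hg, LinearMap.comp_apply, Submodule.mkQ_apply,
      Submodule.Quotient.mk_eq_zero, hphi, Fintype.linearCombination_apply]
    refine Submodule.sum_mem _ fun i _ => Submodule.smul_mem_smul ?_ Submodule.mem_top
    exact (Submodule.mem_pi.1 hf) i (Set.mem_univ i)
  have hcard : Nat.card ((Fin r → A) ⧸ P) = Nat.card (A ⧸ I) ^ r := by
    have e := Submodule.quotientPi (R := A) (fun _ : Fin r => (I : Submodule A A))
    rw [Nat.card_congr e.toEquiv, Nat.card_fun, Nat.card_fin]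
  have hfin : Finite ((Fin r → A) ⧸ P) := by
    have e := Submodule.quotientPi (R := A) (fun _ : Fin r => (I : Submodule A A))
    exact Finite.of_equiv _ e.toEquiv.symm
  have hls : Function.Surjective (P.liftQ g hle) := by
    rw [← LinearMap.range_eq_top, Submodule.range_liftQ, hg, LinearMap.range_comp,
      LinearMap.range_eq_top.2 hsurj, Submodule.map_top, Submodule.range_mkQ]
  have hbij := hls.bijective_of_nat_card_le (by rw [hcard]; exact hc)
  have h0 : P.liftQ g hle (Submodule.Quotient.mk f) = P.liftQ g hle 0 := by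
    rw [Submodule.liftQ_apply, map_zero, hg, LinearMap.comp_apply, hphi,
      Fintype.linearCombination_apply, hf, map_zero]
  have h1 := hbij.1 h0
  rw [Submodule.Quotient.mk_eq_zero] at h1
  intro i
  exact (Submodule.mem_pi.1 h1) i (Set.mem_univ i)

end REG_

open REG_ in
theorem reg_proof (hLCA : Stmt_LCA) (hDUA : Stmt_DUA) (hFGN : Stmt_FGN) : Stmt_REG := by
  intro n r E _ _ hXT hcard
  have h0 : Nat.card (tr n 1 E) = 2 ^ r := by
    have := hcard 0
    simpa using this
  obtain ⟨y, hy⟩ := hFGN n r E hXT h0
  have hinj : ∀ f : Fin r → Lam n, ∑ i, f i • y i = 0 → f = 0 := by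
    intro f hf
    have hmem : ∀ j i, f i ∈ pw n (2 ^ j) := by
      intro j
      obtain ⟨_, h2⟩ := hLCA n (2 ^ j) (by positivity)
      have hfin : Finite (Lam n ⧸ pw n (2 ^ j)) := by
        apply Nat.finite_of_card_ne_zero
        rw [h2]
        positivity
      have hD := (hDUA (Lam n) E (Set.range fun i : Fin n => (MvPowerSeries.X i : Lam n) ^ (2 ^ j))
        (Set.finite_range _) (add_self n E)).2
      refine key (pw n (2 ^ j)) r y hy ?_ f hf
      have h3 : Nat.card (CharacterModule E ⧸
          (pw n (2 ^ j) • (⊤ : Submodule (Lam n) (CharacterModule E)))) = 2 ^ (r * 2 ^ (j * n)) := by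
        rw [← hcard j]
        exact hD.symm
      rw [h3, h2, ← pow_mul, ← pow_mul, mul_comm r]
    funext i
    ext m
    set j := Finset.univ.sup (fun i => m i) with hj
    have h1 := ((hLCA n (2 ^ j) (by positivity)).1 (f i)).1 (hmem j i) m ?_
    · rw [h1]; rfl
    · intro k
      exact lt_of_le_of_lt (Finset.le_sup (f := fun i => m i) (Finset.mem_univ k))
        Nat.lt_two_pow_self
  have e : (Fin r → Lam n) ≃ₗ[Lam n] CharacterModule E :=
    LinearEquiv.ofBijective (Fintype.linearCombination (Lam n) y) (by
      constructor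
      · rw [← LinearMap.ker_eq_bot, LinearMap.ker_eq_bot']
        intro f hf
        exact hinj f (by rwa [Fintype.linearCombination_apply] at hf)
      · rw [← LinearMap.range_eq_top, Fintype.range_linearCombination, hy])
  refine ⟨Module.Free.of_equiv e, Module.Finite.equiv e, ?_⟩
  rw [← e.finrank_eq, Module.finrank_fin_fun]

end Pool.Agent.ETF
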