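import Pool.Agent.ETF.Stmts

/-! The number of torsion elements if the dual is free. -/

set_option autoImplicit false

namespace Pool.Agent.ETF

open Module Pool.Agent.ETT

namespace RGC_

/-- for a free module `M` of rank `r`, `|M / I M| = |R / I| ^ r` -/
theorem card_quot {R M : Type} [CommRing R] [Nontrivial R] [AddCommGroup M] [Module R M]
    [Module.Free R M] [Module.Finite R M] (I : Ideal R) :
    Nat.card (M ⧸ (I • (⊤ : Submodule R M))) = Nat.card (R ⧸ I) ^ finrank R M := by
  let b := Module.finBasis R M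
  have e : (M ⧸ (I • (⊤ : Submodule R M))) ≃ (Fin (finrank R M) → R ⧸ I) :=
    (TensorProduct.quotTensorEquivQuotSMul M I).toEquiv.symm.trans
      (b.baseChange (R ⧸ I)).equivFun.toEquiv
  rw [Nat.card_congr e, Nat.card_pi]
  simp

end RGC_

theorem rgc_proof (hLCA : Stmt_LCA) (hDUA : Stmt_DUA) : Stmt_RGC := by
  intro n E _ _ hfree hfin q hq
  have h2 : ∀ x : E, x + x = 0 := by
    intro x
    have h3 : (2 : Lam n) = 0 := by
      have h4 : ((2 : ZMod 2) : ZMod 2) = 0 := rfl
      have h5 : (MvPowerSeries.C (2 : ZMod 2) : Lam n) = 2 := by rw [map_ofNat]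
      rw [← h5, h4, map_zero]
    calc x + x = (2 : Lam n) • x := by rw [two_smul]
      _ = 0 := by rw [h3, zero_smul]
  have h := (hDUA (Lam n) E (Set.range fun i : Fin n => (MvPowerSeries.X i : Lam n) ^ q)
    (Set.finite_range _) h2).2
  have hl := (hLCA n q hq).2
  unfold tr
  rw [h]
  have h3 := RGC_.card_quot (R := Lam n) (M := CharacterModule E) (pw n q)
  rw [hl] at h3
  unfold pw at h3
  rw [h3, ← pow_mul, mul_comm]

end Pool.Agent.ETF
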