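import Pool.Agent.ETF.Stmts

set_option autoImplicit false

namespace Pool.Agent.ETF

open Module Pool.Agent.ETT

namespace RGW_

/-- a submodule over `F_2` with `2 ^ d` elements is finite of dimension `d` -/
theorem dim_of_card {E : Type} [AddCommGroup E] [Module (ZMod 2) E]
    (X : Submodule (ZMod 2) E) (d : ℕ) (h : Nat.card X = 2 ^ d) :
    Finite X ∧ finrank (ZMod 2) X = d := by
  have hf : Finite X := Nat.finite_of_card_ne_zero (by rw [h]; positivity)
  refine ⟨hf, ?_⟩
  have h1 : Nat.card X = Nat.card (ZMod 2) ^ finrank (ZMod 2) X :=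
    Module.natCard_eq_pow_finrank (K := ZMod 2) (V := X)
  rw [h, Nat.card_zmod] at h1
  exact (Nat.pow_right_injective (le_refl 2) h1).symm

end RGW_

theorem rgw_proof (hTWF : Stmt_TWF) (hMON : Stmt_MON) (hTOA : Stmt_TOA) (hRGC : Stmt_RGC) :
    Stmt_RGW := by
  intro G _ S T E _ _ _ rho hPS hfree hfin W hW hWU
  obtain ⟨hA0, hrel, -, -⟩ := hTWF G S T
  set r : ℕ := finrank (Lam (T.n + 1)) (CharacterModule E) with hr
  have hcard : ∀ j : ℕ, Nat.card (fix rho (T.A j)) = 2 ^ (r * 2 ^ (j * (T.n + 1))) := by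
    intro j
    have h1 : Nat.card (fix rho (T.A j)) = Nat.card (tr (T.n + 1) (2 ^ j) E) := by
      refine Nat.card_congr (Equiv.subtypeEquivRight fun e => ?_)
      exact (hTOA G S T E rho hPS).2 j e
    rw [h1, hRGC (T.n + 1) E hfree hfin (2 ^ j) (by positivity), ← hr, ← pow_mul 2 j (T.n + 1)]
  have hdim : ∀ j : ℕ, Finite (fix rho (T.A j)) ∧ bb rho (T.A j) = r * 2 ^ (j * (T.n + 1)) :=
    fun j => RGW_.dim_of_card _ _ (hcard j)
  obtain ⟨j, hj⟩ := hW
  have hWadm : W ∈ S.adm := S.up_mem _ (T.A_adm j) W hj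
  have h0 : Finite (fix rho T.U0) ∧ bb rho T.U0 = r := by
    have := hdim 0
    rw [hA0] at this
    simpa using this
  obtain ⟨hfW, hbW⟩ := hMON G S E rho W hWadm T.U0 T.mem0 hWU h0.1
  obtain ⟨-, hbA⟩ := hMON G S E rho (T.A j) (T.A_adm j) W hWadm hj hfW
  refine ⟨hfW, le_antisymm ?_ ?_⟩
  · rw [h0.2] at hbW
    rw [mul_comm]
    exact hbW
  · have hmul := Subgroup.relIndex_mul_relIndex (T.A j) W T.U0 hj hWU
    rw [(hdim j).2, ← hrel j, ← hmul] at hbA
    have hpos : 0 < (T.A j).relIndex W := by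
      rcases Nat.eq_zero_or_pos ((T.A j).relIndex W) with h | h
      · exfalso
        rw [h, zero_mul, hrel j] at hmul
        exact absurd hmul.symm (by positivity)
      · exact h
    refine Nat.le_of_mul_le_mul_left (c := (T.A j).relIndex W) ?_ hpos
    calc (T.A j).relIndex W * (r * W.relIndex T.U0)
        = r * ((T.A j).relIndex W * W.relIndex T.U0) := by ring
      _ ≤ _ := hbA

end Pool.Agent.ETF
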