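import Pool.Agent.ETF.Stmts

/-!
# Squad ETF: module RKA (additivity of the rank)
-/

set_option autoImplicit false

namespace Pool.Agent.ETF

open Pool.Agent.ETT Module

theorem rka_proof : Stmt_RKA := by
  intro R M1 F M _ _ _ _ _ _ _ _ _ α β hα hex hβ hF
  have h1 := Submodule.finrank_quotient_add_finrank (R := R) (M := F) (LinearMap.ker β)
  have h2 : finrank R (F ⧸ LinearMap.ker β) = finrank R M :=
    LinearEquiv.finrank_eq (β.quotKerEquivOfSurjective hβ)
  have h3 : finrank R (LinearMap.ker β) = finrank R M1 := by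
    rw [LinearMap.exact_iff.1 hex]
    exact (LinearEquiv.finrank_eq (LinearEquiv.ofInjective α hα)).symm
  rw [h2, h3] at h1
  omega

end Pool.Agent.ETF
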