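import Pool.Agent.ETF.Stmts

/-!
Module STP of the squad ETF: the syzygy step.
-/

set_option autoImplicit false

namespace Pool.Agent.ETF

open Module Pool.Agent.ETT

namespace STP_

/-- dual of a short exact sequence -/
theorem dual_exact {R A B C : Type} [CommRing R] [AddCommGroup A] [AddCommGroup B]
    [AddCommGroup C] [Module R A] [Module R B] [Module R C] (ι : A →ₗ[R] B) (π : B →ₗ[R] C)
    (hπ : Function.Surjective π) (hex : ∀ b, π b = 0 ↔ ∃ a, ι a = b) :
    Function.Exact (CharacterModule.dual π) (CharacterModule.dual ι) := by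
  intro y
  constructor
  · intro hy
    let y' : B →+ AddCircle (1 : ℚ) := y
    have hk : π.toAddMonoidHom.ker ≤ y'.ker := by
      intro b hb
      obtain ⟨a, rfl⟩ := (hex b).1 (AddMonoidHom.mem_ker.1 hb)
      exact AddMonoidHom.mem_ker.2 (DFunLike.congr_fun hy a)
    let z : C →+ AddCircle (1 : ℚ) := π.toAddMonoidHom.liftOfSurjective hπ ⟨y', hk⟩
    refine ⟨z, ?_⟩
    apply CharacterModule.ext
    intro b
    exact AddMonoidHom.liftOfRightInverse_comp_apply π.toAddMonoidHom _
      (Function.rightInverse_surjInv hπ) ⟨y', hk⟩ b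
  · rintro ⟨z, rfl⟩
    apply CharacterModule.ext
    intro a
    show z (π (ι a)) = 0
    rw [(hex (ι a)).2 ⟨a, rfl⟩]
    exact map_zero z

/-- the socle of a module with finitely generated dual is finite -/
theorem fin_tr (hLCA : Stmt_LCA) (hDUA : Stmt_DUA) (n : ℕ) (E : Type) [AddCommGroup E]
    [Module (Lam n) E] (h2 : ∀ x : E, x + x = 0)
    [Module.Finite (Lam n) (CharacterModule E)] : Finite (tr n 1 E) := by
  have hq := (hLCA n 1 one_pos).2
  have : Finite (Lam n ⧸ pw n 1) := by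
    apply Nat.finite_of_card_ne_zero
    rw [hq]
    positivity
  have h := (hDUA (Lam n) E (Set.range fun i : Fin n => (MvPowerSeries.X i : Lam n) ^ 1)
    (Set.finite_range _) h2).1
  rw [tr, h]
  show Finite (CharacterModule E ⧸ (pw n 1 • (⊤ : Submodule (Lam n) (CharacterModule E))))
  exact Module.finite_of_finite (Lam n ⧸ pw n 1)

/-- a linear map from an equivariant one -/
theorem lin_map (hLIN : Stmt_LIN) {n : ℕ} {E E' : Type} [AddCommGroup E] [AddCommGroup E']
    [Module (Lam n) E] [Module (Lam n) E'] (hXT : XT n E) (φ : E →+ E')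
    (hφ : ∀ (i : Fin n) (e : E),
      φ ((MvPowerSeries.X i : Lam n) • e) = (MvPowerSeries.X i : Lam n) • φ e) :
    ∃ ψ : E →ₗ[Lam n] E', ∀ e, ψ e = φ e :=
  ⟨{ toFun := φ, map_add' := map_add φ, map_smul' := hLIN n E E' hXT φ hφ }, fun _ => rfl⟩

end STP_

open STP_ in
theorem stp_proof (hTWF : Stmt_TWF) (hEMB : Stmt_EMB) (hCGM : Stmt_CGM) (hQUO : Stmt_QUO)
    (hPSX : Stmt_PSX) (hTOA : Stmt_TOA) (hLIN : Stmt_LIN) (hCGF : Stmt_CGF) (hLCA : Stmt_LCA)
    (hDUA : Stmt_DUA) : Stmt_STP := by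
  intro G _ S T E _ _ _ rho hPS hfin
  have htop : Finite (fix rho (⊤ : Subgroup G)) := by
    have hle : fix rho (⊤ : Subgroup G) ≤ fix rho T.U0 := fun r hr g _ => hr g trivial
    exact Finite.of_injective _ (Submodule.inclusion_injective hle)
  obtain ⟨c, ι, hι, hιe⟩ := hEMB G S T E rho hPS.dis htop
  obtain ⟨hD, -⟩ := hCGM G S T c
  obtain ⟨mC, hPSC⟩ := hPSX G S T (Cg T c) (Cr T c) hD
  let := mC
  have hst : ∀ g : G, ∀ x ∈ LinearMap.range ι, Cr T c g x ∈ LinearMap.range ι := by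
    rintro g _ ⟨e, rfl⟩
    exact ⟨rho g e, hιe g e⟩
  obtain ⟨tau, hDt, htau⟩ := hQUO G S T (Cg T c) (Cr T c) (LinearMap.range ι) hD hst
  obtain ⟨mE1, hPS1⟩ := hPSX G S T (Cg T c ⧸ LinearMap.range ι) tau hDt
  let := mE1
  have hXE := (hTOA G S T E rho hPS).1
  have hXC := (hTOA G S T (Cg T c) (Cr T c) hPSC).1
  obtain ⟨ιL, hιL⟩ := lin_map hLIN hXE ι.toAddMonoidHom (by
    intro i e
    show ι _ = _ • ι e
    rw [hPS.act, hPSC.act, map_sub, hιe])
  obtain ⟨πL, hπL⟩ := lin_map hLIN hXC (LinearMap.range ι).mkQ.toAddMonoidHom (by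
    intro i e
    show (LinearMap.range ι).mkQ _ = _ • (LinearMap.range ι).mkQ e
    rw [hPSC.act, hPS1.act, map_sub, htau])
  have hιLi : Function.Injective ιL := by
    intro x y h
    rw [hιL, hιL] at h
    exact hι h
  have hπLs : Function.Surjective πL := by
    intro y
    obtain ⟨x, rfl⟩ := Submodule.mkQ_surjective _ y
    exact ⟨x, hπL x⟩
  have hex : ∀ b, πL b = 0 ↔ ∃ a, ιL a = b := by
    intro b
    rw [hπL]
    show (LinearMap.range ι).mkQ b = 0 ↔ _
    rw [Submodule.mkQ_apply, Submodule.Quotient.mk_eq_zero]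
    constructor
    · rintro ⟨a, ha⟩
      exact ⟨a, by rw [hιL]; exact ha⟩
    · rintro ⟨a, ha⟩
      exact ⟨a, by rw [hιL] at ha; exact ha⟩
  obtain ⟨hfree, hfg, hrk⟩ := hCGF G S T c hPSC
  have := hfree
  have := hfg
  have hinj : Function.Injective (CharacterModule.dual πL) :=
    CharacterModule.dual_injective_of_surjective πL hπLs
  have hsurj : Function.Surjective (CharacterModule.dual ιL) :=
    CharacterModule.dual_surjective_of_injective ιL hιLi
  have hexact := dual_exact ιL πL hπLs hex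
  have : Module.Finite (Lam (T.n + 1)) (CharacterModule (Cg T c ⧸ LinearMap.range ι)) :=
    Module.Finite.of_injective (CharacterModule.dual πL) hinj
  have h2 : ∀ x : Cg T c ⧸ LinearMap.range ι, x + x = 0 := by
    intro x
    have h : (2 : ZMod 2) = 0 := rfl
    calc x + x = (2 : ZMod 2) • x := by rw [two_smul]
      _ = 0 := by rw [h, zero_smul]
  have hft : Finite (tr (T.n + 1) 1 (Cg T c ⧸ LinearMap.range ι)) :=
    fin_tr hLCA hDUA (T.n + 1) (Cg T c ⧸ LinearMap.range ι) h2
  have hfin1 : Finite (fix tau T.U0) := by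
    have h0 := (hTWF G S T).1
    have h1 := (hTOA G S T (Cg T c ⧸ LinearMap.range ι) tau hPS1).2 0
    rw [pow_zero, h0] at h1
    refine Finite.of_injective (fun x : fix tau T.U0 =>
      (⟨x.1, (h1 x.1).1 x.2⟩ : tr (T.n + 1) 1 (Cg T c ⧸ LinearMap.range ι))) ?_
    intro x y hxy
    have h := congrArg Subtype.val hxy
    exact Subtype.ext h
  exact ⟨Cg T c ⧸ LinearMap.range ι, inferInstance, inferInstance, mE1, tau, hPS1, hfin1,
    CharacterModule (Cg T c), inferInstance, inferInstance, CharacterModule.dual πL,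
    CharacterModule.dual ιL, hfree, hfg, ⟨c, by rw [hrk, mul_comm]⟩, hinj, hexact, hsurj⟩

end Pool.Agent.ETF
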