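import Pool.Agent.ETF.Stmts

set_option autoImplicit false

namespace Pool.Agent.ETF

open Module Pool.Agent.ETT

namespace SUP_

variable {G : Type} [Group G] {S : Sys G} (T : Tow S) {R : Type} [AddCommGroup R]
    [Module (ZMod 2) R] (rho : Representation (ZMod 2) G R)

def EE : Submodule (ZMod 2) R where
  carrier := {x | ∃ j, x ∈ fix rho (T.A j)}
  add_mem' := by
    rintro x y ⟨i, hi⟩ ⟨j, hj⟩
    refine ⟨max i j, Submodule.add_mem _ ?_ ?_⟩
    · exact fun g hg => hi g (T.anti (le_max_left i j) hg)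
    · exact fun g hg => hj g (T.anti (le_max_right i j) hg)
  zero_mem' := ⟨0, Submodule.zero_mem _⟩
  smul_mem' := by
    rintro c x ⟨i, hi⟩
    exact ⟨i, Submodule.smul_mem _ c hi⟩

theorem stab_fix (g : G) (j : ℕ) (x : R) (hx : x ∈ fix rho (T.A j)) :
    rho g x ∈ fix rho (T.A j) := by
  intro u hu
  have h1 : g⁻¹ * u * g ∈ T.A j := by
    have := (T.A_nor j).conj_mem u hu g⁻¹
    simpa using this
  have h2 : rho (g⁻¹ * u * g) x = x := hx _ h1
  calc rho u (rho g x) = rho (u * g) x := by rw [map_mul]; rfl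
    _ = rho (g * (g⁻¹ * u * g)) x := by
        congr 2
        group
    _ = rho g (rho (g⁻¹ * u * g) x) := by rw [map_mul]; rfl
    _ = rho g x := by rw [h2]

theorem stab (g : G) : ∀ x ∈ EE T rho, rho g x ∈ EE T rho := by
  rintro x ⟨j, hj⟩
  exact ⟨j, stab_fix T rho g j x hj⟩

def sig : Representation (ZMod 2) G (EE T rho) where
  toFun g := (rho g).restrict (stab T rho g)
  map_one' := by
    ext x
    simp
  map_mul' := by
    intro g h
    ext x
    simp

theorem sig_apply (g : G) (x : EE T rho) : ((sig T rho g x : EE T rho) : R) = rho g (x : R) := rfl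

theorem mem_fix_sig (W : Subgroup G) (x : EE T rho) :
    x ∈ fix (sig T rho) W ↔ (x : R) ∈ fix rho W := by
  constructor
  · intro h g hg
    have := h g hg
    have h2 := congrArg Subtype.val this
    exact h2
  · intro h g hg
    apply Subtype.ext
    exact h g hg

end SUP_

open SUP_ in
theorem sup_proof : Stmt_SUP := by
  intro G _ S T R _ _ rho
  refine ⟨EE T rho, inferInstance, inferInstance, sig T rho, ?_, ?_⟩
  · rintro ⟨x, j, hj⟩
    exact ⟨j, (mem_fix_sig T rho (T.A j) ⟨x, j, hj⟩).2 hj⟩
  · rintro W ⟨j, hj⟩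
    have hle : fix rho W ≤ EE T rho := by
      intro x hx
      exact ⟨j, fun g hg => hx g (hj hg)⟩
    refine ⟨LinearEquiv.ofBijective
      (LinearMap.codRestrict (fix (sig T rho) W) ((Submodule.inclusion hle))
        (fun x => (mem_fix_sig T rho W _).2 x.2)) ⟨?_, ?_⟩⟩
    · intro x y hxy
      have h1 := congrArg (fun z : fix (sig T rho) W => ((z : EE T rho) : R)) hxy
      exact Subtype.ext h1
    · intro y
      refine ⟨⟨((y : EE T rho) : R), (mem_fix_sig T rho W _).1 y.2⟩, ?_⟩
      apply Subtype.ext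
      apply Subtype.ext
      rfl

end Pool.Agent.ETF
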