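import Pool.Agent.ETF.Stmts

set_option autoImplicit false

namespace Pool.Agent.ETF

namespace SYA_

theorem inj {R M1 F M : Type} [CommRing R] [AddCommGroup M1] [AddCommGroup F] [AddCommGroup M]
    [Module R M1] [Module R F] [Module R M] (α : M1 →ₗ[R] F) (β : F →ₗ[R] M) (r : R)
    (hα : Function.Injective α) (hαβ : Function.Exact α β) (hr : IsSMulRegular M r) :
    Function.Injective (QuotSMulTop.map r α) := by
  rw [injective_iff_map_eq_zero]
  intro x hx
  obtain ⟨x, rfl⟩ := Submodule.Quotient.mk_surjective _ x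
  rw [QuotSMulTop.map_apply_mk, Submodule.Quotient.mk_eq_zero,
    Submodule.mem_smul_pointwise_iff_exists] at hx
  obtain ⟨f, -, hf⟩ := hx
  have h1 : r • β f = 0 := by
    rw [← map_smul, hf]
    exact (hαβ (α x)).2 ⟨x, rfl⟩
  have h2 : β f = 0 := hr.right_eq_zero_of_smul h1
  obtain ⟨x', hx'⟩ := (hαβ f).1 h2
  have h3 : x = r • x' := by
    apply hα
    rw [map_smul, hx', hf]
  rw [Submodule.Quotient.mk_eq_zero, h3]
  exact Submodule.smul_mem_pointwise_smul x' r ⊤ trivial

end SYA_

theorem sya_proof : Stmt_SYA := by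
  intro R M1 F M _ _ _ _ _ _ _ α β rs y hα hαβ hβ hM hF
  induction rs generalizing M1 F M with
  | nil =>
    rw [List.nil_append, RingTheory.Sequence.isWeaklyRegular_singleton_iff] at *
    exact hF.of_injective α hα
  | cons r rs ih =>
    rw [RingTheory.Sequence.isWeaklyRegular_cons_iff] at hM
    rw [List.cons_append, RingTheory.Sequence.isWeaklyRegular_cons_iff] at hF ⊢
    exact ⟨hF.1.of_injective α hα,
      ih (QuotSMulTop r M1) (QuotSMulTop r F) (QuotSMulTop r M) (QuotSMulTop.map r α)
        (QuotSMulTop.map r β) (SYA_.inj α β r hα hαβ hM.1) (QuotSMulTop.map_exact r hαβ hβ)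
        (QuotSMulTop.map_surjective r hβ) hM.2 hF.2⟩

end Pool.Agent.ETF
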