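import Pool.Agent.ETF.Stmts

/-!
# ETF, module SYB: a finite module over the power series ring on which the variables form a
regular sequence is free
-/

set_option autoImplicit false

namespace Pool.Agent.ETF

open Module Pool.Agent.ETT

namespace SYB_

open IsLocalRing in
theorem free_of_regular : ∀ (k : ℕ) (R : Type) [CommRing R] [IsLocalRing R] [IsNoetherianRing R]
    (M : Type) [AddCommGroup M] [Module R M] (_ : Module.Finite R M) (rs : List R),
    rs.length = k → Ideal.ofList rs = maximalIdeal R →
    RingTheory.Sequence.IsWeaklyRegular M rs → Module.Free R M := by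
  intro k
  induction k with
  | zero =>
    intro R _ _ _ M _ _ _ rs hk hm _
    have h0 : rs = [] := List.length_eq_zero_iff.1 hk
    subst h0
    rw [Ideal.ofList_nil] at hm
    have hf : IsField R := IsLocalRing.isField_iff_maximalIdeal_eq.2 hm.symm
    letI : Field R := hf.toField
    infer_instance
  | succ k ih =>
    intro R _ _ _ M _ _ hM rs hk hm hreg
    cases rs with
    | nil => simp at hk
    | cons x rs =>
      rw [RingTheory.Sequence.isWeaklyRegular_cons_iff'] at hreg
      have hx : x ∈ maximalIdeal R := by
        rw [← hm]
        exact Ideal.subset_span (by simp)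
      have hjac : x ∈ (⊥ : Ideal R).jacobson := by
        rw [IsLocalRing.jacobson_eq_maximalIdeal _ bot_ne_top]
        exact hx
      have hne : Ideal.span {x} ≠ (⊤ : Ideal R) := by
        intro h
        rw [Ideal.span_singleton_eq_top] at h
        exact hx h
      haveI : Nontrivial (R ⧸ Ideal.span {x}) := Ideal.Quotient.nontrivial_iff.2 hne
      haveI : IsLocalRing (R ⧸ Ideal.span {x}) :=
        IsLocalRing.of_surjective' (Ideal.Quotient.mk _) Ideal.Quotient.mk_surjective
      have hmax : Ideal.ofList (rs.map (Ideal.Quotient.mk (Ideal.span {x})))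
          = maximalIdeal (R ⧸ Ideal.span {x}) := by
        have h1 : (maximalIdeal R).map (Ideal.Quotient.mk (Ideal.span {x}))
            = maximalIdeal (R ⧸ Ideal.span {x}) := by
          haveI : (maximalIdeal R).IsMaximal := inferInstance
          have h2 := Ideal.map_eq_top_or_isMaximal_of_surjective
            (Ideal.Quotient.mk (Ideal.span {x})) Ideal.Quotient.mk_surjective
            (I := maximalIdeal R) inferInstance
          rcases h2 with h2 | h2
          · exfalso
            have h3 := congrArg (Ideal.comap (Ideal.Quotient.mk (Ideal.span {x}))) h2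
            rw [Ideal.comap_map_of_surjective _ Ideal.Quotient.mk_surjective, Ideal.comap_top] at h3
            have h4 : Ideal.comap (Ideal.Quotient.mk (Ideal.span {x})) ⊥ ≤ maximalIdeal R := by
              rw [← RingHom.ker_eq_comap_bot, Ideal.mk_ker]
              exact (Ideal.span_singleton_le_iff_mem _).2 hx
            rw [sup_eq_left.2 h4] at h3
            exact (IsLocalRing.maximalIdeal.isMaximal R).ne_top h3
          · exact IsLocalRing.eq_maximalIdeal h2
        rw [← h1, ← hm, Ideal.map_ofList, List.map_cons, Ideal.ofList_cons]
        have h5 : Ideal.span {(Ideal.Quotient.mk (Ideal.span {x})) x} = ⊥ := by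
          rw [Ideal.span_singleton_eq_bot, Ideal.Quotient.eq_zero_iff_mem]
          exact Ideal.mem_span_singleton_self x
        rw [h5, bot_sup_eq]
      haveI : Module.Finite (R ⧸ Ideal.span {x}) (QuotSMulTop x M) :=
        Module.Finite.of_restrictScalars_finite R _ _
      haveI : Module.FinitePresentation R M := Module.finitePresentation_of_finite R M
      have hfree : Module.Free (R ⧸ Ideal.span {x}) (QuotSMulTop x M) :=
        ih (R ⧸ Ideal.span {x}) (QuotSMulTop x M) inferInstance _
          (by rw [List.length_map]; simpa using hk) hmax hreg.2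
      exact (Module.free_quotSMulTop_iff_free R M hjac hreg.1).1 hfree

end SYB_

open SYB_ in
theorem syb_proof (hLCA : Stmt_LCA) : Stmt_SYB := by
  classical
  intro n M _ _ hfin hreg
  refine free_of_regular _ (Lam n) M hfin (xs n n) rfl ?_ hreg
  apply le_antisymm
  · rw [Ideal.span_le]
    intro r hr
    have hr' : r ∈ xs n n := hr
    unfold xs at hr'
    rw [List.mem_map] at hr'
    obtain ⟨i, _, rfl⟩ := hr'
    show (MvPowerSeries.X i : Lam n) ∈ IsLocalRing.maximalIdeal (Lam n)
    rw [IsLocalRing.mem_maximalIdeal, mem_nonunits_iff, MvPowerSeries.isUnit_iff_constantCoeff]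
    simp
  · intro f hf
    rw [IsLocalRing.mem_maximalIdeal, mem_nonunits_iff,
      MvPowerSeries.isUnit_iff_constantCoeff] at hf
    have hc : MvPowerSeries.constantCoeff f = 0 := by
      by_contra h
      exact hf (isUnit_iff_ne_zero.2 h)
    have h1 : f ∈ pw n 1 := by
      rw [((hLCA n 1 one_pos).1 f)]
      intro m hm
      have hm0 : m = 0 := by
        ext i
        exact Nat.lt_one_iff.1 (hm i)
      rw [hm0]
      exact hc
    unfold pw at h1
    refine Ideal.span_mono ?_ h1
    rintro x ⟨i, rfl⟩
    show (MvPowerSeries.X i : Lam n) ^ 1 ∈ xs n n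
    rw [pow_one]
    unfold xs
    rw [List.mem_map]
    refine ⟨i, ?_, rfl⟩
    rw [List.take_of_length_le (by simp)]
    exact List.mem_finRange i

end Pool.Agent.ETF
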