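import Pool.Agent.ETF.Stmts

/-!
Module TOA of the squad ETF: fixed vectors and torsion.
-/

set_option autoImplicit false

namespace Pool.Agent.ETF

open Module Pool.Agent.ETT

namespace TOA_

theorem add_self {E : Type} [AddCommGroup E] [Module (ZMod 2) E] (x : E) : x + x = 0 := by
  have h : (2 : ZMod 2) = 0 := rfl
  calc x + x = (2 : ZMod 2) • x := by rw [two_smul]
    _ = 0 := by rw [h, zero_smul]

theorem pow_act {G E : Type} [Group G] [AddCommGroup E] [Module (ZMod 2) E] {S : Sys G}
    {T : Tow S} [Module (Lam (T.n + 1)) E] {rho : Representation (ZMod 2) G E} (h : PS T rho)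
    (i : Fin (T.n + 1)) (j : ℕ) (e : E) :
    ((MvPowerSeries.X i : Lam (T.n + 1)) ^ (2 ^ j)) • e = rho (T.a i ^ (2 ^ j)) e - e := by
  induction j generalizing e with
  | zero => rw [pow_zero, pow_one, pow_one, h.act]
  | succ j ih =>
    have e1 : (MvPowerSeries.X i : Lam (T.n + 1)) ^ (2 ^ (j + 1)) =
        (MvPowerSeries.X i : Lam (T.n + 1)) ^ (2 ^ j) *
          (MvPowerSeries.X i : Lam (T.n + 1)) ^ (2 ^ j) := by
      rw [← pow_add]; congr 1; ring
    have e2 : T.a i ^ (2 ^ (j + 1)) = T.a i ^ (2 ^ j) * T.a i ^ (2 ^ j) := by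
      rw [← pow_add]; congr 1; ring
    rw [e1, mul_smul, ih, ih, e2, map_mul, Module.End.mul_apply, map_sub]
    have h1 := add_self (rho (T.a i ^ (2 ^ j)) e)
    have h2 := add_self e
    calc rho (T.a i ^ 2 ^ j) (rho (T.a i ^ 2 ^ j) e) - rho (T.a i ^ 2 ^ j) e -
          (rho (T.a i ^ 2 ^ j) e - e)
        = rho (T.a i ^ 2 ^ j) (rho (T.a i ^ 2 ^ j) e) -
          (rho (T.a i ^ 2 ^ j) e + rho (T.a i ^ 2 ^ j) e) + (e + e) - e := by abel
      _ = rho (T.a i ^ 2 ^ j) (rho (T.a i ^ 2 ^ j) e) - e := by rw [h1, h2]; abel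

theorem p_pow {G : Type} [Group G] {S : Sys G} (T : Tow S) (u : G) (hu : u ∈ T.U0) (m : ℕ) :
    T.p (u ^ m) = (m : ℤ_[2]) • T.p u := by
  induction m with
  | zero =>
    have h := T.p_mul 1 T.U0.one_mem 1 T.U0.one_mem
    rw [mul_one] at h
    rw [pow_zero, Nat.cast_zero, zero_smul]
    exact left_eq_add.1 h
  | succ m ih =>
    rw [pow_succ, T.p_mul _ (T.U0.pow_mem hu m) _ hu, ih, Nat.cast_succ, add_smul, one_smul]

theorem a_pow_mem {G : Type} [Group G] {S : Sys G} (T : Tow S) (i : Fin (T.n + 1)) (j : ℕ) :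
    T.a i ^ (2 ^ j) ∈ T.A j := by
  rw [T.mem_A]
  refine ⟨T.U0.pow_mem (T.a_mem i) _, fun k => ?_⟩
  rw [p_pow T _ (T.a_mem i)]
  refine ⟨T.p (T.a i) k, ?_⟩
  rw [Pi.smul_apply, smul_eq_mul]
  push_cast
  ring

end TOA_

open TOA_ in
theorem toa_proof (hTWF : Stmt_TWF) : Stmt_TOA := by
  intro G _ S T E _ _ _ rho hPS
  obtain ⟨-, -, -, h4⟩ := hTWF G S T
  have hfwd : ∀ (j : ℕ) (e : E), e ∈ fix rho (T.A j) → ∀ i : Fin (T.n + 1),
      ((MvPowerSeries.X i : Lam (T.n + 1)) ^ (2 ^ j)) • e = 0 := by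
    intro j e he i
    rw [pow_act hPS, he _ (a_pow_mem T i j), sub_self]
  constructor
  · intro e
    obtain ⟨j, hj⟩ := hPS.dis e
    exact ⟨2 ^ j, hfwd j e hj⟩
  · intro j e
    rw [tr, Submodule.mem_torsionBySet_iff]
    constructor
    · rintro he ⟨_, i, rfl⟩
      exact hfwd j e he i
    · intro he
      obtain ⟨m, hm⟩ := hPS.dis e
      let H : Subgroup G :=
        { carrier := {g | rho g e = e}
          mul_mem' := by
            intro a b ha hb
            show rho (a * b) e = e
            rw [map_mul, Module.End.mul_apply, show rho b e = e from hb]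
            exact ha
          one_mem' := by
            show rho 1 e = e
            rw [map_one]
            rfl
          inv_mem' := by
            intro a ha
            show rho a⁻¹ e = e
            have h1 : rho a e = e := ha
            have h2 : rho a⁻¹ (rho a e) = e := by
              rw [← Module.End.mul_apply, ← map_mul, inv_mul_cancel, map_one]
              rfl
            rwa [h1] at h2 }
      have hH := h4 H j m (fun g hg => hm g hg) (fun i => by
        show rho (T.a i ^ 2 ^ j) e = e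
        have h := he ⟨_, i, rfl⟩
        have h' : ((MvPowerSeries.X i : Lam (T.n + 1)) ^ (2 ^ j)) • e = 0 := h
        rw [pow_act hPS] at h'
        exact sub_eq_zero.1 h')
      exact fun g hg => hH hg

end Pool.Agent.ETF
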