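import Pool.Agent.ETF.Stmts

/-!
# ETF/TWF: elementary facts on tower data
-/

set_option autoImplicit false

namespace Pool.Agent.ETF

open Module Pool.Agent.ETT

namespace TWF_

variable {G : Type} [Group G] {S : Sys G} (T : Tow S)

theorem p_one : T.p 1 = 0 := by
  have h := T.p_mul 1 T.U0.one_mem 1 T.U0.one_mem
  rw [mul_one] at h
  exact (left_eq_add (b := T.p 1)).1 h

theorem p_inv {u : G} (hu : u ∈ T.U0) : T.p u⁻¹ = - T.p u := by
  have h := T.p_mul u hu u⁻¹ (T.U0.inv_mem hu)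
  rw [mul_inv_cancel, p_one] at h
  exact (neg_eq_of_add_eq_zero_right h.symm).symm

theorem p_pow {u : G} (hu : u ∈ T.U0) (k : ℕ) : T.p (u ^ k) = k • T.p u := by
  induction k with
  | zero => rw [pow_zero, zero_smul, p_one]
  | succ k ih => rw [pow_succ, T.p_mul _ (T.U0.pow_mem hu k) _ hu, ih, succ_nsmul]

/-- the values of `p` on a subgroup of `U0` -/
def vals (K : Subgroup G) (hK : K ≤ T.U0) : AddSubgroup (Fin (T.n + 1) → ℤ_[2]) where
  carrier := {x | ∃ v ∈ K, T.p v = x}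
  add_mem' := by
    rintro _ _ ⟨v, hv, rfl⟩ ⟨w, hw, rfl⟩
    exact ⟨v * w, K.mul_mem hv hw, T.p_mul v (hK hv) w (hK hw)⟩
  zero_mem' := ⟨1, K.one_mem, p_one T⟩
  neg_mem' := by
    rintro _ ⟨v, hv, rfl⟩
    exact ⟨v⁻¹, K.inv_mem hv, p_inv T (hK hv)⟩

theorem gen (K : Subgroup G) (hK : K ≤ T.U0) (c : ℤ_[2]) (b : Fin (T.n + 1) → G)
    (hb : ∀ i, b i ∈ K) (hp : ∀ i, T.p (b i) = Pi.single i c) (k : Fin (T.n + 1) → ℕ) :
    ∃ v ∈ K, ∀ i, T.p v i = (k i : ℤ_[2]) * c := by
  have h : (∑ i, k i • (Pi.single i c : Fin (T.n + 1) → ℤ_[2])) ∈ vals T K hK :=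
    AddSubgroup.sum_mem _ fun i _ => AddSubgroup.nsmul_mem _
      (show (Pi.single i c : Fin (T.n + 1) → ℤ_[2]) ∈ vals T K hK from ⟨b i, hb i, hp i⟩) _
  obtain ⟨v, hv, hv2⟩ := h
  refine ⟨v, hv, fun i => ?_⟩
  rw [hv2, Finset.sum_apply, Finset.sum_eq_single i]
  · simp
  · intro l _ hl
    simp [Pi.single_eq_of_ne' hl]
  · intro h
    exact absurd (Finset.mem_univ i) h

/-- reduction of `p` modulo `2 ^ j` -/
noncomputable def red (j : ℕ) : T.U0 →* Multiplicative (Fin (T.n + 1) → ZMod (2 ^ j)) where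
  toFun u := Multiplicative.ofAdd fun i => PadicInt.toZModPow j (T.p u.1 i)
  map_one' := by
    have : T.p ((1 : T.U0) : G) = 0 := p_one T
    rw [this]
    simp only [Pi.zero_apply, map_zero]
    rfl
  map_mul' u v := by
    have : T.p ((u * v : T.U0) : G) = T.p u.1 + T.p v.1 := T.p_mul u.1 u.2 v.1 v.2
    rw [this, ← ofAdd_add]
    congr 1
    funext i
    simp

theorem ker_red (j : ℕ) : (red T j).ker = (T.A j).subgroupOf T.U0 := by
  ext u
  rw [MonoidHom.mem_ker, Subgroup.mem_subgroupOf, T.mem_A]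
  have h : red T j u = 1 ↔ ∀ i, PadicInt.toZModPow j (T.p u.1 i) = 0 := by
    constructor
    · intro h i
      exact congrFun (congrArg Multiplicative.toAdd h) i
    · intro h
      refine congrArg Multiplicative.ofAdd (funext fun i => h i)
  rw [h]
  constructor
  · intro h2
    refine ⟨u.2, fun i => ?_⟩
    have h3 : T.p u.1 i ∈ RingHom.ker (PadicInt.toZModPow (p := 2) j) := h2 i
    rw [PadicInt.ker_toZModPow, Ideal.mem_span_singleton] at h3
    exact_mod_cast h3
  · intro h2 i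
    have h3 : T.p u.1 i ∈ RingHom.ker (PadicInt.toZModPow (p := 2) j) := by
      rw [PadicInt.ker_toZModPow, Ideal.mem_span_singleton]
      exact_mod_cast h2.2 i
    exact h3

theorem red_surj (j : ℕ) : Function.Surjective (red T j) := by
  intro x
  have : NeZero (2 ^ j) := ⟨by positivity⟩
  obtain ⟨v, hv, hv2⟩ := gen T T.U0 le_rfl 1 T.a T.a_mem T.p_a
    (fun i => (Multiplicative.toAdd x i).val)
  refine ⟨⟨v, hv⟩, ?_⟩
  show Multiplicative.ofAdd (fun i => PadicInt.toZModPow j (T.p v i)) = x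
  have h : (fun i => PadicInt.toZModPow j (T.p v i)) = Multiplicative.toAdd x := by
    funext i
    rw [hv2 i, mul_one, map_natCast, ZMod.natCast_val, ZMod.cast_id]
  rw [h]
  rfl

end TWF_

open TWF_ in
theorem twf_proof : Stmt_TWF := by
  intro G _ S T
  refine ⟨?_, ?_, ?_, ?_⟩
  · ext u
    rw [T.mem_A]
    simp
  · intro j
    have : NeZero (2 ^ j) := ⟨by positivity⟩
    rw [Subgroup.relIndex, ← ker_red, Subgroup.index_ker,
      MonoidHom.range_eq_top.2 (red_surj T j), Subgroup.card_top]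
    show Nat.card (Fin (T.n + 1) → ZMod (2 ^ j)) = _
    rw [Nat.card_pi, Finset.prod_const, Finset.card_univ, Fintype.card_fin, Nat.card_zmod,
      ← pow_mul]
  · intro j u hu v hv
    rw [T.mem_A]
    have hu' := T.U0.inv_mem hu
    have hv' := T.U0.inv_mem hv
    refine ⟨T.U0.mul_mem (T.U0.mul_mem (T.U0.mul_mem hu hv) hu') hv', fun i => ?_⟩
    rw [T.p_mul _ (T.U0.mul_mem (T.U0.mul_mem hu hv) hu') _ hv',
      T.p_mul _ (T.U0.mul_mem hu hv) _ hu', T.p_mul _ hu _ hv, p_inv T hu, p_inv T hv]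
    have : (T.p u + T.p v + -T.p u + -T.p v) i = 0 := by
      simp only [Pi.add_apply, Pi.neg_apply]
      ring
    rw [this]
    exact dvd_zero _
  · intro H j m hm ha u hu
    have hu2 := (T.mem_A j u).1 hu
    choose w hw using hu2.2
    obtain ⟨v, hv, hv2⟩ := gen T (H ⊓ T.U0) inf_le_right ((2 : ℤ_[2]) ^ j)
      (fun i => T.a i ^ (2 ^ j)) (fun i => ⟨ha i, T.U0.pow_mem (T.a_mem i) _⟩)
      (fun i => by
        rw [p_pow T (T.a_mem i), T.p_a, ← Pi.single_smul]
        congr 1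
        simp) (fun i => (w i).appr m)
    have huv : u * v⁻¹ ∈ T.A m := by
      rw [T.mem_A]
      refine ⟨T.U0.mul_mem hu2.1 (T.U0.inv_mem hv.2), fun i => ?_⟩
      rw [T.p_mul _ hu2.1 _ (T.U0.inv_mem hv.2), p_inv T hv.2, Pi.add_apply, Pi.neg_apply,
        hw i, hv2 i]
      have h := PadicInt.appr_spec m (w i)
      rw [Ideal.mem_span_singleton] at h
      have h2 : (2 : ℤ_[2]) ^ m ∣ w i - ((w i).appr m : ℤ_[2]) := by exact_mod_cast h
      have e : (2 : ℤ_[2]) ^ j * w i + -(((w i).appr m : ℤ_[2]) * 2 ^ j) =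
          (w i - ((w i).appr m : ℤ_[2])) * 2 ^ j := by ring
      rw [e]
      exact h2.mul_right _
    have h3 := H.mul_mem (hm huv) hv.1
    rwa [inv_mul_cancel_right] at h3

end Pool.Agent.ETF
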