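/-
MP_d26ff6_al, module Z4L (helper89).
-/
import Pool.Agent.ETF.Stmts

set_option linter.style.longLine false

namespace Pool.Agent.ETF

open Module

namespace Z4L_

theorem add_self {X : Type} [AddCommGroup X] [Module (ZMod 2) X] (x : X) : x + x = 0 := by
  have h : (2 : ZMod 2) • x = x + x := two_smul _ x
  have h2 : (2 : ZMod 2) = 0 := rfl
  rw [← h, h2, zero_smul]

theorem neg_self {X : Type} [AddCommGroup X] [Module (ZMod 2) X] (x : X) : -x = x :=
  neg_eq_of_add_eq_zero_left (add_self x)

/-- `(g-1)(g-1)x = (g^2-1)x`. -/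
theorem sq {X : Type} [AddCommGroup X] [Module (ZMod 2) X] (g : Module.End (ZMod 2) X) (x : X) :
    (g - 1) ((g - 1) x) = (g ^ 2 - 1 : Module.End (ZMod 2) X) x := by
  have h1 : (g - 1) x = g x - x := rfl
  have h2 : (g ^ 2 - 1 : Module.End (ZMod 2) X) x = g (g x) - x := by
    rw [pow_two]; rfl
  have h3 : (g - 1) (g x - x) = g (g x - x) - (g x - x) := rfl
  rw [h1, h2, h3, map_sub]
  have e := add_self (g x)
  have e2 := add_self x
  calc g (g x) - g x - (g x - x) = g (g x) - (g x + g x) + x := by abel
    _ = g (g x) + x := by rw [e, sub_zero]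
    _ = g (g x) - x := by rw [sub_eq_add_neg, neg_self]

theorem sq4 {X : Type} [AddCommGroup X] [Module (ZMod 2) X] (g : Module.End (ZMod 2) X)
    (hg : g ^ 4 = 1) (x : X) :
    (g ^ 2 - 1 : Module.End (ZMod 2) X) ((g ^ 2 - 1 : Module.End (ZMod 2) X) x) = 0 := by
  have h := sq (g ^ 2) x
  rw [h, ← pow_mul, show 2 * 2 = 4 from rfl, hg, sub_self, LinearMap.zero_apply]

/-- General form: `t * t = T`, `range T = ker T` gives `dim ker T = 2 dim ker t`. -/
theorem key {X : Type} [AddCommGroup X] [Module (ZMod 2) X] [Finite X]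
    (t T : Module.End (ZMod 2) X) (htT : ∀ x, t (t x) = T x)
    (hr : ∀ x, T x = 0 → ∃ y, T y = x) :
    finrank (ZMod 2) (LinearMap.ker T) = 2 * finrank (ZMod 2) (LinearMap.ker t) := by
  have : Module.Finite (ZMod 2) X := Module.Finite.of_finite
  have hcomm : ∀ x, T (t x) = t (T x) := by
    intro x
    rw [← htT, ← htT]
  -- the map
  let f : LinearMap.ker T →ₗ[ZMod 2] LinearMap.ker t :=
    { toFun := fun x => ⟨t x.1, by
        have hx : T x.1 = 0 := x.2
        rw [LinearMap.mem_ker, htT, hx]⟩
      map_add' := by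
        intro x y
        apply Subtype.ext
        simp
      map_smul' := by
        intro c x
        apply Subtype.ext
        simp }
  have hsurj : Function.Surjective f := by
    intro z
    have hz : t z.1 = 0 := z.2
    have hTz : T z.1 = 0 := by rw [← htT, hz, map_zero]
    obtain ⟨y, hy⟩ := hr z.1 hTz
    refine ⟨⟨t y, ?_⟩, ?_⟩
    · rw [LinearMap.mem_ker, hcomm, hy, hz]
    · apply Subtype.ext
      change t (t y) = z.1
      rw [htT, hy]
  have hrn := LinearMap.finrank_range_add_finrank_ker f
  rw [LinearMap.range_eq_top.mpr hsurj, finrank_top] at hrn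
  have hk : finrank (ZMod 2) (LinearMap.ker f) = finrank (ZMod 2) (LinearMap.ker t) := by
    apply LinearEquiv.finrank_eq
    refine
      { toFun := fun x => ⟨x.1.1, by
          have hx : f x.1 = 0 := x.2
          have := congrArg Subtype.val hx
          exact this⟩
        invFun := fun z => ⟨⟨z.1, by
          have hz : t z.1 = 0 := z.2
          rw [LinearMap.mem_ker, ← htT, hz, map_zero]⟩, by
          rw [LinearMap.mem_ker]
          apply Subtype.ext
          exact z.2⟩
        map_add' := fun x y => rfl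
        map_smul' := fun c x => rfl
        left_inv := fun x => rfl
        right_inv := fun x => rfl }
  rw [hk] at hrn
  omega

end Z4L_

theorem z4l_proof : Stmt_Z4L := by
  intro X _ _ _ g hg hdim
  have : Module.Finite (ZMod 2) X := Module.Finite.of_finite
  apply Z4L_.key (g - 1) (g ^ 2 - 1) (Z4L_.sq g) ?_
  have hle : LinearMap.range (g ^ 2 - 1) ≤ LinearMap.ker (g ^ 2 - 1) := by
    rintro _ ⟨y, rfl⟩
    exact Z4L_.sq4 g hg y
  have hrn := LinearMap.finrank_range_add_finrank_ker (g ^ 2 - 1)
  have heq : LinearMap.range (g ^ 2 - 1) = LinearMap.ker (g ^ 2 - 1) := by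
    apply Submodule.eq_of_le_of_finrank_eq hle
    omega
  intro x hx
  have : x ∈ LinearMap.range (g ^ 2 - 1) := by
    rw [heq]; exact hx
  exact this

end Pool.Agent.ETF
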