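import Pool.Agent.ETF.BAS
import Pool.Agent.ETF.CGF
import Pool.Agent.ETF.CGM
import Pool.Agent.ETF.CHO
import Pool.Agent.ETF.CLI
import Pool.Agent.ETF.CLS
import Pool.Agent.ETF.DIV
import Pool.Agent.ETF.DUA
import Pool.Agent.ETF.EMB
import Pool.Agent.ETF.END
import Pool.Agent.ETF.FGN
import Pool.Agent.ETF.FRW
import Pool.Agent.ETF.FXP
import Pool.Agent.ETF.GTB
import Pool.Agent.ETF.IXU
import Pool.Agent.ETF.LCA
import Pool.Agent.ETF.LIN
import Pool.Agent.ETF.MON
import Pool.Agent.ETF.NEE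
import Pool.Agent.ETF.PSA
import Pool.Agent.ETF.PSX
import Pool.Agent.ETF.QUO
import Pool.Agent.ETF.REG
import Pool.Agent.ETF.RGC
import Pool.Agent.ETF.RGW
import Pool.Agent.ETF.RKA
import Pool.Agent.ETF.STP
import Pool.Agent.ETF.SUP
import Pool.Agent.ETF.SYA
import Pool.Agent.ETF.SYB
import Pool.Agent.ETF.TOA
import Pool.Agent.ETF.TWF
import Pool.Agent.ETF.Z4L

/-!
# ETF: assembly of the integrality theorem and of `ETT.Stmt_IWA`
-/

set_option autoImplicit false

namespace Pool.Agent.ETF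

theorem t_twf : Stmt_TWF := twf_proof
theorem t_ixu : Stmt_IXU := ixu_proof
theorem t_nee : Stmt_NEE := nee_proof t_ixu
theorem t_gtb : Stmt_GTB := gtb_proof
theorem t_fxp : Stmt_FXP := fxp_proof
theorem t_mon : Stmt_MON := mon_proof t_ixu
theorem t_cho : Stmt_CHO := cho_proof t_mon
theorem t_z4l : Stmt_Z4L := z4l_proof
theorem t_cls : Stmt_CLS := cls_proof t_z4l
theorem t_cli : Stmt_CLI := cli_proof t_ixu t_mon t_cls
theorem t_sup : Stmt_SUP := sup_proof
theorem t_quo : Stmt_QUO := quo_proof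
theorem t_cgm : Stmt_CGM := cgm_proof
theorem t_emb : Stmt_EMB := emb_proof t_fxp
theorem t_psa : Stmt_PSA := psa_proof
theorem t_psx : Stmt_PSX := psx_proof t_twf t_psa
theorem t_toa : Stmt_TOA := toa_proof t_twf
theorem t_lca : Stmt_LCA := lca_proof
theorem t_lin : Stmt_LIN := lin_proof t_lca
theorem t_dua : Stmt_DUA := dua_proof
theorem t_fgn : Stmt_FGN := fgn_proof t_lca
theorem t_reg : Stmt_REG := reg_proof t_lca t_dua t_fgn
theorem t_rgc : Stmt_RGC := rgc_proof t_lca t_dua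
theorem t_rgw : Stmt_RGW := rgw_proof t_twf t_mon t_toa t_rgc
theorem t_bas : Stmt_BAS := bas_proof t_cli t_rgw
theorem t_cgf : Stmt_CGF := cgf_proof t_twf t_cgm t_toa t_reg
theorem t_sya : Stmt_SYA := sya_proof
theorem t_frw : Stmt_FRW := frw_proof
theorem t_syb : Stmt_SYB := syb_proof t_lca
theorem t_rka : Stmt_RKA := rka_proof
theorem t_stp : Stmt_STP :=
  stp_proof t_twf t_emb t_cgm t_quo t_psx t_toa t_lin t_cgf t_lca t_dua
theorem t_div : Stmt_DIV := div_proof t_twf t_toa t_fgn t_stp t_sya t_frw t_syb t_rka t_bas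

/-- Everything except the existence of pre-tower data. -/
theorem iwa_of_gta (hGTA : Stmt_GTA) : Pool.Agent.ETT.Stmt_IWA :=
  iwa_proof t_nee hGTA t_gtb t_twf t_cho t_sup t_psx t_toa t_dua t_fgn t_div

end Pool.Agent.ETF
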