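import Pool.Agent.ETF.Stmts

/-!
Module BAS: divisibility if the dual is free.
-/

set_option autoImplicit false

namespace Pool.Agent.ETF

open Module Pool.Agent.ETT

theorem bas_proof (hCLI : Stmt_CLI) (hRGW : Stmt_RGW) : Stmt_BAS := by
  intro G _ S hS T E _ _ _ rho hPS hfree hfin
  have hr := hRGW G S T E rho hPS hfree hfin
  have hbig : T.big T.U0 := ⟨0, fun u hu => ((T.mem_A 0 u).1 hu).1⟩
  exact hCLI G S hS T E rho _ (hr T.U0 hbig le_rfl).1 (fun W h1 h2 => (hr W h1 h2).2)

end Pool.Agent.ETF
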