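import Pool.Agent.ETF.Defs

/-!
# ETF: the coinduced module of the `F_2^c`-valued functions on `G` which are constant on the
cosets of some `A j`
-/

set_option autoImplicit false

namespace Pool.Agent.ETF

open Module Pool.Agent.ETT

theorem Tow.anti {G : Type} [Group G] {S : Sys G} (T : Tow S) {i j : ℕ} (h : i ≤ j) :
    T.A j ≤ T.A i := by
  intro u hu
  rw [T.mem_A] at hu ⊢
  exact ⟨hu.1, fun k => (pow_dvd_pow 2 h).trans (hu.2 k)⟩

/-- The functions `G → F_2^c` which are constant on the cosets `g A_j` for some `j`. -/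
def Cg {G : Type} [Group G] {S : Sys G} (T : Tow S) (c : ℕ) :
    Submodule (ZMod 2) (G → Fin c → ZMod 2) where
  carrier := {φ | ∃ j, ∀ g, ∀ u ∈ T.A j, φ (g * u) = φ g}
  add_mem' := by
    rintro φ ψ ⟨i, hi⟩ ⟨j, hj⟩
    refine ⟨max i j, fun g u hu => ?_⟩
    rw [Pi.add_apply, Pi.add_apply, hi g u (T.anti (le_max_left i j) hu),
      hj g u (T.anti (le_max_right i j) hu)]
  zero_mem' := ⟨0, fun _ _ _ => rfl⟩
  smul_mem' := by
    rintro a φ ⟨i, hi⟩
    refine ⟨i, fun g u hu => ?_⟩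
    rw [Pi.smul_apply, Pi.smul_apply, hi g u hu]

/-- `G` acts on the functions by left translation, `(g φ)(h) = φ(g⁻¹ h)`. -/
def Cr {G : Type} [Group G] {S : Sys G} (T : Tow S) (c : ℕ) :
    Representation (ZMod 2) G (Cg T c) where
  toFun g :=
    { toFun := fun φ => ⟨fun h => φ.1 (g⁻¹ * h), by
        obtain ⟨j, hj⟩ := φ.2
        refine ⟨j, fun h u hu => ?_⟩
        show φ.1 (g⁻¹ * (h * u)) = φ.1 (g⁻¹ * h)
        rw [← mul_assoc]
        exact hj (g⁻¹ * h) u hu⟩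
      map_add' := fun φ ψ => rfl
      map_smul' := fun a φ => rfl }
  map_one' := by
    ext φ : 2
    funext h
    show φ.1 (1⁻¹ * h) = φ.1 h
    rw [inv_one, one_mul]
  map_mul' := by
    intro g g'
    ext φ : 2
    funext h
    show φ.1 ((g * g')⁻¹ * h) = φ.1 (g'⁻¹ * (g⁻¹ * h))
    rw [mul_inv_rev, mul_assoc]

theorem Cr_apply {G : Type} [Group G] {S : Sys G} (T : Tow S) (c : ℕ) (g : G) (φ : Cg T c)
    (h : G) : (Cr T c g φ).1 h = φ.1 (g⁻¹ * h) := rfl

end Pool.Agent.ETF
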