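import Pool.Agent.ETT.Iface

/-!
# ETF: definitions for the integrality theorem (MP_d26ff6_al)

`S : Sys G` is the family of admissible subgroups of `Pool.Agent.ETT.Iface` (always used with
`S.cyc = 1`).  A normal admissible subgroup `U0` has the quotients `U0 / A j`, which are the
`(Z/2^j)^(n+1)`, and a discrete `G`-module over `F_2` all of whose vectors are fixed by some
`A j` is a module over the power series ring `F_2[[X_0, ..., X_n]]`, `X_i = a_i - 1`.
-/

set_option autoImplicit false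

namespace Pool.Agent.ETF

open Module Pool.Agent.ETT

/-- The power series ring `F_2[[X_0, …, X_{n-1}]]`. -/
abbrev Lam (n : ℕ) : Type := MvPowerSeries (Fin n) (ZMod 2)

/-- The ideal `(X_0 ^ q, …, X_{n-1} ^ q)`. -/
noncomputable def pw (n q : ℕ) : Ideal (Lam n) :=
  Ideal.span (Set.range fun i : Fin n => (MvPowerSeries.X i : Lam n) ^ q)

/-- The submodule of `E` killed by all the `X_i ^ q`. -/
noncomputable def tr (n q : ℕ) (E : Type) [AddCommGroup E] [Module (Lam n) E] :
    Submodule (Lam n) E :=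
  Submodule.torsionBySet (Lam n) E (Set.range fun i : Fin n => (MvPowerSeries.X i : Lam n) ^ q)

/-- Every element of `E` is killed by a power of each variable. -/
def XT (n : ℕ) (E : Type) [AddCommGroup E] [Module (Lam n) E] : Prop :=
  ∀ e : E, ∃ m : ℕ, ∀ i : Fin n, ((MvPowerSeries.X i : Lam n) ^ m) • e = 0

/-- The list `X_0, …, X_{k-1}` of the first `k` variables. -/
noncomputable def xs (n k : ℕ) : List (Lam n) :=
  ((List.finRange n).take k).map fun i => (MvPowerSeries.X i : Lam n)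

/-- Pre-tower data of an admissible subgroup `U0`: a basis `p` of the characters
`U0 → Z_2` with admissible levels, normalised by `p (a i) = e_i`. -/
structure Pre {G : Type} [Group G] (S : Sys G) (U0 : Subgroup G) where
  n : ℕ
  a : Fin (n + 1) → G
  a_mem : ∀ i, a i ∈ U0
  p : G → Fin (n + 1) → ℤ_[2]
  p_mul : ∀ u ∈ U0, ∀ v ∈ U0, p (u * v) = p u + p v
  p_a : ∀ i, p (a i) = Pi.single i 1
  lev_adm : ∀ j : ℕ, ∃ W ∈ S.adm, ∀ u, u ∈ W ↔ u ∈ U0 ∧ ∀ i, (2 : ℤ_[2]) ^ j ∣ p u i
  two : ∀ W ∈ S.adm, W ≤ U0 → W.relIndex U0 = 2 →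
    ∃ e : Fin (n + 1) → ℤ_[2], ∀ u ∈ U0, u ∈ W ↔ (2 : ℤ_[2]) ∣ ∑ i, e i * p u i

/-- Tower data of a normal admissible subgroup `U0`: `p` is the universal character to a
power of `Z_2`, and `A j` is the subgroup where `p` is divisible by `2 ^ j`. -/
structure Tow {G : Type} [Group G] (S : Sys G) where
  U0 : Subgroup G
  mem0 : U0 ∈ S.adm
  nor0 : U0.Normal
  n : ℕ
  a : Fin (n + 1) → G
  a_mem : ∀ i, a i ∈ U0
  p : G → Fin (n + 1) → ℤ_[2]
  p_mul : ∀ u ∈ U0, ∀ v ∈ U0, p (u * v) = p u + p v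
  p_a : ∀ i, p (a i) = Pi.single i 1
  A : ℕ → Subgroup G
  mem_A : ∀ j u, u ∈ A j ↔ u ∈ U0 ∧ ∀ i, (2 : ℤ_[2]) ^ j ∣ p u i
  A_adm : ∀ j, A j ∈ S.adm
  A_nor : ∀ j, (A j).Normal
  univ : ∀ c : G → ℤ_[2], (∀ u ∈ U0, ∀ v ∈ U0, c (u * v) = c u + c v) →
    (∀ j : ℕ, ∃ W ∈ S.adm, (W : Set G) = lev U0 c j) →
    ∀ u ∈ U0, c u = ∑ i, c (a i) * p u i

/-- The subgroups which contain some `A j`. -/
def Tow.big {G : Type} [Group G] {S : Sys G} (T : Tow S) (W : Subgroup G) : Prop :=
  ∃ j, T.A j ≤ W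

/-- Every vector is fixed by some `A j`. -/
def Dis {G E : Type} [Group G] [AddCommGroup E] [Module (ZMod 2) E] {S : Sys G} (T : Tow S)
    (rho : Representation (ZMod 2) G E) : Prop :=
  ∀ e : E, ∃ j, e ∈ fix rho (T.A j)

/-- `E` carries the module structure over the power series ring for which `X_i` acts as
`a_i - 1`. -/
structure PS {G E : Type} [Group G] [AddCommGroup E] [Module (ZMod 2) E] {S : Sys G}
    (T : Tow S) [Module (Lam (T.n + 1)) E] (rho : Representation (ZMod 2) G E) : Prop where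
  dis : Dis T rho
  act : ∀ (i : Fin (T.n + 1)) (e : E),
    (MvPowerSeries.X i : Lam (T.n + 1)) • e = rho (T.a i) e - e

end Pool.Agent.ETF
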