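import Pool.Agent.ETF.Kro

namespace Pool.Agent.ETF

open MvPowerSeries

universe u v

/-- a module generated by `m` elements and killed by `I` has at most `|R/I|^m` elements -/
theorem card_le_of_gen {R : Type u} [CommRing R] (I : Ideal R) [Finite (R ⧸ I)] {Q : Type v}
    [AddCommGroup Q] [Module R Q] {m : ℕ} (g : Fin m → Q)
    (hg : Submodule.span R (Set.range g) = ⊤) (hI : ∀ r ∈ I, ∀ x : Q, r • x = 0) :
    Finite Q ∧ Nat.card Q ≤ Nat.card (R ⧸ I) ^ m := by
  classical
  let F : (Fin m → R ⧸ I) → Q := fun c => ∑ k, (Quotient.out (c k) : R) • g k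
  have hF : Function.Surjective F := by
    intro x
    have hx : x ∈ Submodule.span R (Set.range g) := by rw [hg]; trivial
    obtain ⟨r, hr⟩ := (Submodule.mem_span_range_iff_exists_fun R).1 hx
    refine ⟨fun k => Ideal.Quotient.mk I (r k), ?_⟩
    rw [← hr]
    apply Finset.sum_congr rfl
    intro k _
    rw [← sub_eq_zero, ← sub_smul]
    apply hI
    rw [← Ideal.Quotient.eq]
    exact Quotient.out_eq _
  refine ⟨Finite.of_surjective F hF, ?_⟩
  have := Nat.card_le_card_of_surjective F hF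
  rw [Nat.card_fun, Nat.card_fin] at this
  exact this

/-- the cokernel of a maximal independent family is killed by a non-zero element -/
theorem exists_torsion {R : Type u} [CommRing R] [IsDomain R] {M : Type v} [AddCommGroup M]
    [Module R M] [Module.Finite R M] :
    ∃ (w : Fin (Module.finrank R M) → M) (f : R), f ≠ 0 ∧
      ∀ x : M, f • x ∈ Submodule.span R (Set.range w) := by
  classical
  obtain ⟨w, hw⟩ := exists_linearIndependent_of_le_finrank (R := R) (M := M) (le_refl _)
  have h1 : ∀ x : M, ∃ f : R, f ≠ 0 ∧ f • x ∈ Submodule.span R (Set.range w) := by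
    intro x
    by_contra h
    push Not at h
    have h2 : LinearIndependent R (Fin.cons x w : Fin (Module.finrank R M + 1) → M) := by
      refine LinearIndependent.finCons' x w hw ?_
      intro c y hy hcy
      by_contra hc
      apply h c hc
      rw [eq_neg_of_add_eq_zero_left hcy]
      exact Submodule.neg_mem _ hy
    have h3 := h2.fintype_card_le_finrank
    simp at h3
  obtain ⟨S, hS⟩ := (Module.Finite.fg_top : (⊤ : Submodule R M).FG)
  choose f hf0 hf using h1
  refine ⟨w, ∏ x ∈ S, f x, Finset.prod_ne_zero_iff.2 (fun x _ => hf0 x), ?_⟩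
  intro x
  have hx : x ∈ Submodule.span R (S : Set M) := by rw [hS]; trivial
  induction hx using Submodule.span_induction with
  | mem x hx =>
    rw [← Finset.mul_prod_erase _ _ (Finset.mem_coe.1 hx), mul_comm, mul_smul]
    exact Submodule.smul_mem _ _ (hf x)
  | zero => simp
  | add x y _ _ h1 h2 => rw [smul_add]; exact Submodule.add_mem _ h1 h2
  | smul a x _ h => rw [smul_comm]; exact Submodule.smul_mem _ _ h

instance isDomain_Lam (n : ℕ) : IsDomain (Lam n) := NoZeroDivisors.to_isDomain _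

/-- GAM: the growth of `M / J M` -/
theorem gam (n : ℕ) {M : Type v} [AddCommGroup M] [Module (Lam (n + 1)) M]
    [Module.Finite (Lam (n + 1)) M] :
    ∃ (e : Fin (n + 1) → ℕ) (c : ℕ), e 0 = 0 ∧ ∀ q,
      Finite (M ⧸ (kJ n e q • (⊤ : Submodule (Lam (n + 1)) M))) ∧
      Nat.card (M ⧸ (kJ n e q • (⊤ : Submodule (Lam (n + 1)) M))) ≤
        2 ^ (Module.finrank (Lam (n + 1)) M * q + c) := by
  classical
  obtain ⟨w, f, hf0, hf⟩ := exists_torsion (R := Lam (n + 1)) (M := M)
  obtain ⟨e, v, he0, hv⟩ := kro_card n f hf0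
  obtain ⟨m, g, hg⟩ := Module.Finite.exists_fin (R := Lam (n + 1)) (M := M)
  refine ⟨e, v * m, he0, fun q => ?_⟩
  set J := kJ n e q with hJ
  set JM := J • (⊤ : Submodule (Lam (n + 1)) M) with hJM
  let π := JM.mkQ
  let P : Submodule (Lam (n + 1)) (M ⧸ JM) := (Submodule.span (Lam (n + 1)) (Set.range w)).map π
  have hkill : ∀ r ∈ J, ∀ x : M ⧸ JM, r • x = 0 := by
    intro r hr x
    obtain ⟨y, rfl⟩ := Submodule.mkQ_surjective JM x
    rw [← map_smul]
    exact (Submodule.Quotient.mk_eq_zero JM).2 (Submodule.smul_mem_smul hr trivial)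
  have hJfin := kJ_card n e q
  have hP : Finite P ∧ Nat.card P ≤ Nat.card (Lam (n + 1) ⧸ J) ^ (Module.finrank (Lam (n + 1)) M) := by
    have := hJfin.1
    have hmem : ∀ i, π (w i) ∈ P := fun i =>
      Submodule.mem_map_of_mem (Submodule.subset_span ⟨i, rfl⟩)
    apply card_le_of_gen J (g := fun i => (⟨π (w i), hmem i⟩ : P))
    · rw [eq_top_iff]
      rintro ⟨x, hx⟩ -
      have hP' : P = Submodule.span (Lam (n + 1)) (Set.range (fun i => π (w i))) := by
        show (Submodule.span (Lam (n + 1)) (Set.range w)).map π = _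
        rw [Submodule.map_span, ← Set.range_comp]
        rfl
      have hx' := hx
      rw [hP'] at hx'
      obtain ⟨r, hr⟩ := (Submodule.mem_span_range_iff_exists_fun (Lam (n + 1))).1 hx'
      rw [Submodule.mem_span_range_iff_exists_fun]
      refine ⟨r, ?_⟩
      apply Subtype.ext
      show ((∑ i, r i • (⟨π (w i), hmem i⟩ : P) : P) : M ⧸ JM) = x
      rw [Submodule.coe_sum, ← hr]
      rfl
    · intro r hr x
      apply Subtype.ext
      exact hkill r hr x
  have hQ : Finite ((M ⧸ JM) ⧸ P) ∧ Nat.card ((M ⧸ JM) ⧸ P) ≤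
      Nat.card (Lam (n + 1) ⧸ (J ⊔ Ideal.span {f})) ^ m := by
    have := (hv q).1
    apply card_le_of_gen (J ⊔ Ideal.span {f}) (g := fun i => P.mkQ (π (g i)))
    · rw [eq_top_iff]
      intro x _
      obtain ⟨y, rfl⟩ := Submodule.mkQ_surjective P x
      obtain ⟨z, rfl⟩ := Submodule.mkQ_surjective JM y
      have hz : z ∈ Submodule.span (Lam (n + 1)) (Set.range g) := by rw [hg]; trivial
      obtain ⟨r, hr⟩ := (Submodule.mem_span_range_iff_exists_fun (Lam (n + 1))).1 hz
      rw [Submodule.mem_span_range_iff_exists_fun]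
      refine ⟨r, ?_⟩
      rw [← hr]
      simp [π]
    · intro r hr x
      obtain ⟨y, rfl⟩ := Submodule.mkQ_surjective P x
      obtain ⟨z, rfl⟩ := Submodule.mkQ_surjective JM y
      obtain ⟨a, ha, b, hb, rfl⟩ := Submodule.mem_sup.1 hr
      obtain ⟨c, rfl⟩ := Ideal.mem_span_singleton'.1 hb
      rw [add_smul, mul_smul]
      have h1 : a • P.mkQ (JM.mkQ z) = 0 := by
        rw [← map_smul, hkill a ha, map_zero]
      have h2 : f • P.mkQ (JM.mkQ z) = 0 := by
        rw [← map_smul, ← map_smul]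
        exact (Submodule.Quotient.mk_eq_zero P).2 (Submodule.mem_map_of_mem (hf z))
      rw [h1, h2, smul_zero, add_zero]
  have hPf := hP.1
  have hQf := hQ.1
  have hfin : Finite (M ⧸ JM) := by
    have e1 := P.toAddSubgroup.addGroupEquivQuotientProdAddSubgroup
    have : Finite ((M ⧸ JM) ⧸ P.toAddSubgroup) := hQf
    have : Finite P.toAddSubgroup := hPf
    exact Finite.of_equiv _ e1.symm
  refine ⟨hfin, ?_⟩
  have h1 : Nat.card (M ⧸ JM) = Nat.card P * Nat.card ((M ⧸ JM) ⧸ P) :=
    Submodule.card_eq_card_quotient_mul_card P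
  rw [h1]
  calc Nat.card P * Nat.card ((M ⧸ JM) ⧸ P)
      ≤ Nat.card (Lam (n + 1) ⧸ J) ^ (Module.finrank (Lam (n + 1)) M) *
        Nat.card (Lam (n + 1) ⧸ (J ⊔ Ideal.span {f})) ^ m := Nat.mul_le_mul hP.2 hQ.2
    _ ≤ (2 ^ q) ^ (Module.finrank (Lam (n + 1)) M) * (2 ^ v) ^ m :=
        Nat.mul_le_mul (Nat.pow_le_pow_left hJfin.2 _) (Nat.pow_le_pow_left (hv q).2 _)
    _ = 2 ^ (Module.finrank (Lam (n + 1)) M * q + v * m) := by
        rw [← pow_mul, ← pow_mul, ← pow_add, mul_comm q]

end Pool.Agent.ETF
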