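import Pool.Agent.ETF.Gam

set_option autoImplicit false

namespace Pool.Agent.ETF

open Module Pool.Agent.ETT MvPowerSeries

section GUP
variable {G : Type} [Group G] {S : Sys G} (T : Tow S)

/-- the generic character -/
noncomputable def gch (e : Fin (T.n + 1) → ℕ) (g : G) : ℤ_[2] := ∑ i, 2 ^ e i * T.p g i

/-- the generators of the ideal `kJ` -/
noncomputable def kG (n : ℕ) (e : Fin (n + 1) → ℕ) (q : ℕ) : Set (Lam (n + 1)) :=
  Set.range (fun i : Fin (n + 1) => (X i - X 0 ^ (2 ^ e i) : Lam (n + 1))) ∪ {X 0 ^ q}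

theorem span_kG (n : ℕ) (e : Fin (n + 1) → ℕ) (q : ℕ) : Ideal.span (kG n e q) = kJ n e q := rfl

theorem kG_finite (n : ℕ) (e : Fin (n + 1) → ℕ) (q : ℕ) : (kG n e q).Finite :=
  (Set.finite_range _).union (Set.finite_singleton _)

theorem Tow.p_one : T.p 1 = 0 := by
  have h := T.p_mul 1 T.U0.one_mem 1 T.U0.one_mem
  rw [one_mul] at h
  simpa using h

theorem Tow.p_inv (u : G) (hu : u ∈ T.U0) : T.p u⁻¹ = - T.p u := by
  have h := T.p_mul u⁻¹ (T.U0.inv_mem hu) u hu
  rw [inv_mul_cancel, T.p_one] at h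
  exact eq_neg_of_add_eq_zero_left h.symm

theorem Tow.p_pow (u : G) (hu : u ∈ T.U0) (k : ℕ) : T.p (u ^ k) = (k : ℤ_[2]) • T.p u := by
  induction k with
  | zero => simp [T.p_one]
  | succ k ih =>
    rw [pow_succ, T.p_mul _ (T.U0.pow_mem hu k) u hu, ih]
    push_cast
    rw [add_smul, one_smul]

theorem gch_mul (e : Fin (T.n + 1) → ℕ) (u v : G) (hu : u ∈ T.U0) (hv : v ∈ T.U0) :
    gch T e (u * v) = gch T e u + gch T e v := by
  unfold gch
  rw [T.p_mul u hu v hv, ← Finset.sum_add_distrib]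
  apply Finset.sum_congr rfl
  intro i _
  rw [Pi.add_apply, mul_add]

theorem gch_inv (e : Fin (T.n + 1) → ℕ) (u : G) (hu : u ∈ T.U0) :
    gch T e u⁻¹ = - gch T e u := by
  unfold gch
  rw [T.p_inv u hu, ← Finset.sum_neg_distrib]
  apply Finset.sum_congr rfl
  intro i _
  rw [Pi.neg_apply, mul_neg]

theorem gch_pow (e : Fin (T.n + 1) → ℕ) (u : G) (hu : u ∈ T.U0) (k : ℕ) :
    gch T e (u ^ k) = k * gch T e u := by
  unfold gch
  rw [T.p_pow u hu k, Finset.mul_sum]
  apply Finset.sum_congr rfl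
  intro i _
  rw [Pi.smul_apply, smul_eq_mul]
  ring

theorem gch_a (e : Fin (T.n + 1) → ℕ) (i : Fin (T.n + 1)) : gch T e (T.a i) = 2 ^ e i := by
  unfold gch
  rw [T.p_a, Finset.sum_eq_single i]
  · simp
  · intro b _ hb
    rw [Pi.single_eq_of_ne hb, mul_zero]
  · intro h
    exact absurd (Finset.mem_univ i) h

variable {E : Type} [AddCommGroup E] [Module (ZMod 2) E] [Module (Lam (T.n + 1)) E]
  {rho : Representation (ZMod 2) G E}

theorem zmod2_add_self (x : E) : x + x = 0 := by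
  have h : ((1 : ZMod 2) + 1) • x = 0 := by
    rw [show (1 : ZMod 2) + 1 = 0 by decide, zero_smul]
  rwa [add_smul, one_smul] at h

theorem zmod2_sub (x y : E) : x - y = x + y := by
  rw [sub_eq_add_neg, neg_eq_of_add_eq_zero_left (zmod2_add_self y)]

theorem gup_pow (h : PS T rho) (i : Fin (T.n + 1)) (k : ℕ) (x : E) :
    (X i ^ (2 ^ k) : Lam (T.n + 1)) • x = rho (T.a i ^ (2 ^ k)) x - x := by
  induction k generalizing x with
  | zero =>
    rw [pow_zero, pow_one, pow_one]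
    exact h.act i x
  | succ k ih =>
    rw [pow_succ 2 k, pow_mul, pow_two, mul_smul, ih, ih, pow_mul, pow_two, map_mul,
      Module.End.mul_apply, map_sub]
    rw [zmod2_sub, zmod2_sub, zmod2_sub, zmod2_sub]
    have := zmod2_add_self (rho (T.a i ^ 2 ^ k) x)
    calc rho (T.a i ^ 2 ^ k) (rho (T.a i ^ 2 ^ k) x) + rho (T.a i ^ 2 ^ k) x +
          (rho (T.a i ^ 2 ^ k) x + x)
        = rho (T.a i ^ 2 ^ k) (rho (T.a i ^ 2 ^ k) x) +
          (rho (T.a i ^ 2 ^ k) x + rho (T.a i ^ 2 ^ k) x) + x := by abel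
      _ = rho (T.a i ^ 2 ^ k) (rho (T.a i ^ 2 ^ k) x) + x := by rw [this, add_zero]

theorem gup_fwd (h : PS T rho) (e : Fin (T.n + 1) → ℕ) (he : e 0 = 0) (j : ℕ) (W : Subgroup G)
    (hW : (W : Set G) = lev T.U0 (gch T e) j) (x : E) (hx : x ∈ fix rho W) :
    x ∈ Submodule.torsionBySet (Lam (T.n + 1)) E (kG T.n e (2 ^ j)) := by
  have hWm : ∀ g, g ∈ W ↔ g ∈ T.U0 ∧ (2 : ℤ_[2]) ^ j ∣ gch T e g := by
    intro g
    rw [← SetLike.mem_coe, hW]
    exact Iff.rfl
  rw [Submodule.mem_torsionBySet_iff]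
  rintro ⟨f, hf⟩
  rcases hf with ⟨i, rfl⟩ | hf
  · show (X i - X 0 ^ (2 ^ e i) : Lam (T.n + 1)) • x = 0
    rw [sub_smul, gup_pow T h, h.act]
    have h1 : (T.a 0 ^ (2 ^ e i))⁻¹ * T.a i ∈ W := by
      rw [hWm]
      have h2 := T.U0.pow_mem (T.a_mem 0) (2 ^ e i)
      refine ⟨T.U0.mul_mem (T.U0.inv_mem h2) (T.a_mem i), ?_⟩
      rw [gch_mul T e _ _ (T.U0.inv_mem h2) (T.a_mem i), gch_inv T e _ h2,
        gch_pow T e _ (T.a_mem 0), gch_a, gch_a, he]
      simp
    have h2 := hx _ h1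
    rw [map_mul, Module.End.mul_apply] at h2
    have h3 : rho (T.a i) x = rho (T.a 0 ^ (2 ^ e i)) x := by
      have h4 := congrArg (rho (T.a 0 ^ (2 ^ e i))) h2
      rw [← Module.End.mul_apply, ← map_mul, mul_inv_cancel, map_one, Module.End.one_apply] at h4
      exact h4
    rw [h3, sub_self]
  · have hf' : f = X 0 ^ (2 ^ j) := Set.mem_singleton_iff.1 hf
    subst hf'
    show (X 0 ^ (2 ^ j) : Lam (T.n + 1)) • x = 0
    rw [gup_pow T h]
    have h1 : T.a 0 ^ (2 ^ j) ∈ W := by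
      rw [hWm]
      refine ⟨T.U0.pow_mem (T.a_mem 0) _, ?_⟩
      rw [gch_pow T e _ (T.a_mem 0)]
      push_cast
      exact dvd_mul_right _ _
    rw [hx _ h1, sub_self]

/-- products of powers of the generators -/
noncomputable def wprod (k : Fin (T.n + 1) → ℕ) (L : List (Fin (T.n + 1))) : G :=
  (L.map (fun i => T.a i ^ k i)).prod

theorem wprod_mem (k : Fin (T.n + 1) → ℕ) (L : List (Fin (T.n + 1))) :
    wprod T k L ∈ T.U0 := by
  apply Subgroup.list_prod_mem
  intro x hx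
  obtain ⟨i, -, rfl⟩ := List.mem_map.1 hx
  exact T.U0.pow_mem (T.a_mem i) _

theorem wprod_p (k : Fin (T.n + 1) → ℕ) (L : List (Fin (T.n + 1))) :
    T.p (wprod T k L) = (L.map (fun i => (k i : ℤ_[2]) • T.p (T.a i))).sum := by
  induction L with
  | nil => exact T.p_one
  | cons i L ih =>
    have h1 : wprod T k (i :: L) = T.a i ^ k i * wprod T k L := by
      unfold wprod
      rw [List.map_cons, List.prod_cons]
    rw [h1, T.p_mul _ (T.U0.pow_mem (T.a_mem i) _) _ (wprod_mem T k L), ih,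
      T.p_pow _ (T.a_mem i), List.map_cons, List.sum_cons]

theorem gup_bwd (h : PS T rho) (e : Fin (T.n + 1) → ℕ) (j : ℕ) (W : Subgroup G)
    (hW : (W : Set G) = lev T.U0 (gch T e) j) (x : E)
    (hx : x ∈ Submodule.torsionBySet (Lam (T.n + 1)) E (kG T.n e (2 ^ j))) :
    x ∈ fix rho W := by
  set K := Submodule.torsionBySet (Lam (T.n + 1)) E (kG T.n e (2 ^ j)) with hK
  have hKi : ∀ y ∈ K, ∀ i, rho (T.a i) y = rho (T.a 0 ^ (2 ^ e i)) y := by
    intro y hy i
    have h1 := (Submodule.mem_torsionBySet_iff _ _).1 hy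
      ⟨X i - X 0 ^ (2 ^ e i), Or.inl ⟨i, rfl⟩⟩
    have h2 : (X i - X 0 ^ (2 ^ e i) : Lam (T.n + 1)) • y = 0 := h1
    rw [sub_smul, gup_pow T h, h.act, sub_eq_zero] at h2
    exact sub_left_injective h2
  have hKs : ∀ y ∈ K, ∀ i, rho (T.a i) y ∈ K := by
    intro y hy i
    have h1 : rho (T.a i) y = (X i : Lam (T.n + 1)) • y + y := by
      rw [h.act, sub_add_cancel]
    rw [h1]
    exact K.add_mem (K.smul_mem _ hy) hy
  have hKp : ∀ y ∈ K, ∀ i (k : ℕ), rho (T.a i ^ k) y = rho (T.a 0 ^ (2 ^ e i * k)) y ∧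
      rho (T.a i ^ k) y ∈ K := by
    intro y hy i k
    induction k with
    | zero => simp [hy]
    | succ k ih =>
      have h1 : rho (T.a i ^ (k + 1)) y = rho (T.a i) (rho (T.a i ^ k) y) := by
        rw [pow_succ', map_mul, Module.End.mul_apply]
      refine ⟨?_, ?_⟩
      · have h5 : 2 ^ e i + 2 ^ e i * k = 2 ^ e i * (k + 1) := by ring
        rw [h1, hKi _ ih.2, ih.1, ← Module.End.mul_apply, ← map_mul, ← pow_add, h5]
      · rw [h1]
        exact hKs _ ih.2 i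
  have hKw : ∀ (k : Fin (T.n + 1) → ℕ) (L : List (Fin (T.n + 1))), ∀ y ∈ K,
      rho (wprod T k L) y = rho (T.a 0 ^ (L.map (fun i => 2 ^ e i * k i)).sum) y ∧
      rho (wprod T k L) y ∈ K := by
    intro k L y hy
    induction L with
    | nil => simp [wprod, hy]
    | cons i L ih =>
      have h1 : wprod T k (i :: L) = T.a i ^ k i * wprod T k L := by
        unfold wprod
        rw [List.map_cons, List.prod_cons]
      have h2 : rho (wprod T k (i :: L)) y = rho (T.a i ^ k i) (rho (wprod T k L) y) := by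
        rw [h1, map_mul, Module.End.mul_apply]
      refine ⟨?_, ?_⟩
      · rw [h2, (hKp _ ih.2 i (k i)).1, ih.1, ← Module.End.mul_apply, ← map_mul, ← pow_add,
          List.map_cons, List.sum_cons]
      · rw [h2]
        exact (hKp _ ih.2 i (k i)).2
  intro u hu
  have hWm : u ∈ T.U0 ∧ (2 : ℤ_[2]) ^ j ∣ gch T e u := by
    have : u ∈ (W : Set G) := hu
    rw [hW] at this
    exact this
  obtain ⟨hu0, hdiv⟩ := hWm
  obtain ⟨m0, hm0⟩ := h.dis x
  set m := max m0 j with hm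
  have hxm : x ∈ fix rho (T.A m) := by
    intro g hg
    apply hm0
    rw [T.mem_A] at hg ⊢
    exact ⟨hg.1, fun i => (pow_dvd_pow 2 (le_max_left _ _)).trans (hg.2 i)⟩
  set k : Fin (T.n + 1) → ℕ := fun i => (T.p u i).appr m with hk
  have hkp : ∀ i, (2 : ℤ_[2]) ^ m ∣ T.p u i - k i := by
    intro i
    have := PadicInt.appr_spec m (T.p u i)
    exact Ideal.mem_span_singleton.1 this
  set w := wprod T k (List.finRange (T.n + 1)) with hw
  have hw0 : w ∈ T.U0 := wprod_mem T k _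
  have hpw : ∀ i, T.p w i = k i := by
    intro i
    rw [hw, wprod_p, ← Fin.sum_univ_def, Finset.sum_apply, Finset.sum_eq_single i]
    · rw [T.p_a]
      simp
    · intro b _ hb
      rw [T.p_a, Pi.smul_apply, Pi.single_eq_of_ne (Ne.symm hb), smul_zero]
    · intro h'
      exact absurd (Finset.mem_univ i) h'
  have hv : w⁻¹ * u ∈ T.A m := by
    rw [T.mem_A]
    refine ⟨T.U0.mul_mem (T.U0.inv_mem hw0) hu0, fun i => ?_⟩
    rw [T.p_mul _ (T.U0.inv_mem hw0) _ hu0, T.p_inv _ hw0, Pi.add_apply, Pi.neg_apply, hpw]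
    have := hkp i
    rwa [sub_eq_neg_add] at this
  have h1 : rho u x = rho w x := by
    have h2 : u = w * (w⁻¹ * u) := by group
    have h3 : rho (w * (w⁻¹ * u)) x = rho w x := by
      rw [map_mul, Module.End.mul_apply, hxm _ hv]
    rwa [← h2] at h3
  set N := ((List.finRange (T.n + 1)).map (fun i => 2 ^ e i * k i)).sum with hN
  have h2 : rho w x = rho (T.a 0 ^ N) x := (hKw k _ x hx).1
  have hN' : N = ∑ i, 2 ^ e i * k i := by rw [hN, Fin.sum_univ_def]
  have h3 : (2 : ℤ_[2]) ^ j ∣ (N : ℤ_[2]) := by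
    have h4 : (N : ℤ_[2]) = gch T e u - ∑ i, 2 ^ e i * (T.p u i - k i) := by
      rw [hN']
      unfold gch
      rw [← Finset.sum_sub_distrib]
      push_cast
      apply Finset.sum_congr rfl
      intro i _
      ring
    rw [h4]
    apply dvd_sub hdiv
    apply Finset.dvd_sum
    intro i _
    exact Dvd.dvd.mul_left ((pow_dvd_pow 2 (le_max_right _ _)).trans (hkp i)) _
  have h4 : 2 ^ j ∣ N := by
    have h5 : ((2 : ℕ) : ℤ_[2]) ^ j ∣ ((N : ℤ) : ℤ_[2]) := by
      push_cast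
      exact h3
    rw [PadicInt.pow_p_dvd_int_iff] at h5
    exact_mod_cast h5
  obtain ⟨c, hc⟩ := h4
  have h5 : rho (T.a 0 ^ (2 ^ j)) x = x := by
    have h6 := (Submodule.mem_torsionBySet_iff _ _).1 hx
      ⟨X 0 ^ (2 ^ j), Or.inr rfl⟩
    have h7 : (X 0 ^ (2 ^ j) : Lam (T.n + 1)) • x = 0 := h6
    rw [gup_pow T h, sub_eq_zero] at h7
    exact h7
  rw [h1, h2, hc]
  clear hc
  induction c with
  | zero => simp
  | succ c ih =>
    rw [mul_add, mul_one, pow_add, map_mul, Module.End.mul_apply, h5, ih]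

theorem gup (h : PS T rho) (e : Fin (T.n + 1) → ℕ) (he : e 0 = 0) (j : ℕ) (W : Subgroup G)
    (hW : (W : Set G) = lev T.U0 (gch T e) j) (x : E) :
    x ∈ fix rho W ↔ x ∈ Submodule.torsionBySet (Lam (T.n + 1)) E (kG T.n e (2 ^ j)) :=
  ⟨gup_fwd T h e he j W hW x, gup_bwd T h e j W hW x⟩

end GUP

end Pool.Agent.ETF
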