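import Pool.Agent.ETF.Defs

namespace Pool.Agent.ETF

open MvPowerSeries

/-- the ideal `(X_i - X_0 ^ (2 ^ e_i) (all i), X_0 ^ q)` -/
noncomputable def kJ (n : ℕ) (e : Fin (n + 1) → ℕ) (q : ℕ) : Ideal (Lam (n + 1)) :=
  Ideal.span (Set.range (fun i : Fin (n + 1) => (X i - X 0 ^ (2 ^ e i) : Lam (n + 1))) ∪ {X 0 ^ q})

/-- a power series without terms in the box is in the ideal of the `q`-th powers -/
theorem box_mem {σ : Type} (q : ℕ) (S : Finset σ) :
    ∀ g : MvPowerSeries σ (ZMod 2), (∀ β : σ →₀ ℕ, (∀ s ∈ S, β s < q) → coeff β g = 0) →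
      g ∈ Ideal.span ((fun s => (X s : MvPowerSeries σ (ZMod 2)) ^ q) '' (S : Set σ)) := by
  classical
  induction S using Finset.induction_on with
  | empty =>
    intro g hg
    have : g = 0 := by
      ext β
      simpa using hg β (by simp)
    simp [this]
  | insert a S ha ih =>
    intro g hg
    set g1 : MvPowerSeries σ (ZMod 2) := fun β => if β a < q then coeff β g else 0 with hg1
    have hc1 : ∀ β, coeff β g1 = if β a < q then coeff β g else 0 := fun β => rfl
    have h1 : g1 ∈ Ideal.span ((fun s => (X s : MvPowerSeries σ (ZMod 2)) ^ q) '' (S : Set σ)) := by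
      apply ih
      intro β hβ
      rw [hc1]
      split_ifs with h
      · apply hg
        intro s hs
        rcases Finset.mem_insert.1 hs with rfl | hs
        · exact h
        · exact hβ s hs
      · rfl
    have h2 : (X a : MvPowerSeries σ (ZMod 2)) ^ q ∣ g - g1 := by
      rw [X_pow_dvd_iff]
      intro m hm
      rw [map_sub, hc1, if_pos hm, sub_self]
    have h3 : g - g1 ∈ Ideal.span ((fun s => (X s : MvPowerSeries σ (ZMod 2)) ^ q) ''
        ((insert a S : Finset σ) : Set σ)) := by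
      obtain ⟨c, hc⟩ := h2
      rw [hc]
      apply Ideal.mul_mem_right
      apply Ideal.subset_span
      exact ⟨a, by simp, rfl⟩
    have h4 : g1 ∈ Ideal.span ((fun s => (X s : MvPowerSeries σ (ZMod 2)) ^ q) ''
        ((insert a S : Finset σ) : Set σ)) := by
      apply Ideal.span_mono _ h1
      apply Set.image_mono
      intro x hx
      simp at hx ⊢
      exact Or.inr hx
    have := Ideal.add_mem _ h3 h4
    simpa using this

theorem kJ_X_sub (n : ℕ) (e : Fin (n + 1) → ℕ) (q : ℕ) (i : Fin (n + 1)) :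
    (X i - X 0 ^ (2 ^ e i) : Lam (n + 1)) ∈ kJ n e q :=
  Ideal.subset_span (Or.inl ⟨i, rfl⟩)

theorem kJ_X0 (n : ℕ) (e : Fin (n + 1) → ℕ) (q : ℕ) : (X 0 ^ q : Lam (n + 1)) ∈ kJ n e q :=
  Ideal.subset_span (Or.inr rfl)

theorem kJ_Xi_pow (n : ℕ) (e : Fin (n + 1) → ℕ) (q : ℕ) (i : Fin (n + 1)) :
    (X i ^ q : Lam (n + 1)) ∈ kJ n e q := by
  have h1 : (X i ^ q - (X 0 ^ (2 ^ e i)) ^ q : Lam (n + 1)) ∈ kJ n e q :=
    Ideal.mem_of_dvd _ (sub_dvd_pow_sub_pow _ _ q) (kJ_X_sub n e q i)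
  have h2 : ((X 0 ^ (2 ^ e i)) ^ q : Lam (n + 1)) ∈ kJ n e q := by
    rw [← pow_mul, mul_comm, pow_mul]
    apply Ideal.pow_mem_of_mem _ (kJ_X0 n e q) _ (by positivity)
  simpa using Ideal.add_mem _ h1 h2

theorem kJ_X0_ge (n : ℕ) (e : Fin (n + 1) → ℕ) (q k : ℕ) (h : q ≤ k) :
    (X 0 ^ k : Lam (n + 1)) ∈ kJ n e q :=
  Ideal.mem_of_dvd _ (pow_dvd_pow _ h) (kJ_X0 n e q)

/-- weight of an exponent -/
def wt {n : ℕ} (e : Fin (n + 1) → ℕ) (β : Fin (n + 1) →₀ ℕ) : ℕ := ∑ i, 2 ^ e i * β i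

theorem monomial_sub_mem (n : ℕ) (e : Fin (n + 1) → ℕ) (q : ℕ) (β : Fin (n + 1) →₀ ℕ) :
    (monomial β 1 - X 0 ^ wt e β : Lam (n + 1)) ∈ kJ n e q := by
  rw [← Ideal.Quotient.eq]
  have h1 : (monomial β 1 : Lam (n + 1)) = ∏ i, X i ^ β i := by
    rw [MvPowerSeries.monomial_one_eq]
    rw [Finsupp.prod_fintype]
    intro i
    simp
  have h2 : ∀ i : Fin (n + 1), Ideal.Quotient.mk (kJ n e q) (X i) =
      Ideal.Quotient.mk (kJ n e q) (X 0) ^ (2 ^ e i) := by
    intro i
    rw [← map_pow, Ideal.Quotient.eq]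
    exact kJ_X_sub n e q i
  rw [h1, map_prod, map_pow]
  unfold wt
  rw [← Finset.prod_pow_eq_pow_sum]
  apply Finset.prod_congr rfl
  intro i _
  rw [map_pow, h2, ← pow_mul]

/-- the box -/
noncomputable def box (n q : ℕ) : Finset (Fin (n + 1) →₀ ℕ) :=
  (Finset.univ : Finset (Fin (n + 1) → Fin q)).image
    (fun f => Finsupp.equivFunOnFinite.symm (fun i => (f i : ℕ)))

theorem mem_box {n q : ℕ} {β : Fin (n + 1) →₀ ℕ} : β ∈ box n q ↔ ∀ i, β i < q := by
  unfold box
  constructor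
  · intro h
    obtain ⟨f, -, rfl⟩ := Finset.mem_image.1 h
    intro i
    simp
  · intro h
    apply Finset.mem_image.2
    refine ⟨fun i => ⟨β i, h i⟩, Finset.mem_univ _, ?_⟩
    ext i
    simp

/-- every power series is a finite sum modulo `kJ` -/
theorem box_dec (n : ℕ) (e : Fin (n + 1) → ℕ) (q : ℕ) (g : Lam (n + 1)) :
    g - ∑ β ∈ box n q, C (coeff β g) * X 0 ^ wt e β ∈ kJ n e q := by
  have h1 : g - ∑ β ∈ box n q, monomial β (coeff β g) ∈ kJ n e q := by
    have h := box_mem q (Finset.univ : Finset (Fin (n + 1)))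
      (g - ∑ β ∈ box n q, monomial β (coeff β g)) (by
        intro β hβ
        rw [map_sub, map_sum]
        rw [Finset.sum_eq_single β]
        · simp
        · intro b _ hb
          rw [coeff_monomial, if_neg (Ne.symm hb)]
        · intro hb
          exact absurd (mem_box.2 (fun i => hβ i (Finset.mem_univ _))) hb)
    refine (Ideal.span_le.2 ?_) h
    rintro _ ⟨s, -, rfl⟩
    exact kJ_Xi_pow n e q s
  have h2 : ∑ β ∈ box n q, monomial β (coeff β g) -
      ∑ β ∈ box n q, C (coeff β g) * X 0 ^ wt e β ∈ kJ n e q := by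
    rw [← Finset.sum_sub_distrib]
    apply Ideal.sum_mem
    intro β _
    have : (monomial β (coeff β g) : Lam (n + 1)) = C (coeff β g) * monomial β 1 := by
      rw [← monomial_zero_eq_C_apply, monomial_mul_monomial]
      simp
    rw [this, ← mul_sub]
    exact Ideal.mul_mem_left _ _ (monomial_sub_mem n e q β)
  simpa using Ideal.add_mem _ h1 h2

/-- `Λ / (J, I)` is spanned by `1, x, ..., x^(q-1)` -/
theorem kJ_card (n : ℕ) (e : Fin (n + 1) → ℕ) (q : ℕ) :
    Finite (Lam (n + 1) ⧸ kJ n e q) ∧ Nat.card (Lam (n + 1) ⧸ kJ n e q) ≤ 2 ^ q := by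
  classical
  let F : (Fin q → ZMod 2) → Lam (n + 1) ⧸ kJ n e q := fun c =>
    Ideal.Quotient.mk (kJ n e q) (∑ k : Fin q, C (c k) * X 0 ^ (k : ℕ))
  have hF : Function.Surjective F := by
    intro x
    obtain ⟨g, rfl⟩ := Ideal.Quotient.mk_surjective x
    refine ⟨fun k => ∑ β ∈ (box n q).filter (fun β => wt e β = k), coeff β g, ?_⟩
    show Ideal.Quotient.mk (kJ n e q) _ = _
    rw [Ideal.Quotient.eq]
    have h1 := box_dec n e q g
    have h2 : ∑ k : Fin q, C (∑ β ∈ (box n q).filter (fun β => wt e β = k), coeff β g) *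
        (X 0 : Lam (n + 1)) ^ (k : ℕ) - ∑ β ∈ box n q, C (coeff β g) * X 0 ^ wt e β ∈ kJ n e q := by
      have h3 : ∑ k : Fin q, C (∑ β ∈ (box n q).filter (fun β => wt e β = k), coeff β g) *
          (X 0 : Lam (n + 1)) ^ (k : ℕ) =
          ∑ β ∈ (box n q).filter (fun β => wt e β < q), C (coeff β g) * X 0 ^ wt e β := by
        rw [Fin.sum_univ_eq_sum_range (fun k => C (∑ β ∈ (box n q).filter (fun β => wt e β = k),
          coeff β g) * (X 0 : Lam (n + 1)) ^ (k : ℕ)) q]
        rw [← Finset.sum_fiberwise_of_maps_to (s := (box n q).filter (fun β => wt e β < q))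
          (t := Finset.range q) (g := fun β => wt e β)]
        · apply Finset.sum_congr rfl
          intro k hk
          rw [map_sum, Finset.sum_mul]
          apply Finset.sum_congr
          · ext β
            simp only [Finset.mem_filter]
            constructor
            · rintro ⟨h, h'⟩
              exact ⟨⟨h, h' ▸ Finset.mem_range.1 hk⟩, h'⟩
            · rintro ⟨⟨h, _⟩, h'⟩
              exact ⟨h, h'⟩
          · intro β hβ
            rw [(Finset.mem_filter.1 hβ).2]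
        · intro β hβ
          exact Finset.mem_range.2 (Finset.mem_filter.1 hβ).2
      rw [h3, ← Finset.sum_filter_add_sum_filter_not (box n q) (fun β => wt e β < q)]
      rw [sub_add_eq_sub_sub, sub_self, zero_sub]
      apply (kJ n e q).neg_mem
      apply Ideal.sum_mem
      intro β hβ
      apply Ideal.mul_mem_left
      apply kJ_X0_ge
      exact not_lt.1 (Finset.mem_filter.1 hβ).2
    have h4 := Ideal.sub_mem _ h2 h1
    have h5 : ∀ a b c : Lam (n + 1), a - b - (c - b) = a - c := by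
      intro a b c; ring
    rw [h5] at h4
    exact h4
  refine ⟨Finite.of_surjective F hF, ?_⟩
  have := Nat.card_le_card_of_surjective F hF
  simpa using this

theorem exists_weight_fun (n : ℕ) : ∀ S : Set (Fin (n + 1) → ℕ), S.Nonempty →
    ∃ (e : Fin (n + 1) → ℕ) (α : Fin (n + 1) → ℕ), e 0 = 0 ∧ α ∈ S ∧
      ∀ β ∈ S, β ≠ α → ∑ i, 2 ^ e i * α i < ∑ i, 2 ^ e i * β i := by
  induction n with
  | zero =>
    intro S hS
    obtain ⟨β0, h0⟩ := hS
    have hne : ((fun β : Fin (0 + 1) → ℕ => β 0) '' S).Nonempty := ⟨_, ⟨β0, h0, rfl⟩⟩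
    obtain ⟨α, hα, hα'⟩ := Nat.sInf_mem hne
    refine ⟨fun _ => 0, α, rfl, hα, ?_⟩
    intro β hβ hne'
    have h1 : α 0 ≤ β 0 := by
      rw [show α 0 = _ from hα']
      exact Nat.sInf_le ⟨β, hβ, rfl⟩
    have h2 : α 0 ≠ β 0 := by
      intro h
      apply hne'
      funext i
      have : i = 0 := Fin.fin_one_eq_zero i
      rw [this, h]
    simp
    omega
  | succ n ih =>
    intro S hS
    obtain ⟨β0, h0⟩ := hS
    have hne : ((fun β : Fin (n + 1 + 1) → ℕ => β (Fin.last _)) '' S).Nonempty :=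
      ⟨_, ⟨β0, h0, rfl⟩⟩
    set a := sInf ((fun β : Fin (n + 1 + 1) → ℕ => β (Fin.last _)) '' S) with ha
    obtain ⟨γ, hγ, hγ'⟩ := Nat.sInf_mem hne
    obtain ⟨e, α, he0, hα, hmin⟩ := ih {β' | ∃ β ∈ S, β (Fin.last _) = a ∧
      (fun i => β (Fin.castSucc i)) = β'} ⟨_, γ, hγ, hγ', rfl⟩
    obtain ⟨α1, hα1, hα1a, hα1'⟩ := hα
    set W := ∑ i, 2 ^ e i * α i with hW
    refine ⟨Fin.snoc e W, α1, ?_, hα1, ?_⟩
    · rw [show (0 : Fin (n + 1 + 1)) = Fin.castSucc 0 from rfl, Fin.snoc_castSucc]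
      exact he0
    · intro β hβ hne'
      have hL := Fin.sum_univ_castSucc
        (fun i => 2 ^ (Fin.snoc e W : Fin (n + 1 + 1) → ℕ) i * α1 i)
      have hR := Fin.sum_univ_castSucc
        (fun i => 2 ^ (Fin.snoc e W : Fin (n + 1 + 1) → ℕ) i * β i)
      simp only [Fin.snoc_castSucc, Fin.snoc_last] at hL hR
      rw [hL, hR]
      have h1 : ∑ i : Fin (n + 1), 2 ^ e i * α1 (Fin.castSucc i) = W := by
        rw [hW]
        apply Finset.sum_congr rfl
        intro i _
        rw [← hα1']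
      rw [h1]
      have h2 : a ≤ β (Fin.last _) := Nat.sInf_le ⟨β, hβ, rfl⟩
      rcases Nat.eq_or_lt_of_le h2 with h3 | h3
      · have h4 := hmin (fun i => β (Fin.castSucc i)) ⟨β, hβ, h3.symm, rfl⟩ (by
          intro h5
          apply hne'
          funext i
          refine Fin.lastCases ?_ (fun j => ?_) i
          · rw [← h3, hα1a]
          · have := congrFun h5 j
            rw [← hα1'] at this
            exact this)
        rw [hα1a, ← h3]
        omega
      · have h5 : W < 2 ^ W := Nat.lt_two_pow_self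
        have h6 : 2 ^ W * (a + 1) ≤ 2 ^ W * β (Fin.last _) := Nat.mul_le_mul_left _ h3
        rw [hα1a]
        have h7 : 2 ^ W * (a + 1) = 2 ^ W * a + 2 ^ W := by ring
        have h8 : 0 ≤ ∑ i : Fin (n + 1), 2 ^ e i * β (Fin.castSucc i) := Nat.zero_le _
        omega

/-- a weight for which the exponent `α` is the only one of minimal weight in the support -/
theorem exists_weight (n : ℕ) (f : Lam (n + 1)) (hf : f ≠ 0) :
    ∃ (e : Fin (n + 1) → ℕ) (α : Fin (n + 1) →₀ ℕ), e 0 = 0 ∧ coeff α f = 1 ∧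
      ∀ β, coeff β f ≠ 0 → β ≠ α → wt e α < wt e β := by
  have h1 : ∃ β, coeff β f ≠ 0 := by
    by_contra h
    push Not at h
    apply hf
    ext β
    simpa using h β
  obtain ⟨β0, hβ0⟩ := h1
  obtain ⟨e, α, he, hα, hmin⟩ := exists_weight_fun n
    {β | coeff (Finsupp.equivFunOnFinite.symm β) f ≠ 0} ⟨Finsupp.equivFunOnFinite β0, by
      simpa using hβ0⟩
  refine ⟨e, Finsupp.equivFunOnFinite.symm α, he, ?_, ?_⟩
  · have : coeff (Finsupp.equivFunOnFinite.symm α) f ≠ 0 := hα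
    generalize coeff (Finsupp.equivFunOnFinite.symm α) f = z at this
    revert this
    revert z
    decide
  · intro β hβ hne
    have := hmin (Finsupp.equivFunOnFinite β) (by simpa using hβ) (by
      intro h
      apply hne
      rw [← h]
      simp)
    unfold wt
    simpa using this

/-- KRO: `X_0 ^ v ∈ (J, f)` -/
theorem kro (n : ℕ) (f : Lam (n + 1)) (hf : f ≠ 0) :
    ∃ (e : Fin (n + 1) → ℕ) (v : ℕ), e 0 = 0 ∧
      ∀ q, (X 0 ^ v : Lam (n + 1)) ∈ kJ n e q ⊔ Ideal.span {f} := by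
  obtain ⟨e, α, he, hα, hmin⟩ := exists_weight n f hf
  refine ⟨e, wt e α, he, ?_⟩
  intro q
  rcases Nat.lt_or_ge (wt e α) q with hq | hq
  · have hbox : α ∈ box n q := by
      rw [mem_box]
      intro i
      have h1 : α i ≤ wt e α := by
        unfold wt
        have h2 : α i ≤ 2 ^ e i * α i := Nat.le_mul_of_pos_left _ (by positivity)
        exact h2.trans (Finset.single_le_sum (f := fun i => 2 ^ e i * α i)
          (fun i _ => Nat.zero_le _) (Finset.mem_univ i))
      omega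
    have h1 := box_dec n e q f
    rw [← Finset.add_sum_erase _ _ hbox, hα] at h1
    obtain ⟨s, hs⟩ : ∃ s : Lam (n + 1), ∑ β ∈ (box n q).erase α, C (coeff β f) * (X 0 : Lam (n + 1)) ^ wt e β
        = X 0 ^ (wt e α) * (X 0 * s) := by
      have : (X 0 : Lam (n + 1)) ^ (wt e α + 1) ∣
          ∑ β ∈ (box n q).erase α, C (coeff β f) * (X 0 : Lam (n + 1)) ^ wt e β := by
        apply Finset.dvd_sum
        intro β hβ
        by_cases h0 : coeff β f = 0
        · rw [h0]
          simp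
        · apply Dvd.dvd.mul_left
          apply pow_dvd_pow
          exact hmin β h0 (Finset.ne_of_mem_erase hβ)
      obtain ⟨s, hs⟩ := this
      exact ⟨s, by rw [hs]; ring⟩
    rw [hs] at h1
    have hu : IsUnit (1 + X 0 * s : Lam (n + 1)) := by
      rw [isUnit_iff_constantCoeff]
      simp
    have h2 : (X 0 ^ (wt e α) * (1 + X 0 * s) : Lam (n + 1)) ∈ kJ n e q ⊔ Ideal.span {f} := by
      have h3 : (f : Lam (n + 1)) ∈ kJ n e q ⊔ Ideal.span {f} :=
        Ideal.mem_sup_right (Ideal.mem_span_singleton_self f)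
      have h4 := Ideal.sub_mem _ h3 (Ideal.mem_sup_left h1)
      have h5 : f - (f - (C 1 * (X 0 : Lam (n + 1)) ^ wt e α + X 0 ^ wt e α * (X 0 * s))) =
          X 0 ^ (wt e α) * (1 + X 0 * s) := by
        rw [map_one]
        ring
      rw [h5] at h4
      exact h4
    obtain ⟨u, hu⟩ := hu
    have h6 := Ideal.mul_mem_right (↑u⁻¹ : Lam (n + 1)) _ h2
    rw [mul_assoc, ← hu, Units.mul_inv, mul_one] at h6
    exact h6
  · exact Ideal.mem_sup_left (kJ_X0_ge n e q _ hq)

theorem kJ_le (n : ℕ) (e : Fin (n + 1) → ℕ) (q v : ℕ) (I : Ideal (Lam (n + 1)))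
    (h : (X 0 ^ v : Lam (n + 1)) ∈ kJ n e q ⊔ I) : kJ n e v ≤ kJ n e q ⊔ I := by
  unfold kJ at h ⊢
  apply Ideal.span_le.2
  rintro x (hx | hx)
  · exact Ideal.mem_sup_left (Ideal.subset_span (Or.inl hx))
  · rw [Set.mem_singleton_iff.1 hx]
    exact h

/-- KRO, cardinality form -/
theorem kro_card (n : ℕ) (f : Lam (n + 1)) (hf : f ≠ 0) :
    ∃ (e : Fin (n + 1) → ℕ) (v : ℕ), e 0 = 0 ∧
      ∀ q, Finite (Lam (n + 1) ⧸ (kJ n e q ⊔ Ideal.span {f})) ∧
        Nat.card (Lam (n + 1) ⧸ (kJ n e q ⊔ Ideal.span {f})) ≤ 2 ^ v := by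
  obtain ⟨e, v, he, h⟩ := kro n f hf
  refine ⟨e, v, he, fun q => ?_⟩
  have h1 := kJ_le n e q v _ (h q)
  have hs : Function.Surjective (Ideal.Quotient.factor h1) := Ideal.Quotient.factor_surjective h1
  have h2 := kJ_card n e v
  have := h2.1
  exact ⟨Finite.of_surjective _ hs, (Nat.card_le_card_of_surjective _ hs).trans h2.2⟩

end Pool.Agent.ETF
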