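import Pool.Agent.ETF.Stmts

/-! # NEE: every admissible subgroup has an admissible subgroup of index two -/

set_option autoImplicit false

namespace Pool.Agent.ETF

open Module Pool.Agent.ETT

namespace NEE_

theorem two_dvd_iff (x : ℤ_[2]) : (2 : ℤ_[2]) ∣ x ↔ (PadicInt.toZMod x : ZMod 2) = 0 := by
  rw [← RingHom.mem_ker, PadicInt.ker_toZMod, PadicInt.maximalIdeal_eq_span_p, Ideal.mem_span_singleton]
  norm_num

theorem xor_two (x y : ℤ_[2]) (hy : ¬ (2 : ℤ_[2]) ∣ y) :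
    ((2 : ℤ_[2]) ∣ x + y ∧ ¬ (2 : ℤ_[2]) ∣ x) ∨ ((2 : ℤ_[2]) ∣ x ∧ ¬ (2 : ℤ_[2]) ∣ x + y) := by
  rw [two_dvd_iff] at hy
  rw [two_dvd_iff, two_dvd_iff, map_add]
  generalize (PadicInt.toZMod x : ZMod 2) = a
  generalize (PadicInt.toZMod y : ZMod 2) = b at hy
  revert a b
  decide

theorem pow_dvd_bound (x : ℤ_[2]) (hx : x ≠ 0) : ∃ j : ℕ, ¬ (2 : ℤ_[2]) ^ j ∣ x := by
  have h2 : ¬ IsUnit (2 : ℤ_[2]) := by
    have h := (PadicInt.prime_p (p := 2)).not_isUnit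
    simpa using h
  obtain ⟨n, hn⟩ := FiniteMultiplicity.of_not_isUnit h2 hx
  exact ⟨n + 1, hn⟩

end NEE_

open NEE_ in
theorem nee_proof (hIXU : Stmt_IXU) : Stmt_NEE := by
  intro G _ S hcyc hW U hU
  obtain ⟨W₁, hW₁, hW₁t⟩ := hW
  obtain ⟨-, h1⟩ := hIXU G S W₁ hW₁ ⊤ S.top_mem le_top
  obtain ⟨-, K, hK, -, -, hK2⟩ := h1 hW₁t
  obtain ⟨chi, hchi, hlev, hKlev⟩ := S.lift ⊤ S.top_mem K hK le_top hK2
  have hmul : ∀ g h, chi (g * h) = chi g + chi h := by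
    intro g h
    have := hchi g (Subgroup.mem_top g) h (Subgroup.mem_top h)
    rw [hcyc] at this
    simpa using this
  have hone : chi 1 = 0 := by
    have := hmul 1 1
    rw [mul_one] at this
    exact left_eq_add.1 this
  have hpow : ∀ (g : G) (m : ℕ), chi (g ^ m) = (m : ℤ_[2]) * chi g := by
    intro g m
    induction m with
    | zero => rw [pow_zero, hone, Nat.cast_zero, zero_mul]
    | succ k ih =>
      rw [pow_succ, hmul, ih, Nat.cast_succ]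
      ring
  -- an element with an odd value
  obtain ⟨g₀, hg₀⟩ : ∃ g, ¬ (2 : ℤ_[2]) ∣ chi g := by
    by_contra hcon
    push Not at hcon
    have hKt : K = ⊤ := by
      rw [eq_top_iff]
      intro g _
      have : g ∈ (K : Set G) := by
        rw [hKlev]
        exact ⟨Subgroup.mem_top g, by rw [pow_one]; exact hcon g⟩
      exact this
    rw [hKt, Subgroup.relIndex_self] at hK2
    norm_num at hK2
  -- a power in `U`
  obtain ⟨N, -, hNU, -, k, hk⟩ := S.core U hU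
  have hUi : U.index ≠ 0 := by
    intro h0
    have h := Subgroup.index_dvd_of_le hNU
    rw [h0, zero_dvd_iff, hk] at h
    exact pow_ne_zero k two_ne_zero h
  obtain ⟨m, hm0, -, hmU⟩ := Subgroup.exists_pow_mem_of_index_ne_zero hUi g₀
  have hx0 : chi (g₀ ^ m) ≠ 0 := by
    rw [hpow]
    intro h
    rcases mul_eq_zero.1 h with h | h
    · exact hm0.ne' (Nat.cast_eq_zero.1 h)
    · exact hg₀ (by rw [h]; exact dvd_zero _)
  obtain ⟨j₀, hj₀⟩ := pow_dvd_bound _ hx0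
  have hex : ∃ j : ℕ, ∃ u ∈ U, ¬ (2 : ℤ_[2]) ^ j ∣ chi u := ⟨j₀, _, hmU, hj₀⟩
  classical
  obtain ⟨u₀, hu₀U, hu₀⟩ := Nat.find_spec hex
  have hmin : ∀ j < Nat.find hex, ∀ u ∈ U, (2 : ℤ_[2]) ^ j ∣ chi u := by
    intro j hj u hu
    have := Nat.find_min hex hj
    push Not at this
    exact this u hu
  generalize hJ : Nat.find hex = J at hu₀ hmin
  match J, hu₀, hmin with
  | 0, hu₀, _ => exact absurd (by rw [pow_zero]; exact one_dvd _) hu₀
  | j + 1, hu₀, hmin =>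
    have hdvd : ∀ u ∈ U, (2 : ℤ_[2]) ^ j ∣ chi u := hmin j (Nat.lt_succ_self j)
    obtain ⟨L, hL, hLs⟩ := hlev (j + 1)
    have hLm : ∀ g, g ∈ L ↔ (2 : ℤ_[2]) ^ (j + 1) ∣ chi g := by
      intro g
      have : g ∈ (L : Set G) ↔ g ∈ lev ⊤ chi (j + 1) := by rw [hLs]
      rw [SetLike.mem_coe] at this
      rw [this]
      exact ⟨fun h => h.2, fun h => ⟨Subgroup.mem_top g, h⟩⟩
    refine ⟨U ⊓ L, S.inf_mem U hU L hL, inf_le_left, ?_⟩
    rw [Subgroup.relIndex_eq_two_iff]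
    refine ⟨u₀, hu₀U, fun b hb => ?_⟩
    have hne : (2 : ℤ_[2]) ^ j ≠ 0 := pow_ne_zero j two_ne_zero
    obtain ⟨α, hα⟩ := hdvd u₀ hu₀U
    obtain ⟨β, hβ⟩ := hdvd b hb
    have hα' : ¬ (2 : ℤ_[2]) ∣ α := by
      intro h
      apply hu₀
      rw [hα, pow_succ]
      exact mul_dvd_mul_left _ h
    have e1 : b * u₀ ∈ U ⊓ L ↔ (2 : ℤ_[2]) ∣ β + α := by
      rw [Subgroup.mem_inf, hLm, hmul, hα, hβ, ← mul_add, pow_succ, mul_dvd_mul_iff_left hne]
      exact ⟨fun h => h.2, fun h => ⟨U.mul_mem hb hu₀U, h⟩⟩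
    have e2 : b ∈ U ⊓ L ↔ (2 : ℤ_[2]) ∣ β := by
      rw [Subgroup.mem_inf, hLm, hβ, pow_succ, mul_dvd_mul_iff_left hne]
      exact ⟨fun h => h.2, fun h => ⟨hb, h⟩⟩
    rw [e1, e2]
    exact xor_two β α hα'

end Pool.Agent.ETF
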